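import Pool.Agent.P.MP_d14b1f_an.Nv.IfaceL

/-! Step BLK. -/

set_option autoImplicit false

namespace Pool.Agent.P.MP_d14b1f_an.Nv

open Complex Filter Finset MeasureTheory Function Topology Asymptotics

/-- pointwise quartic majorant -/
theorem blk_pt {κ ρ α Y : ℝ} (hκ : 0 ≤ κ) (hρ : 0 ≤ ρ) (hα : 0 ≤ α) :
    Real.exp (-κ * |Y|) ≤ (1 + (1 - Real.exp (-κ * ρ)) * (α * ρ ^ 2)) -
      (1 - Real.exp (-κ * ρ)) * α * Y ^ 2 + (1 - Real.exp (-κ * ρ)) * (α ^ 2 / 4) * Y ^ 4 := by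
  have h1 : Real.exp (-κ * ρ) ≤ 1 := Real.exp_le_one_iff.2 (by nlinarith [mul_nonneg hκ hρ])
  have hc : 0 ≤ 1 - Real.exp (-κ * ρ) := by linarith
  by_cases h : ρ ≤ |Y|
  · have h2 : Real.exp (-κ * |Y|) ≤ Real.exp (-κ * ρ) :=
      Real.exp_le_exp.2 (by nlinarith [mul_le_mul_of_nonneg_left h hκ])
    have h3 : 0 ≤ 1 + α * ρ ^ 2 - α * Y ^ 2 + α ^ 2 / 4 * Y ^ 4 := by
      nlinarith [sq_nonneg (1 - α * Y ^ 2 / 2), mul_nonneg hα (sq_nonneg ρ)]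
    nlinarith [mul_nonneg hc h3]
  · have h2 : Real.exp (-κ * |Y|) ≤ 1 :=
      Real.exp_le_one_iff.2 (by nlinarith [mul_nonneg hκ (abs_nonneg Y)])
    have h4 : Y ^ 2 ≤ ρ ^ 2 := by
      rw [← sq_abs Y]
      exact pow_le_pow_left₀ (abs_nonneg Y) (not_le.1 h).le 2
    have h3 : 0 ≤ α * ρ ^ 2 - α * Y ^ 2 + α ^ 2 / 4 * Y ^ 4 := by
      have h5 : 0 ≤ α ^ 2 / 4 * Y ^ 4 := by positivity
      nlinarith [mul_le_mul_of_nonneg_left h4 hα]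
    nlinarith [mul_nonneg hc h3]

theorem p_BLK (hMOM : S_MOM) :
    S_BLK := by
  intro J r a B κ v0 y hr ha hκ hv0 hB hv
  obtain ⟨m, v, hv1, hm⟩ := hMOM J r a B hr ha
  obtain ⟨h2, h4⟩ := hm (y + m)
  have e : ∀ s : ℝ, y + m + (s - m) = y + s := fun s => by ring
  simp only [e] at h2 h4
  have h0 : E (fun w => ∏ j ∈ J, Real.exp (2 * (r j * (w j : ℂ).re))) = ∏ j ∈ J, Zr (r j) :=
    E_prod J (g := fun j u => Real.exp (2 * (r j * (u : ℂ).re))) fun j _ => by fun_prop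
  have hZ : 0 ≤ ∏ j ∈ J, Zr (r j) :=
    prod_nonneg fun j _ => av_nonneg fun u => (Real.exp_pos _).le
  set Z := ∏ j ∈ J, Zr (r j)
  set W : Om → ℝ := fun w => ∏ j ∈ J, Real.exp (2 * (r j * (w j : ℂ).re)) with hW
  set Y : Om → ℝ := fun w => y + ∑ j ∈ J, a j * (r j * (w j : ℂ).re) with hY
  have cW : Continuous W := by rw [hW]; fun_prop
  have cY : Continuous Y := by rw [hY]; fun_prop
  have pW : ∀ w, 0 ≤ W w := fun w => prod_nonneg fun j _ => (Real.exp_pos _).le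
  change E (fun w => W w * Y w ^ 2) = _ at h2
  change E (fun w => W w * Y w ^ 4) ≤ _ at h4
  change E (fun w => W w * Real.exp (-κ * |Y w|)) ≤ _
  have hvv : v0 ≤ v := hv.trans hv1
  obtain ⟨μ, hμ⟩ : ∃ μ, μ = (y + m) ^ 2 + v := ⟨_, rfl⟩
  have hμ0 : v0 ≤ μ := by nlinarith [sq_nonneg (y + m)]
  have hμp : 0 < μ := hv0.trans_le hμ0
  have h5 : (y + m) ^ 4 + 8 * (y + m) ^ 2 * v + 4 * v ^ 2 + 3 * B ^ 2 * v ≤ 5 * μ ^ 2 := by
    have h6 : 3 * B ^ 2 * v ≤ v * v :=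
      mul_le_mul_of_nonneg_right (hB.trans hvv) (hv0.le.trans hvv)
    have h7 : 0 ≤ (y + m) ^ 2 * v := mul_nonneg (sq_nonneg _) (hv0.le.trans hvv)
    have h8 : 0 ≤ (y + m) ^ 4 := by positivity
    rw [hμ]
    nlinarith
  have h4' : E (fun w => W w * Y w ^ 4) ≤ Z * (5 * μ ^ 2) :=
    h4.trans (mul_le_mul_of_nonneg_left h5 hZ)
  rw [← hμ] at h2
  obtain ⟨ρ, hρ⟩ : ∃ ρ, ρ = Real.sqrt v0 / 2 := ⟨_, rfl⟩
  have hρ0 : 0 ≤ ρ := by rw [hρ]; positivity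
  have hρ2 : ρ ^ 2 = v0 / 4 := by rw [hρ, div_pow, Real.sq_sqrt hv0.le]; norm_num
  rw [show -κ * Real.sqrt v0 / 2 = -κ * ρ by rw [hρ]; ring]
  have h1 : Real.exp (-κ * ρ) ≤ 1 := Real.exp_le_one_iff.2 (by nlinarith [mul_nonneg hκ hρ0])
  obtain ⟨α, hα⟩ : ∃ α, α = 1 / (5 * μ) := ⟨_, rfl⟩
  have hα0 : 0 ≤ α := by rw [hα]; positivity
  have hαμ : α * μ = 1 / 5 := by rw [hα]; field_simp
  have hpt := fun w => blk_pt (Y := Y w) hκ hρ0 hα0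
  generalize hc : 1 - Real.exp (-κ * ρ) = c at hpt ⊢
  have hc0 : 0 ≤ c := by linarith
  have h9 : E (fun w => W w * Real.exp (-κ * |Y w|)) ≤
      E (fun w => ((1 + c * (α * ρ ^ 2)) * W w - c * α * (W w * Y w ^ 2)) +
        c * (α ^ 2 / 4) * (W w * Y w ^ 4)) := by
    refine E_mono (by fun_prop) (by fun_prop) fun w => ?_
    refine (mul_le_mul_of_nonneg_left (hpt w) (pW w)).trans (le_of_eq ?_)
    ring
  rw [E_add (by fun_prop) (by fun_prop), E_sub (by fun_prop) (by fun_prop), E_mul, E_mul, E_mul,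
    h0, h2] at h9
  have h10 : c * (α ^ 2 / 4) * E (fun w => W w * Y w ^ 4) ≤ c * (α ^ 2 / 4) * (Z * (5 * μ ^ 2)) :=
    mul_le_mul_of_nonneg_left h4' (by positivity)
  have h11 : α * ρ ^ 2 ≤ 1 / 20 := by
    rw [hρ2]
    nlinarith [mul_le_mul_of_nonneg_left hμ0 hα0]
  have h12 : c * (α ^ 2 / 4) * (Z * (5 * μ ^ 2)) = c * Z / 20 := by
    rw [show c * (α ^ 2 / 4) * (Z * (5 * μ ^ 2)) = c * Z * (5 / 4) * (α * μ) ^ 2 by ring, hαμ]
    ring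
  have h13 : c * α * (Z * μ) = c * Z / 5 := by
    rw [show c * α * (Z * μ) = c * Z * (α * μ) by ring, hαμ]
    ring
  have h14 := mul_le_mul_of_nonneg_left h11 (mul_nonneg hc0 hZ)
  nlinarith

end Pool.Agent.P.MP_d14b1f_an.Nv
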