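import Pool.Agent.P.MP_d14b1f_an.Nv.IfaceL

/-! Step BLV. -/

set_option autoImplicit false

namespace Pool.Agent.P.MP_d14b1f_an.Nv

open Complex Filter Finset MeasureTheory Function Topology Asymptotics

theorem blv_disj (s : Finset ℕ) : Set.PairwiseDisjoint (s : Set ℕ) Lv := fun _ _ _ _ hne =>
  Finset.disjoint_left.2 fun _ h h' => hne (Lv_unique h h')

theorem blv_a (s : Finset ℕ) (c : ℕ → ℝ) {i j : ℕ} (hi : i ∈ s) (hj : j ∈ Lv i) :
    (∑ k ∈ s, if j ∈ Lv k then c k else 0) = c i := by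
  rw [sum_eq_single i (fun b _ hb => if_neg fun h => hb (Lv_unique h hj))
    (fun h => absurd hi h), if_pos hj]

theorem p_BLV (hBLK : S_BLK) (hVAR : S_VAR) :
    S_BLV := by
  intro b l κ y hl hκ
  set s := Ico (b * l) ((b + 1) * l) with hs
  set c : ℕ → ℝ := fun i => (((b + 1) * l : ℕ) : ℝ) - 1 - i with hc
  have hl' : (768 : ℝ) ≤ l := by exact_mod_cast hl
  have h := hBLK (s.biUnion Lv) rr (fun j => ∑ k ∈ s, if j ∈ Lv k then c k else 0) l κ
    ((l : ℝ) ^ 3 / 256) y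
    (fun j hj => by
      obtain ⟨i, -, hi⟩ := mem_biUnion.1 hj
      exact ⟨rr_nonneg j, (rr_le hi).trans (by norm_num)⟩)
    (fun j hj => by
      obtain ⟨i, hi, hj'⟩ := mem_biUnion.1 hj
      rw [blv_a s c hi hj']
      obtain ⟨h1, h2⟩ := mem_Ico.1 hi
      have h1' : ((b * l : ℕ) : ℝ) ≤ i := by exact_mod_cast h1
      have h2' : (i : ℝ) + 1 ≤ (((b + 1) * l : ℕ) : ℝ) := by exact_mod_cast h2
      simp only [hc]
      push_cast at h1' h2' ⊢
      rw [abs_le]
      constructor <;> nlinarith)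
    hκ (by positivity) (by nlinarith [sq_nonneg (l : ℝ)])
    (by
      rw [sum_biUnion (blv_disj s)]
      refine (hVAR b l hl).trans (le_of_eq (sum_congr rfl fun i hi => sum_congr rfl fun j hj => ?_))
      rw [blv_a s c hi hj])
  rw [prod_biUnion (blv_disj s)] at h
  refine le_of_eq_of_le (congrArg E (funext fun w => ?_)) h
  rw [← Real.exp_sum, ← mul_sum, sum_biUnion (blv_disj s), sum_biUnion (blv_disj s)]
  have e : ∑ i ∈ s, c i * XX i (cz w) = ∑ i ∈ s, ∑ j ∈ Lv i,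
      (∑ k ∈ s, if j ∈ Lv k then c k else 0) * (rr j * (w j : ℂ).re) :=
    sum_congr rfl fun i hi => by
      rw [XX, mul_sum]
      exact sum_congr rfl fun j hj => by rw [blv_a s c hi hj]; rfl
  rw [← e]
  rfl

end Pool.Agent.P.MP_d14b1f_an.Nv
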