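import Pool.Agent.P.MP_d14b1f_an.Nv.IfaceL

/-! Step CHAIN. -/

set_option autoImplicit false

namespace Pool.Agent.P.MP_d14b1f_an.Nv

open Complex Filter Finset MeasureTheory Function Topology Asymptotics

theorem chain_out {s t i : ℕ} (hi : i < s) (v w : Om) :
    XX i (cz (((Ico s t).biUnion Lv).piecewise v w)) = XX i (cz w) := by
  refine sum_congr rfl fun j hj => ?_
  have : j ∉ (Ico s t).biUnion Lv := fun h => by
    obtain ⟨i', h1, h2⟩ := mem_biUnion.1 h
    have h3 := Lv_unique hj h2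
    have h4 := (mem_Ico.1 h1).1
    omega
  simp only [cz, piecewise_eq_of_notMem _ _ _ this]

theorem chain_in {s t i : ℕ} (hi : i ∈ Ico s t) (v w : Om) :
    XX i (cz (((Ico s t).biUnion Lv).piecewise v w)) = XX i (cz v) := by
  refine sum_congr rfl fun j hj => ?_
  simp only [cz, piecewise_eq_of_mem _ _ _ (mem_biUnion.2 ⟨i, hi, hj⟩)]

theorem chain_sum (X : ℕ → ℝ) {s t : ℕ} (h : s ≤ t) :
    ∑ k ∈ Ico s t, ∑ i ∈ range k, X i =
      ((t : ℝ) - s) * ∑ i ∈ range s, X i + ∑ i ∈ Ico s t, ((t : ℝ) - 1 - i) * X i := by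
  induction t, h using Nat.le_induction with
  | base => simp
  | succ t h ih =>
    have e : ∑ i ∈ Ico s t, (((t + 1 : ℕ) : ℝ) - 1 - i) * X i =
        ∑ i ∈ Ico s t, ((t : ℝ) - 1 - i) * X i + ∑ i ∈ Ico s t, X i := by
      rw [← sum_add_distrib]
      exact sum_congr rfl fun i _ => by push_cast; ring
    rw [sum_Ico_succ_top h, sum_Ico_succ_top h, ih, e, ← sum_range_add_sum_Ico X h]
    push_cast
    ring

theorem p_CHAIN (hBLV : S_BLV) :
    S_CHAIN := by
  intro b l κ a hl hκ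
  have hc : ∀ n : ℕ, Continuous fun w : Om => Real.exp (2 * ∑ i ∈ range (n * l), XX i (cz w)) *
      ∏ c ∈ range n, Real.exp (-κ * |∑ k ∈ Ico (c * l) ((c + 1) * l), (SX k (cz w) - a)|) :=
    fun n => by unfold SX XX; fun_prop
  induction b with
  | zero => simp [E_const]
  | succ b ih =>
    have hst : b * l ≤ (b + 1) * l := Nat.mul_le_mul_right _ b.le_succ
    obtain ⟨C, hC⟩ : ∃ C, C = (∏ i ∈ Ico (b * l) ((b + 1) * l), ∏ j ∈ Lv i, Zr (rr j)) *
      (1 - (1 - Real.exp (-κ * Real.sqrt ((l : ℝ) ^ 3 / 256) / 2)) / 10) := ⟨_, rfl⟩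
    have hC0 : 0 ≤ C := hC ▸ (E_nonneg fun _ => by positivity).trans (hBLV b l κ 0 hl hκ)
    refine (E_mix_le ((Ico (b * l) ((b + 1) * l)).biUnion Lv)
      (G := fun w => C * (Real.exp (2 * ∑ i ∈ range (b * l), XX i (cz w)) * ∏ c ∈ range b,
        Real.exp (-κ * |∑ k ∈ Ico (c * l) ((c + 1) * l), (SX k (cz w) - a)|))) (hc (b + 1))
      (continuous_const.mul (hc b)) fun w => ?_).trans ?_
    · have h := hBLV b l κ (((((b + 1) * l : ℕ) : ℝ) - (b * l : ℕ)) * ∑ i ∈ range (b * l), XX i (cz w) -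
        ∑ k ∈ Ico (b * l) ((b + 1) * l), ((k : ℝ) * Real.log 2 + a)) hl hκ
      rw [← hC] at h
      rw [mul_comm C]
      refine le_of_eq_of_le ?_ (mul_le_mul_of_nonneg_left h (by positivity))
      rw [← E_mul]
      refine E_congr fun v => ?_
      have e1 := sum_congr rfl fun i (hi : i ∈ range (b * l)) =>
        chain_out (t := (b + 1) * l) (mem_range.1 hi) v w
      have e2 : ∀ g : ℕ → ℝ, ∑ i ∈ Ico (b * l) ((b + 1) * l), g i *
          XX i (cz (((Ico (b * l) ((b + 1) * l)).biUnion Lv).piecewise v w)) =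
          ∑ i ∈ Ico (b * l) ((b + 1) * l), g i * XX i (cz v) := fun g =>
        sum_congr rfl fun i hi => by rw [chain_in hi]
      have e3 := sum_congr rfl fun i (hi : i ∈ Ico (b * l) ((b + 1) * l)) => chain_in hi v w
      have e4 : ∀ c ∈ range b, ∀ k ∈ Ico (c * l) ((c + 1) * l),
          SX k (cz (((Ico (b * l) ((b + 1) * l)).biUnion Lv).piecewise v w)) = SX k (cz w) := by
        intro c hc' k hk
        have h1 : (c + 1) * l ≤ b * l := Nat.mul_le_mul_right _ (mem_range.1 hc')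
        have h2 := (mem_Ico.1 hk).2
        unfold SX
        rw [sum_congr rfl fun i hi => chain_out (by have := mem_range.1 hi; omega) v w]
      have e5 : ∑ k ∈ Ico (b * l) ((b + 1) * l),
          (SX k (cz (((Ico (b * l) ((b + 1) * l)).biUnion Lv).piecewise v w)) - a) =
          (((((b + 1) * l : ℕ) : ℝ) - (b * l : ℕ)) * ∑ i ∈ range (b * l), XX i (cz w) -
            ∑ k ∈ Ico (b * l) ((b + 1) * l), ((k : ℝ) * Real.log 2 + a)) +
          ∑ i ∈ Ico (b * l) ((b + 1) * l), ((((b + 1) * l : ℕ) : ℝ) - 1 - i) * XX i (cz v) := by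
        simp only [SX, sub_sub _ _ a]
        rw [sum_sub_distrib, chain_sum _ hst, e1, e2]
        exact (add_sub_right_comm _ _ _)
      have e6 : ∏ c ∈ range b, Real.exp (-κ * |∑ k ∈ Ico (c * l) ((c + 1) * l),
          (SX k (cz (((Ico (b * l) ((b + 1) * l)).biUnion Lv).piecewise v w)) - a)|) =
          ∏ c ∈ range b, Real.exp (-κ * |∑ k ∈ Ico (c * l) ((c + 1) * l), (SX k (cz w) - a)|) :=
        prod_congr rfl fun c hc' => by
          rw [sum_congr rfl fun k hk => congrArg (· - a) (e4 c hc' k hk)]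
      rw [prod_range_succ, e5, e6, ← sum_range_add_sum_Ico _ hst, e1, e3, mul_add, Real.exp_add]
      ring
    · rw [E_mul]
      refine (mul_le_mul_of_nonneg_left ih hC0).trans (le_of_eq ?_)
      rw [hC, ← prod_range_mul_prod_Ico _ hst]
      ring

end Pool.Agent.P.MP_d14b1f_an.Nv
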