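import Pool.Agent.P.MP_d14b1f_an.Nv.IfaceU

/-! Step ENT. -/

set_option autoImplicit false

namespace Pool.Agent.P.MP_d14b1f_an.Nv

open Complex Filter Finset MeasureTheory Function Topology Asymptotics

lemma ent_pt {x t K : ℝ} (hx : 0 ≤ x) (hK : 1 ≤ K) :
    x * t ≤ Real.log K * x + K⁻¹ * x ^ 2 + Real.exp t := by
  rcases hx.eq_or_lt with rfl | hx
  · simpa using (Real.exp_pos t).le
  have hK0 : 0 < K := by linarith
  have h1 := Real.add_one_le_exp (t - Real.log x)
  rw [Real.exp_sub, Real.exp_log hx, le_div_iff₀ hx] at h1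
  have h2 := Real.log_le_sub_one_of_pos (div_pos hx hK0)
  rw [Real.log_div hx.ne' hK0.ne', div_eq_inv_mul] at h2
  nlinarith [mul_le_mul_of_nonneg_left h2 hx.le]

lemma ent_exp {p g : ℝ} (hg : 0 ≤ g) : Real.exp (p * lp g) ≤ 1 + g ^ p := by
  have h0 : 0 ≤ g ^ p := Real.rpow_nonneg hg p
  unfold lp
  rcases le_total g 1 with h | h
  · rw [max_eq_left h]; simpa using h0
  · rw [max_eq_right h, Real.rpow_def_of_pos (by linarith), mul_comm]; linarith

theorem p_ENT :
    S_ENT := by
  intro p K W g hp hK hW hg W0 g0 hE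
  have hgp : Continuous fun w => g w ^ p := hg.rpow_const fun w => Or.inr hp.le
  have h1 := E_mono (F := fun w => p * (W w * lp (g w)))
    (G := fun w => (Real.log K * W w + K⁻¹ * W w ^ 2) + (1 + g w ^ p)) (by fun_prop)
    (by fun_prop) (fun w => by
      have a := ent_pt (t := p * lp (g w)) (W0 w) hK
      have b := ent_exp (p := p) (g0 w)
      nlinarith)
  rw [E_mul, E_add (by fun_prop) (by fun_prop), E_add (by fun_prop) (by fun_prop),
    E_add (by fun_prop) hgp, E_mul, E_mul, E_const] at h1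
  have h2 := mul_le_mul_of_nonneg_left hE (Real.log_nonneg hK)
  rw [div_eq_inv_mul]
  have e : E (fun w => W w) = E W := rfl
  linarith

end Pool.Agent.P.MP_d14b1f_an.Nv
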