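import Pool.Agent.P.MP_d14b1f_an.Nv.IfaceU

/-! Step EUL. -/

set_option autoImplicit false

namespace Pool.Agent.P.MP_d14b1f_an.Nv

open Complex Filter Finset MeasureTheory Function Topology Asymptotics

theorem eul_norm (δ v : ℝ) (j : ℕ) (hj : 0 < j) :
    ‖(j : ℂ) ^ (-(1 + δ + v * I))‖ = (j : ℝ) ^ (-(1 + δ)) := by
  rw [Complex.norm_natCast_cpow_of_pos hj]
  congr 1
  simp

theorem eul_pos (δ v : ℝ) (hδ : 0 < δ) (j : ℕ) (hj : j.Prime) :
    0 < ‖1 - (j : ℂ) ^ (-(1 + δ + v * I))‖ := by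
  have h1 := eul_norm δ v j hj.pos
  have h2 : (j : ℝ) ^ (-(1 + δ)) < 1 :=
    Real.rpow_lt_one_of_one_lt_of_neg (by exact_mod_cast hj.one_lt) (by linarith)
  have h3 := norm_sub_norm_le (1 : ℂ) ((j : ℂ) ^ (-(1 + δ + v * I)))
  rw [norm_one, h1] at h3
  linarith

theorem eul_tail (δ : ℝ) (hδ : 0 < δ) : ∃ N0 : ℕ, ∀ N, N0 ≤ N → ∀ n,
    ∑ j ∈ Ico N n, (j : ℝ) ^ (-(1 + δ)) ≤ 1 / 2 := by
  have hs : Summable (fun j : ℕ => (j : ℝ) ^ (-(1 + δ))) :=
    Real.summable_nat_rpow.2 (by linarith)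
  obtain ⟨s, hs'⟩ := (summable_iff_vanishing_norm.1 hs) (1 / 2) (by norm_num)
  refine ⟨s.sup id + 1, fun N hN n => ?_⟩
  have hd : Disjoint (Ico N n) s := by
    rw [Finset.disjoint_left]
    intro j hj hjs
    have h1 : id j ≤ s.sup id := Finset.le_sup hjs
    have h2 := (Finset.mem_Ico.1 hj).1
    simp only [id] at h1
    omega
  have := hs' _ hd
  exact le_trans (le_abs_self _) (le_of_lt (by simpa [Real.norm_eq_abs] using this))

theorem eul_prod (δ v : ℝ) (N n : ℕ)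
    (h : ∑ j ∈ Ico N n, (j : ℝ) ^ (-(1 + δ)) ≤ 1 / 2) :
    ∏ j ∈ (Ico N n).filter Nat.Prime, ‖1 - (j : ℂ) ^ (-(1 + δ + v * I))‖ ≤ 2 := by
  have h1 : ∏ j ∈ (Ico N n).filter Nat.Prime, ‖1 - (j : ℂ) ^ (-(1 + δ + v * I))‖ ≤
      ∏ j ∈ (Ico N n).filter Nat.Prime, Real.exp ((j : ℝ) ^ (-(1 + δ))) := by
    refine Finset.prod_le_prod (fun j _ => norm_nonneg _) (fun j hj => ?_)
    have hp := (Finset.mem_filter.1 hj).2
    have h2 := norm_sub_le (1 : ℂ) ((j : ℂ) ^ (-(1 + δ + v * I)))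
    rw [norm_one, eul_norm δ v j hp.pos] at h2
    have h3 := Real.add_one_le_exp ((j : ℝ) ^ (-(1 + δ)))
    linarith
  rw [← Real.exp_sum] at h1
  have h2 : ∑ j ∈ (Ico N n).filter Nat.Prime, (j : ℝ) ^ (-(1 + δ)) ≤
      ∑ j ∈ Ico N n, (j : ℝ) ^ (-(1 + δ)) :=
    Finset.sum_le_sum_of_subset_of_nonneg (Finset.filter_subset _ _)
      (fun j _ _ => Real.rpow_nonneg (Nat.cast_nonneg j) _)
  have h3 : Real.exp (1 / 2) ≤ 2 := by
    have h4 : Real.exp (1 / 2) * Real.exp (1 / 2) = Real.exp 1 := by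
      rw [← Real.exp_add]; norm_num
    have h5 := Real.exp_one_lt_d9
    have h6 := Real.exp_pos (1 / 2)
    nlinarith
  exact h1.trans ((Real.exp_le_exp.2 (h2.trans h)).trans h3)

theorem p_EUL :
    S_EUL := by
  intro δ hδ
  obtain ⟨N0, hN0⟩ := eul_tail δ hδ
  refine ⟨N0, fun N hN v => ?_⟩
  have hre : 1 < (1 + δ + v * I : ℂ).re := by simp [hδ]
  have hT := ((riemannZeta_eulerProduct hre).norm).const_mul 2
  refine ge_of_tendsto hT ?_
  filter_upwards [eventually_ge_atTop N] with n hn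
  have hsplit : Nat.primesBelow n =
      (range N).filter Nat.Prime ∪ (Ico N n).filter Nat.Prime := by
    ext j
    simp only [Nat.mem_primesBelow, Finset.mem_union, Finset.mem_filter, Finset.mem_range,
      Finset.mem_Ico]
    constructor
    · rintro ⟨h1, h2⟩
      by_cases h : j < N
      · exact Or.inl ⟨h, h2⟩
      · exact Or.inr ⟨⟨by omega, h1⟩, h2⟩
    · rintro (⟨h1, h2⟩ | ⟨⟨_, h1⟩, h2⟩)
      · exact ⟨by omega, h2⟩
      · exact ⟨h1, h2⟩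
  have hd : Disjoint ((range N).filter Nat.Prime) ((Ico N n).filter Nat.Prime) := by
    rw [Finset.disjoint_left]
    intro j h1 h2
    have h3 := Finset.mem_range.1 (Finset.mem_filter.1 h1).1
    have h4 := (Finset.mem_Ico.1 (Finset.mem_filter.1 h2).1).1
    omega
  rw [norm_prod, hsplit, Finset.prod_union hd]
  simp only [norm_inv, one_div]
  have hB := eul_prod δ v N n (hN0 N hN n)
  have hBpos : 0 < ∏ j ∈ (Ico N n).filter Nat.Prime, ‖1 - (j : ℂ) ^ (-(1 + δ + v * I))‖ :=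
    Finset.prod_pos (fun j hj => eul_pos δ v hδ j (Finset.mem_filter.1 hj).2)
  have hA : 0 ≤ ∏ j ∈ (range N).filter Nat.Prime, ‖1 - (j : ℂ) ^ (-(1 + δ + v * I))‖⁻¹ :=
    Finset.prod_nonneg (fun j _ => inv_nonneg.2 (norm_nonneg _))
  rw [Finset.prod_inv_distrib (s := (Ico N n).filter Nat.Prime)]
  have h1 : 1 ≤ 2 * (∏ j ∈ (Ico N n).filter Nat.Prime,
      ‖1 - (j : ℂ) ^ (-(1 + δ + v * I))‖)⁻¹ := by
    rw [← div_eq_mul_inv, le_div_iff₀ hBpos]
    linarith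
  nlinarith [mul_le_mul_of_nonneg_left h1 hA]

end Pool.Agent.P.MP_d14b1f_an.Nv
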