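import Pool.Agent.P.MP_d14b1f_an.Nv.IfaceL

/-! Step EVA. -/

set_option autoImplicit false

namespace Pool.Agent.P.MP_d14b1f_an.Nv

open Complex Filter Finset MeasureTheory Function Topology Asymptotics

theorem eva_abel (v : ℕ → ℝ) (n : ℕ) :
    ∑ i ∈ range n, ((n : ℝ) - 1 - i) * v i = ∑ k ∈ range n, ∑ i ∈ range k, v i := by
  induction n with
  | zero => simp
  | succ n ih =>
    rw [sum_range_succ, sum_range_succ, ← ih, ← sum_add_distrib]
    have h0 : (((n + 1 : ℕ) : ℝ) - 1 - n) * v n = 0 := by push_cast; ring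
    rw [h0, add_zero]
    refine sum_congr rfl fun i _ => ?_
    push_cast; ring

theorem eva_lin (c d : ℝ) (n : ℕ) :
    ∑ k ∈ range n, ((k : ℝ) * c - d) = n * ((n - 1) / 2 * c - d) := by
  induction n with
  | zero => simp
  | succ n ih => rw [sum_range_succ, ih]; push_cast; ring

theorem p_EVA :
    S_EVA := by
  intro n η hn h0 h1
  have hnpos : (0 : ℝ) < n := by exact_mod_cast hn
  set v : ℕ → ℝ := fun i => ∑ j ∈ Lv i, 1 / (j : ℝ) with hv
  have hV : ∀ k : ℕ, (k : ℝ) * Real.log 2 - 7 ≤ ∑ i ∈ range k, v i := fun k => by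
    have := (abs_le.1 (mert_Lv k)).1
    simp only [hv]
    linarith
  have hsplit : ∑ i ∈ range n, th n η i * v i =
      ∑ i ∈ range n, v i + η / n * ∑ i ∈ range n, ((n : ℝ) - 1 - i) * v i := by
    rw [mul_sum, ← sum_add_distrib]
    refine sum_congr rfl fun i _ => ?_
    unfold th
    field_simp
  have hsum : (n : ℝ) * ((n - 1) / 2 * Real.log 2 - 7) ≤ ∑ k ∈ range n, ∑ i ∈ range k, v i := by
    rw [← eva_lin]
    exact sum_le_sum fun k _ => hV k
  have h2 : η / n * ((n : ℝ) * ((n - 1) / 2 * Real.log 2 - 7)) ≤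
      η / n * ∑ k ∈ range n, ∑ i ∈ range k, v i :=
    mul_le_mul_of_nonneg_left hsum (by positivity)
  have h3 : η / n * ((n : ℝ) * ((n - 1) / 2 * Real.log 2 - 7)) =
      η * ((n - 1) / 2 * Real.log 2 - 7) := by field_simp
  show TB n η - 11 ≤ ∑ i ∈ range n, th n η i * v i
  rw [hsplit, eva_abel]
  have h4 := hV n
  unfold TB
  nlinarith

end Pool.Agent.P.MP_d14b1f_an.Nv
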