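import Pool.Agent.P.MP_d14b1f_an.Nv.IfaceL

/-! Step EVAL. -/

set_option autoImplicit false

namespace Pool.Agent.P.MP_d14b1f_an.Nv

open Complex Filter Finset MeasureTheory Function Topology Asymptotics

theorem eval_cos {a : ℝ} (ha : 0 ≤ a) (x : ℝ) : 1 - a - |x| ≤ Real.exp (-a) * Real.cos x := by
  have h1 := Real.add_one_le_exp (-a)
  have h2 : Real.exp (-a) ≤ 1 := Real.exp_le_one_iff.2 (by linarith)
  have h3 : 1 - |x| ≤ Real.cos x := by
    have := Real.abs_cos_sub_cos_le x 0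
    rw [Real.cos_zero, sub_zero] at this
    linarith [(abs_le.1 this).1]
  nlinarith [Real.cos_le_one x]

theorem eval_term {j : ℕ} (hj : 0 < j) (δ u τ : ℝ) :
    rr j * ((Circle.exp (τ * Real.log j) : ℂ) *
      (j : ℂ) ^ (-(((1 / 2 + δ : ℝ) : ℂ) + u * I))).re =
    1 / (j : ℝ) * (Real.exp (-(δ * Real.log j)) * Real.cos ((τ - u) * Real.log j)) := by
  have hj' : (0 : ℝ) < j := by exact_mod_cast hj
  have h1 : (j : ℂ) ^ (-(((1 / 2 + δ : ℝ) : ℂ) + u * I)) =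
      Complex.exp ((Real.log j : ℂ) * (-(((1 / 2 + δ : ℝ) : ℂ) + u * I))) := by
    rw [Complex.cpow_def_of_ne_zero (by exact_mod_cast hj.ne'), ← Complex.natCast_log]
  have h2 : rr j = Real.exp (-(Real.log j / 2)) := by
    rw [rr, Real.exp_neg, Real.exp_half, Real.exp_log hj']
  have h3 : 1 / (j : ℝ) = Real.exp (-Real.log j) := by
    rw [Real.exp_neg, Real.exp_log hj', one_div]
  rw [h1, Circle.coe_exp, ← Complex.exp_add, Complex.exp_re, h2, h3, ← mul_assoc, ← mul_assoc,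
    ← Real.exp_add, ← Real.exp_add]
  generalize Real.log j = L
  congr 2
  · simp; ring
  · simp; ring

theorem eval_v (i : ℕ) : ∑ j ∈ Lv i, 1 / (j : ℝ) ≤ 15 := by
  have h1 := (abs_le.1 (mert_Lv (i + 1))).2
  have h2 := (abs_le.1 (mert_Lv i)).1
  rw [sum_range_succ] at h1
  push_cast at h1
  linarith [Real.log_two_lt_d9]

theorem eval_nod {n i : ℕ} {u : ℝ} (hu : 0 ≤ u) (hi : i < n) :
    |nod n n ⌊u * (n * 2 ^ n)⌋₊ i - u| ≤ 1 / (n * 2 ^ i) := by
  have hn : (0 : ℝ) < n := by exact_mod_cast (by omega : 0 < n)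
  have hp : (0 : ℝ) < n * 2 ^ i := by positivity
  have e : u * (n * 2 ^ n) / ((2 ^ (n - i) : ℕ) : ℝ) = u * (n * 2 ^ i) := by
    have : (2 : ℝ) ^ n = 2 ^ i * 2 ^ (n - i) := by rw [← pow_add]; congr 1; omega
    rw [this]; push_cast; field_simp
  rw [nod, ← Nat.floor_div_natCast, e]
  have h1 := Nat.floor_le (show 0 ≤ u * (n * 2 ^ i) by positivity)
  have h2 := Nat.lt_floor_add_one (u * (n * 2 ^ i))
  have e2 : (⌊u * (n * 2 ^ i)⌋₊ : ℝ) / (n * 2 ^ i) - u =
      ((⌊u * (n * 2 ^ i)⌋₊ : ℝ) - u * (n * 2 ^ i)) / (n * 2 ^ i) := by field_simp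
  rw [e2, abs_div, abs_of_pos hp]
  exact div_le_div_of_nonneg_right (abs_le.2 ⟨by linarith, by linarith⟩) hp.le

theorem p_EVAL (hEVA : S_EVA) :
    S_EVAL := by
  intro n η δ u hn h0 h1 hδ hnd hu0 hu1
  have hn' : (0 : ℝ) < n := by exact_mod_cast hn
  refine ⟨⌊u * (n * 2 ^ n)⌋₊, ?_, ?_⟩
  · rw [Nat.floor_lt (by positivity)]
    push_cast
    have : (0 : ℝ) < n * 2 ^ n := by positivity
    nlinarith
  have key : ∀ i ∈ range n, th n η i * ∑ j ∈ Lv i, 1 / (j : ℝ) - 45 / 2 * (δ * 2 ^ (i + 3) + 8 / n) ≤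
      th n η i * XX i fun j => (tw n (nod n n ⌊u * (n * 2 ^ n)⌋₊) j : ℂ) *
        (j : ℂ) ^ (-(((1 / 2 + δ : ℝ) : ℂ) + u * I)) := by
    intro i hi
    have hi' := mem_range.1 hi
    have hi2 : (i : ℝ) + 1 ≤ n := by exact_mod_cast hi'
    have t0 : 0 ≤ η * (n - 1 - i) / n := div_nonneg (mul_nonneg h0 (by linarith)) hn'.le
    have t1 : η * (n - 1 - i) / n ≤ 1 / 2 := by
      rw [div_le_iff₀ hn']
      have : (0 : ℝ) ≤ i := by positivity
      nlinarith
    have hx : (1 - (δ * 2 ^ (i + 3) + 8 / n)) * ∑ j ∈ Lv i, 1 / (j : ℝ) ≤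
        XX i fun j => (tw n (nod n n ⌊u * (n * 2 ^ n)⌋₊) j : ℂ) *
          (j : ℂ) ^ (-(((1 / 2 + δ : ℝ) : ℂ) + u * I)) := by
      rw [mul_sum, XX]
      refine sum_le_sum fun j hj => ?_
      have hj0 : 0 < j := by have := Lv_ge hj; omega
      have hj1 : (0 : ℝ) < j := by exact_mod_cast hj0
      have hl0 : 0 ≤ Real.log j := Real.log_natCast_nonneg j
      have hl1 : Real.log j ≤ 2 ^ (i + 3) := by
        rw [Real.log_le_iff_le_exp hj1]; exact (mem_Lv.1 hj).2.2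
      rw [tw_apply _ hi' hj, eval_term hj0, mul_comm]
      refine mul_le_mul_of_nonneg_left ?_ (by positivity)
      refine le_trans ?_ (eval_cos (mul_nonneg hδ.le hl0) _)
      have a1 : δ * Real.log j ≤ δ * 2 ^ (i + 3) := mul_le_mul_of_nonneg_left hl1 hδ.le
      have a2 : |(nod n n ⌊u * (n * 2 ^ n)⌋₊ i - u) * Real.log j| ≤ 8 / n := by
        rw [abs_mul, abs_of_nonneg hl0]
        calc _ ≤ 1 / (n * 2 ^ i) * (2 : ℝ) ^ (i + 3) :=
              mul_le_mul (eval_nod hu0 hi') hl1 hl0 (by positivity)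
          _ = 8 / n := by field_simp; ring
      linarith
    have hv := eval_v i
    have hv0 : 0 ≤ ∑ j ∈ Lv i, 1 / (j : ℝ) := sum_nonneg fun _ _ => by positivity
    have he : 0 ≤ δ * 2 ^ (i + 3) + 8 / n := by positivity
    have ht0 : 0 ≤ th n η i := by rw [th]; linarith
    have ht1 : th n η i ≤ 3 / 2 := by rw [th]; linarith
    have m1 := mul_le_mul_of_nonneg_left hx ht0
    have m2 : th n η i * ∑ j ∈ Lv i, 1 / (j : ℝ) ≤ 45 / 2 := by nlinarith
    have m3 := mul_le_mul_of_nonneg_right m2 he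
    nlinarith
  have hs := sum_le_sum key
  have hg : ∑ i ∈ range n, (δ * 2 ^ (i + 3) + 8 / n) ≤ 16 := by
    have g : ∀ m : ℕ, ∑ i ∈ range m, δ * 2 ^ (i + 3) = 8 * (2 ^ m * δ) - 8 * δ := by
      intro m
      induction m with
      | zero => simp
      | succ m ih => rw [sum_range_succ, ih]; ring
    rw [sum_add_distrib, g, sum_const, card_range, nsmul_eq_mul, mul_div_cancel₀ _ hn'.ne']
    linarith
  rw [sum_sub_distrib, ← mul_sum] at hs
  have := hEVA n η hn h0 h1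
  rw [TX]
  linarith

end Pool.Agent.P.MP_d14b1f_an.Nv
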