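import Pool.Agent.P.MP_d14b1f_an.Nv.IfaceU

/-! Step FINU. -/

set_option autoImplicit false

namespace Pool.Agent.P.MP_d14b1f_an.Nv

open Complex Filter Finset MeasureTheory Function Topology Asymptotics

theorem finu_nat {g : ℝ → ℝ} (hg : Continuous g) {M : ℝ} (h : ∀ t0, ∫ t in t0..t0 + 1, g t ≤ M)
    (a : ℝ) (n : ℕ) : ∫ t in a..a + n, g t ≤ n * M := by
  induction n with
  | zero => simp
  | succ n ih =>
    have e := intervalIntegral.integral_add_adjacent_intervals (μ := volume)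
      (hg.intervalIntegrable a (a + n)) (hg.intervalIntegrable (a + n) (a + n + 1))
    have := h (a + n)
    push_cast
    rw [← add_assoc, ← e]
    linarith

theorem finu_le {g : ℝ → ℝ} (hg : Continuous g) (h0 : ∀ t, 0 ≤ g t) {M : ℝ}
    (h : ∀ t0, ∫ t in t0..t0 + 1, g t ≤ M) {a b : ℝ} {n : ℕ} (hab : a ≤ b) (hn : b - a ≤ n) :
    |∫ t in a..b, g t| ≤ n * M := by
  rw [abs_of_nonneg (intervalIntegral.integral_nonneg hab fun t _ => h0 t)]
  refine le_trans ?_ (finu_nat hg h a n)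
  exact intervalIntegral.integral_mono_interval le_rfl hab (by linarith)
    (Eventually.of_forall fun t => h0 t) (hg.intervalIntegrable _ _)

theorem finu_abs {g : ℝ → ℝ} (hg : Continuous g) (h0 : ∀ t, 0 ≤ g t) {M : ℝ}
    (h : ∀ t0, ∫ t in t0..t0 + 1, g t ≤ M) {a b : ℝ} {n : ℕ} (hn : |b - a| ≤ n) :
    |∫ t in a..b, g t| ≤ n * M := by
  rcases le_total a b with hab | hab
  · exact finu_le hg h0 h hab ((le_abs_self _).trans hn)
  · rw [intervalIntegral.integral_symm, abs_neg]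
    exact finu_le hg h0 h hab (by have := neg_abs_le (b - a); linarith)

theorem finu_cont : Continuous lp :=
  Continuous.log (by fun_prop) fun x => (lt_of_lt_of_le one_pos (le_max_left 1 x)).ne'

theorem finu_nonneg (x : ℝ) : 0 ≤ lp x := Real.log_nonneg (le_max_left 1 x)

theorem finu_mono {x y : ℝ} (h : x ≤ y) : lp x ≤ lp y :=
  Real.log_le_log (lt_of_lt_of_le one_pos (le_max_left 1 x)) (max_le_max le_rfl h)

theorem finu_dp (P : ℕ →₀ ℂ) : Continuous (dp P) := by
  unfold dp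
  refine continuous_finsetSum _ fun n _ => continuous_const.mul ?_
  exact Continuous.const_cpow continuous_neg (Or.inl (by exact_mod_cast n.succ_ne_zero))

theorem p_FINU (hHB : S_HB) (hUP : S_UP) (hPT : S_PT) :
    S_FINU := by
  intro p hp f hf a b
  obtain ⟨P, B, hB, hlim⟩ := hHB p hp f hf
  obtain ⟨C, hC⟩ := hUP p hp
  obtain ⟨n, hn⟩ := exists_nat_ge |b - a|
  have key : ∀ δ : ℝ, 0 < δ → δ < 1 / 2 →
      |nev f a b (1 / 2 + δ)| ≤ n * (C * (1 + Real.log (1 / δ)) ^ (1 / 3 : ℝ) + B / p) := by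
    intro δ h0 h1
    obtain ⟨C', -, hC'⟩ := hPT p δ B hp h0
    have hc : ∀ k, Continuous fun t : ℝ => lp ‖dp (P k) (((1 / 2 + δ : ℝ) : ℂ) + t * I)‖ :=
      fun k => finu_cont.comp (((finu_dp (P k)).comp (by fun_prop)).norm)
    have ht : Tendsto (fun k => nev (dp (P k)) a b (1 / 2 + δ)) atTop
        (𝓝 (nev f a b (1 / 2 + δ))) := by
      simp only [nev_eq]
      refine intervalIntegral.tendsto_integral_filter_of_dominated_convergence (fun _ => lp C')
        (Eventually.of_forall fun k => (hc k).aestronglyMeasurable)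
        (Eventually.of_forall fun k => Eventually.of_forall fun t _ => ?_)
        intervalIntegrable_const (Eventually.of_forall fun t _ => ?_)
      · rw [Real.norm_eq_abs, abs_of_nonneg (finu_nonneg _)]
        exact finu_mono (hC' _ _ (by simp) (hB k))
      · exact (finu_cont.tendsto _).comp (hlim _ (by simpa using h0)).norm
    refine le_of_tendsto' ht.abs fun k => ?_
    rw [nev_eq]
    refine finu_abs (hc k) (fun t => finu_nonneg _) (fun t0 => ?_) hn
    refine (hC (P k) δ t0 h0 h1).trans ?_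
    have := hB k
    gcongr
  refine IsBigO.of_bound (n * (2 * |C| + |B| / p)) ?_
  have hev : ∀ᶠ δ : ℝ in 𝓝[>] 0, 0 < δ ∧ δ < min (1 / 2) (Real.exp (-1)) :=
    Ioo_mem_nhdsGT (lt_min (by norm_num) (Real.exp_pos _))
  filter_upwards [hev] with δ ⟨h0, h1⟩
  have hL : 1 ≤ Real.log (1 / δ) := by
    rw [one_div, Real.log_inv]
    have := Real.log_lt_log h0 (h1.trans_le (min_le_right _ _))
    rw [Real.log_exp] at this
    linarith
  set L := Real.log (1 / δ) with hLd
  have e1 : 1 ≤ L ^ (1 / 3 : ℝ) := Real.one_le_rpow hL (by norm_num)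
  have e2 : (1 + L) ^ (1 / 3 : ℝ) ≤ 2 * L ^ (1 / 3 : ℝ) := by
    calc (1 + L) ^ (1 / 3 : ℝ) ≤ (2 * L) ^ (1 / 3 : ℝ) :=
          Real.rpow_le_rpow (by linarith) (by linarith) (by norm_num)
      _ = 2 ^ (1 / 3 : ℝ) * L ^ (1 / 3 : ℝ) := Real.mul_rpow (by norm_num) (by linarith)
      _ ≤ 2 * L ^ (1 / 3 : ℝ) := by
          gcongr
          exact (Real.rpow_le_rpow_of_exponent_le one_le_two (by norm_num)).trans_eq
            (Real.rpow_one 2)
  have e3 : 0 ≤ (1 + L) ^ (1 / 3 : ℝ) := Real.rpow_nonneg (by linarith) _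
  rw [Real.norm_eq_abs, Real.norm_eq_abs, abs_of_nonneg (zero_le_one.trans e1), mul_assoc]
  refine (key δ h0 (h1.trans_le (min_le_left _ _))).trans ?_
  refine mul_le_mul_of_nonneg_left ?_ (Nat.cast_nonneg n)
  have e4 : C * (1 + L) ^ (1 / 3 : ℝ) ≤ |C| * (2 * L ^ (1 / 3 : ℝ)) :=
    mul_le_mul (le_abs_self C) e2 e3 (abs_nonneg C)
  have e5 : B / p ≤ |B| / p * L ^ (1 / 3 : ℝ) := by
    have h2 : B / p ≤ |B| / p := by gcongr; exact le_abs_self B
    have h3 : 0 ≤ |B| / p := by positivity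
    nlinarith
  linarith

end Pool.Agent.P.MP_d14b1f_an.Nv
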