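import Pool.Agent.P.MP_d14b1f_an.Nv.IfaceU

/-! Step HB. -/

set_option autoImplicit false

namespace Pool.Agent.P.MP_d14b1f_an.Nv

open Complex Filter Finset MeasureTheory Function Topology Asymptotics

theorem hb_pow {p : ℝ} (hp : 0 < p) (a b : ℂ) :
    ‖a + b‖ ^ p ≤ 2 ^ p * (‖a‖ ^ p + ‖b‖ ^ p) := by
  have h1 : ‖a + b‖ ≤ 2 * max ‖a‖ ‖b‖ := by
    have := norm_add_le a b
    have := le_max_left ‖a‖ ‖b‖
    have := le_max_right ‖a‖ ‖b‖
    linarith
  refine (Real.rpow_le_rpow (norm_nonneg _) h1 hp.le).trans ?_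
  rw [Real.mul_rpow (by norm_num) (by positivity)]
  refine mul_le_mul_of_nonneg_left ?_ (by positivity)
  have h2 : 0 ≤ ‖a‖ ^ p := by positivity
  have h3 : 0 ≤ ‖b‖ ^ p := by positivity
  rcases max_choice ‖a‖ ‖b‖ with h | h <;> rw [h] <;> linarith

theorem p_HB (hKW : S_KW) :
    S_HB := by
  intro p hp f hf
  obtain ⟨P, hc, hl⟩ := hf
  obtain ⟨N, hN⟩ := hc 1 one_pos
  refine ⟨fun k => P (k + N), 2 ^ p * (1 + Np p (P N)), fun k => ?_,
    fun s hs => (tendsto_add_atTop_iff_nat N).2 (hl s hs)⟩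
  have h1 := hN (k + N) (by omega) N le_rfl
  have h2 : mean p (P (k + N) - P N) = Np p (P (k + N) - P N) := (hKW p hp _).limsup_eq
  rw [h2] at h1
  have h3 : Np p (P (k + N)) ≤ 2 ^ p * (Np p (P (k + N) - P N) + Np p (P N)) := by
    unfold Np
    rw [← E_add (cont_Np hp _) (cont_Np hp _), ← E_mul]
    refine E_mono (cont_Np hp _) (continuous_const.mul ((cont_Np hp _).add (cont_Np hp _)))
      fun w => ?_
    have := hb_pow hp (lift (P (k + N) - P N) (cz w)) (lift (P N) (cz w))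
    rwa [← lift_add, sub_add_cancel] at this
  exact h3.trans (mul_le_mul_of_nonneg_left (by linarith) (by positivity))

end Pool.Agent.P.MP_d14b1f_an.Nv
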