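import Pool.Agent.P.MP_d14b1f_an.Nv.BaseC

/-! Statements for the upper bound. -/

set_option autoImplicit false

namespace Pool.Agent.P.MP_d14b1f_an.Nv

open Complex Filter Finset MeasureTheory Function Topology Asymptotics

-- deps:
def S_MOB1 : Prop := ∀ z : ℂ, ‖z‖ < 1 → ∀ G : Circle → ℝ, Continuous G →
  av (fun u => G (mobC z u) * Pk z u) = av G

-- deps:
def S_POI : Prop := ∀ z : ℂ, ‖z‖ < 1 → ∀ g : ℂ → ℂ, DiffContOnCl ℂ g (Metric.ball 0 1) →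
  av (fun u => Pk z u * (g u).re) = (g z).re

-- deps: MOB1
def S_MOB : Prop := ∀ (N : ℕ) (z : ℕ → ℂ), Adm N z → ∀ F : Om → ℝ, Continuous F →
  E (fun w => F (bet z w) * rho N z w) = E F

-- deps:
def S_SUB : Prop := ∀ g : ℂ → ℂ, AnalyticOnNhd ℂ g (Metric.closedBall 0 1) →
  lp ‖g 0‖ ≤ av fun u => lp ‖g u‖

-- deps: MOB SUB
def S_JEN : Prop := ∀ (N : ℕ) (z : ℕ → ℂ), Adm N z → ∀ (P : ℕ →₀ ℂ) (h : Om → ℝ), Continuous h →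
  (∀ w, 0 ≤ h w) → (∀ (u : Circle) (w : Om), h (fun j => u * w j) = h w) →
  E h * lp ‖lift P z‖ ≤ E fun w => h (bet z w) * rho N z w * lp ‖lift P (cz w)‖

-- deps:
def S_ENT : Prop := ∀ (p K : ℝ) (W g : Om → ℝ), 0 < p → 1 ≤ K → Continuous W → Continuous g →
  (∀ w, 0 ≤ W w) → (∀ w, 0 ≤ g w) → E W ≤ 1 →
  p * E (fun w => W w * lp (g w)) ≤ Real.log K + E (fun w => W w ^ 2) / K + 1 + E fun w => g w ^ p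

-- deps: POI
def S_PP : Prop := ∀ z y : ℂ, ‖z‖ < 1 → ‖y‖ < 1 →
  av (fun u => Pk z u * Pk y u) ≤ 1 / ‖1 - z * (starRingEnd ℂ) y‖ ^ 2

-- deps: POI
def S_PK : Prop := ∀ z y : ℂ, ‖z‖ ^ 2 ≤ 1 / 2 → ‖y‖ = ‖z‖ →
  av (fun u => Pk z u * (Pk y u * Real.exp (-2 * ((starRingEnd ℂ) y * (mobC y u : ℂ)).re))) ≤
    Real.exp (‖y‖ ^ 2 + 30 * ‖y‖ ^ 3)

-- deps:
def S_LYA1 : Prop := ∀ (D : ℝ) (x c : ℂ), 4 ≤ D → ‖c‖ ≤ 1 →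
  (1 - 10 * ‖c‖ ^ 2 / D ^ 2) * max 0 (D ^ 2 - ‖x‖ ^ 2) ^ 2 ≤
    av fun u => max 0 (D ^ 2 - ‖x + c * u‖ ^ 2) ^ 2

-- deps: LYA1
def S_LYA : Prop := ∀ (D : ℝ) (N : ℕ) (c : ℕ → ℂ), 4 ≤ D → (∀ j, ‖c j‖ ≤ 1) →
  Real.exp (-(20 * ∑ j ∈ range N, ‖c j‖ ^ 2) / D ^ 2) ≤ E (hw D N c)

-- deps: PP PK
def S_PAIR : Prop := ∀ (D : ℝ) (N M : ℕ) (z y : ℕ → ℂ), M ≤ N → Adm N z → Adm N y →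
  (∀ j, ‖y j‖ = ‖z j‖) →
  E (fun w => rho N z w * (hw D N (fun j => (starRingEnd ℂ) (y j)) (bet y w) * rho N y w)) ≤
    Real.exp (2 * (D + 1)) * (Real.exp (∑ j ∈ range M, (‖y j‖ ^ 2 + 30 * ‖y j‖ ^ 3)) *
      ∏ j ∈ Ico M N, 1 / ‖1 - z j * (starRingEnd ℂ) (y j)‖ ^ 2)

-- deps:
def S_ZETA : Prop := ∃ C : ℝ, 0 < C ∧ ∀ δ v : ℝ, 0 < δ → δ ≤ 1 → |v| ≤ 1 →
  ‖riemannZeta (1 + δ + v * I)‖ ≤ C / max |v| δ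

-- deps:
def S_EUL : Prop := ∀ δ : ℝ, 0 < δ → ∃ N0 : ℕ, ∀ N, N0 ≤ N → ∀ v : ℝ,
  ∏ j ∈ (range N).filter Nat.Prime, 1 / ‖1 - (j : ℂ) ^ (-(1 + δ + v * I))‖ ≤
    2 * ‖riemannZeta (1 + δ + v * I)‖

-- deps: ZETA EUL
def S_NT1 : Prop := ∃ C : ℝ, 0 < C ∧ ∀ δ : ℝ, 0 < δ → δ < 1 / 2 → ∀ (N : ℕ) (t : ℝ),
  ∑ j ∈ range N, ‖zs N ((1 / 2 + δ : ℝ) + t * I) j‖ ^ 2 ≤ Real.log (1 / δ) + C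

-- deps: ZETA EUL
def S_NT2 : Prop := ∃ C : ℝ, 0 < C ∧ ∀ δ : ℝ, 0 < δ → δ < 1 / 2 → ∃ N0 : ℕ, ∀ N, N0 ≤ N →
  ∀ t u : ℝ, |t - u| ≤ 1 → ∃ M ≤ N,
    Real.exp (∑ j ∈ range M, (‖zs N ((1 / 2 + δ : ℝ) + u * I) j‖ ^ 2 +
        30 * ‖zs N ((1 / 2 + δ : ℝ) + u * I) j‖ ^ 3)) *
      ∏ j ∈ Ico M N, 1 / ‖1 - zs N ((1 / 2 + δ : ℝ) + t * I) j *
        (starRingEnd ℂ) (zs N ((1 / 2 + δ : ℝ) + u * I) j)‖ ^ 2 ≤ C / max |t - u| δ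

-- deps:
def S_INT : Prop := ∀ δ t0 t : ℝ, 0 < δ → δ < 1 / 2 → t0 ≤ t → t ≤ t0 + 1 →
  ∫ u in t0..t0 + 1, 1 / max |t - u| δ ≤ 2 + 2 * Real.log (1 / δ)

-- deps: PAIR NT2 INT
def S_SEC : Prop := ∃ C : ℝ, 0 < C ∧ ∀ δ : ℝ, 0 < δ → δ < 1 / 2 → ∃ N0 : ℕ, ∀ N, N0 ≤ N →
  ∀ D t0 : ℝ, E (fun w => (∫ t in t0..t0 + 1, WW D N (1 / 2 + δ) t w) ^ 2) ≤
    C * Real.exp (2 * D) * (1 + Real.log (1 / δ))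

-- deps: MOB JEN LYA NT1
def S_FST : Prop := ∃ C : ℝ, 0 < C ∧ ∀ δ : ℝ, 0 < δ → δ < 1 / 2 → ∀ (N : ℕ) (D : ℝ), 4 ≤ D →
  ∃ a : ℝ, Real.exp (-(20 * (Real.log (1 / δ) + C)) / D ^ 2) ≤ a ∧
    (∀ t0 : ℝ, E (fun w => ∫ t in t0..t0 + 1, WW D N (1 / 2 + δ) t w) = a) ∧
    ∀ (P : ℕ →₀ ℂ) (t0 : ℝ), (∀ s, lift P (zs N s) = dp P s) →
      a * nev (dp P) t0 (t0 + 1) (1 / 2 + δ) ≤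
        E fun w => (∫ t in t0..t0 + 1, WW D N (1 / 2 + δ) t w) * lp ‖lift P (cz w)‖

-- deps: FST SEC ENT
def S_UP : Prop := ∀ p : ℝ, 0 < p → ∃ C : ℝ, ∀ (P : ℕ →₀ ℂ) (δ t0 : ℝ), 0 < δ → δ < 1 / 2 →
  nev (dp P) t0 (t0 + 1) (1 / 2 + δ) ≤ C * (1 + Real.log (1 / δ)) ^ (1 / 3 : ℝ) + Np p P / p

-- deps: MOB JEN ENT PP
def S_PT : Prop := ∀ p δ B : ℝ, 0 < p → 0 < δ → ∃ C : ℝ, 0 < C ∧ ∀ (P : ℕ →₀ ℂ) (s : ℂ),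
  1 / 2 + δ ≤ s.re → Np p P ≤ B → ‖dp P s‖ ≤ C

-- deps:
def S_KW1 : Prop := ∀ (a b : ℕ) (c : ℂ), a ≠ 0 → b ≠ 0 →
  Tendsto (fun T : ℝ => (1 / (2 * T)) * ∫ t in (-T)..T,
    (c * ((a : ℂ) ^ (-(t * I)) * (starRingEnd ℂ) ((b : ℂ) ^ (-(t * I))))).re) atTop
    (𝓝 (E fun w => (c * (mon (cz w) a * (starRingEnd ℂ) (mon (cz w) b))).re))

-- deps: KW1
def S_KW : Prop := ∀ p : ℝ, 0 < p → ∀ P : ℕ →₀ ℂ,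
  Tendsto (fun T : ℝ => (1 / (2 * T)) * ∫ t in (-T)..T, ‖dp P (t * I)‖ ^ p) atTop (𝓝 (Np p P))

-- deps: KW
def S_HB : Prop := ∀ p : ℝ, 0 < p → ∀ f : ℂ → ℂ, InH p f → ∃ (P : ℕ → (ℕ →₀ ℂ)) (B : ℝ),
  (∀ k, Np p (P k) ≤ B) ∧ ∀ s : ℂ, 1 / 2 < s.re → Tendsto (fun k => dp (P k) s) atTop (𝓝 (f s))

-- deps: HB UP PT
def S_FINU : Prop := ∀ p : ℝ, 0 < p → ∀ f : ℂ → ℂ, InH p f → ∀ a b : ℝ,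
  (fun δ : ℝ => nev f a b (1 / 2 + δ)) =O[𝓝[>] 0] fun δ : ℝ => Real.log (1 / δ) ^ (1 / 3 : ℝ)

end Pool.Agent.P.MP_d14b1f_an.Nv
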