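import Pool.Agent.P.MP_d14b1f_an.Nv.IfaceL
import Pool.Agent.P.MP_d14b1f_an.Nv.IfaceU

/-! Step HUMP. -/

set_option autoImplicit false

namespace Pool.Agent.P.MP_d14b1f_an.Nv

open Complex Filter Finset MeasureTheory Function Topology Asymptotics

theorem hump_tend :
    Tendsto (fun δ : ℝ => Real.log (1 / δ) ^ (1 / 3 : ℝ)) (𝓝[>] 0) atTop := by
  have h1 : Tendsto (fun δ : ℝ => 1 / δ) (𝓝[>] 0) atTop := by
    simpa [one_div] using tendsto_inv_nhdsGT_zero (𝕜 := ℝ)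
  exact (tendsto_rpow_atTop (by norm_num : (0 : ℝ) < 1 / 3)).comp (Real.tendsto_log_atTop.comp h1)

theorem hump_dp (P : ℕ →₀ ℂ) (s : ℂ) (hs : 0 ≤ s.re) :
    ‖dp P s‖ ≤ ∑ n ∈ P.support, ‖P n‖ := by
  unfold dp
  refine (norm_sum_le _ _).trans (Finset.sum_le_sum fun n _ => ?_)
  rw [norm_mul]
  have h1 : ((n : ℂ) + 1) = ((n + 1 : ℕ) : ℂ) := by push_cast; ring
  have h2 : ‖((n : ℂ) + 1) ^ (-s)‖ ≤ 1 := by
    rw [h1, Complex.norm_natCast_cpow_of_pos (Nat.succ_pos n)]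
    apply Real.rpow_le_one_of_one_le_of_nonpos
    · exact_mod_cast Nat.succ_le_succ (Nat.zero_le n)
    · simpa using hs
  calc ‖P n‖ * ‖((n : ℂ) + 1) ^ (-s)‖ ≤ ‖P n‖ * 1 :=
        mul_le_mul_of_nonneg_left h2 (norm_nonneg _)
    _ = ‖P n‖ := mul_one _

theorem hump_step (hLOW : S_LOW) (p : ℝ) (hp : 0 < p) (hp2 : p < 2) (g : ℝ → ℝ)
    (hg : ¬ ((fun δ : ℝ => Real.log (1 / δ) ^ (1 / 3 : ℝ)) =O[𝓝[>] 0] g))
    (k : ℕ) (x : ℝ × ℝ) :
    ∃ (c d : ℝ) (P : ℕ →₀ ℂ), 0 < c ∧ c ≤ (1 / 2) ^ (k + 1) * (1 / 2 : ℝ) ^ (k / p) ∧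
      c * x.2 ≤ (1 / 2) ^ k ∧ 0 < d ∧ d ≤ 1 / (k + 1) ∧ Np p P ≤ 1 ∧
      k * |g d| + Real.log ((x.1 + 2) / c) < nev (dp P) 0 1 (1 / 2 + d) := by
  obtain ⟨c0, hc0, δ0, hδ0, hL⟩ := hLOW p hp hp2
  set c : ℝ := min ((1 / 2) ^ (k + 1) * (1 / 2 : ℝ) ^ (k / p)) ((1 / 2) ^ k / (1 + |x.2|)) with hc
  have hcpos : 0 < c := by
    apply lt_min
    · positivity
    · positivity
  have hcx : c * x.2 ≤ (1 / 2) ^ k := by
    have h1 : c ≤ (1 / 2) ^ k / (1 + |x.2|) := min_le_right _ _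
    have h2 : (0 : ℝ) < 1 + |x.2| := by positivity
    rw [le_div_iff₀ h2] at h1
    have h3 : x.2 ≤ 1 + |x.2| := by have := le_abs_self x.2; linarith
    exact (mul_le_mul_of_nonneg_left h3 hcpos.le).trans h1
  have hfr : ∃ᶠ δ in 𝓝[>] (0 : ℝ),
      ¬ (‖Real.log (1 / δ) ^ (1 / 3 : ℝ)‖ ≤ (2 * k / c0) * ‖g δ‖) := by
    rw [← Filter.not_eventually]
    intro h
    exact hg (IsBigO.of_bound _ h)
  have he1 : ∀ᶠ δ in 𝓝[>] (0 : ℝ),
      max 0 (2 / c0 * Real.log ((x.1 + 2) / c)) ≤ Real.log (1 / δ) ^ (1 / 3 : ℝ) :=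
    hump_tend.eventually_ge_atTop _
  have he2 : ∀ᶠ δ in 𝓝[>] (0 : ℝ), δ ∈ Set.Ioo (0 : ℝ) (min δ0 (1 / (k + 1))) :=
    Ioo_mem_nhdsGT (lt_min hδ0 (by positivity))
  obtain ⟨d, hd1, hd2, hd3⟩ := (hfr.and_eventually (he1.and he2)).exists
  obtain ⟨P, hP1, hP2⟩ := hL d hd3.1 (hd3.2.trans_le (min_le_left _ _))
  refine ⟨c, d, P, hcpos, min_le_left _ _, hcx, hd3.1, (hd3.2.trans_le (min_le_right _ _)).le,
    hP1, lt_of_lt_of_le ?_ hP2⟩
  set L : ℝ := Real.log (1 / d) ^ (1 / 3 : ℝ) with hLdef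
  have hL0 : 0 ≤ L := (le_max_left _ _).trans hd2
  have hL1 : 2 / c0 * Real.log ((x.1 + 2) / c) ≤ L := (le_max_right _ _).trans hd2
  rw [not_le, Real.norm_eq_abs, Real.norm_eq_abs, abs_of_nonneg hL0] at hd1
  have e1 : (k : ℝ) * |g d| = c0 / 2 * (2 * k / c0 * |g d|) := by field_simp
  have e2 : Real.log ((x.1 + 2) / c) = c0 / 2 * (2 / c0 * Real.log ((x.1 + 2) / c)) := by
    field_simp
  have h2 : (0 : ℝ) < c0 / 2 := by positivity
  have f1 := mul_lt_mul_of_pos_left hd1 h2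
  have f2 := mul_le_mul_of_nonneg_left hL1 h2.le
  rw [← e1] at f1
  rw [← e2] at f2
  linarith

theorem p_HUMP (hLOW : S_LOW) (hPT : S_PT) :
    S_HUMP := by
  intro p hp hp2 g hg
  choose c d P h1 h2 h3 h4 h5 h6 h7 using hump_step hLOW p hp hp2 g hg
  have hC : ∀ δ : ℝ, ∃ C : ℝ, 0 < C ∧ (0 < δ → ∀ (Q : ℕ →₀ ℂ) (s : ℂ),
      1 / 2 + δ ≤ s.re → Np p Q ≤ 1 → ‖dp Q s‖ ≤ C) := by
    intro δ
    by_cases hδ : 0 < δ
    · obtain ⟨C, hC0, hC1⟩ := hPT p δ 1 hp hδ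
      exact ⟨C, hC0, fun _ => hC1⟩
    · exact ⟨1, one_pos, fun h => absurd h hδ⟩
  choose C hC0 hC1 using hC
  let st : ℕ → ℝ × ℝ := fun k => Nat.rec ((0 : ℝ), (0 : ℝ))
    (fun k x => (x.1 + c k x * ∑ n ∈ (P k x).support, ‖P k x n‖, x.2 + C (d k x))) k
  have st0 : st 0 = (0, 0) := rfl
  have stS : ∀ k, st (k + 1) = ((st k).1 + c k (st k) * ∑ n ∈ (P k (st k)).support,
      ‖P k (st k) n‖, (st k).2 + C (d k (st k))) := fun k => rfl
  have hS : ∀ k, 0 ≤ (st k).2 ∧ ∀ j < k, C (d j (st j)) ≤ (st k).2 := by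
    intro k
    induction k with
    | zero => exact ⟨by rw [st0], fun j hj => absurd hj (Nat.not_lt_zero j)⟩
    | succ k ih =>
      rw [stS]
      have := hC0 (d k (st k))
      refine ⟨by dsimp only; linarith [ih.1], fun j hj => ?_⟩
      dsimp only
      rcases Nat.lt_succ_iff_lt_or_eq.mp hj with hj | hj
      · linarith [ih.2 j hj]
      · subst hj
        linarith [ih.1]
  refine ⟨fun k => P k (st k), fun k => c k (st k), fun k => d k (st k), fun k => (st k).1,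
    fun k => h6 k _, fun k => ⟨h1 k _, h2 k _⟩, fun k => ⟨h4 k _, h5 k _⟩, ?_, ?_,
    fun k => h7 k _⟩
  · intro k s hs
    beta_reduce
    induction k with
    | zero => simp [st0]
    | succ k ih =>
      rw [Finset.sum_range_succ, stS]
      refine (norm_add_le _ _).trans (add_le_add ih ?_)
      rw [norm_mul, Complex.norm_real, Real.norm_eq_abs, abs_of_pos (h1 k _)]
      exact mul_le_mul_of_nonneg_left (hump_dp _ s hs) (h1 k _).le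
  · intro j k hjk t
    have a1 := hC1 (d j (st j)) (h4 j _) (P k (st k))
      (((1 / 2 + d j (st j) : ℝ) : ℂ) + t * I) (by simp) (h6 k _)
    have a2 := (hS k).2 j hjk
    exact (mul_le_mul_of_nonneg_left (a1.trans a2) (h1 k _).le).trans (h3 k _)

end Pool.Agent.P.MP_d14b1f_an.Nv
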