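import Pool.Agent.P.MP_d14b1f_an.Nv.IfaceU

/-! Step INT. -/

set_option autoImplicit false

namespace Pool.Agent.P.MP_d14b1f_an.Nv

open Complex Filter Finset MeasureTheory Function Topology Asymptotics

theorem p_INT :
    S_INT := by
  intro δ t0 t h0 h1 h2 h3
  have hc : Continuous fun v : ℝ => 1 / max |v| δ :=
    continuous_const.div (by fun_prop) fun v => (lt_of_lt_of_le h0 (le_max_right _ _)).ne'
  have hp : ∀ v : ℝ, 0 ≤ 1 / max |v| δ := fun v => by positivity
  have a1 : ∫ v in (0 : ℝ)..1, 1 / max |v| δ = 1 + Real.log (1 / δ) := by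
    rw [← intervalIntegral.integral_add_adjacent_intervals (b := δ) (hc.intervalIntegrable _ _)
      (hc.intervalIntegrable _ _)]
    congr 1
    · rw [intervalIntegral.integral_congr (g := fun _ => 1 / δ) fun v hv => ?_]
      · simp [h0.ne']
      · rw [Set.uIcc_of_le h0.le] at hv
        simp only [abs_of_nonneg hv.1, max_eq_right hv.2]
    · rw [intervalIntegral.integral_congr (g := fun v => 1 / v) fun v hv => ?_]
      · exact integral_one_div_of_pos h0 one_pos
      · rw [Set.uIcc_of_le (by linarith)] at hv
        simp only [abs_of_nonneg (h0.le.trans hv.1), max_eq_left hv.1]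
  have a2 : ∫ v in (-1 : ℝ)..0, 1 / max |v| δ = 1 + Real.log (1 / δ) := by
    rw [← a1]
    have := intervalIntegral.integral_comp_neg (a := 0) (b := 1) fun v : ℝ => 1 / max |v| δ
    simp only [abs_neg, neg_zero] at this
    exact this.symm
  have a3 := intervalIntegral.integral_add_adjacent_intervals (μ := volume) (a := -1) (b := 0)
    (c := 1) (hc.intervalIntegrable _ _) (hc.intervalIntegrable _ _)
  rw [intervalIntegral.integral_comp_sub_left (fun v : ℝ => 1 / max |v| δ) t]
  have a4 := intervalIntegral.integral_mono_interval (μ := volume) (f := fun v : ℝ => 1 / max |v| δ)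
    (c := -1) (d := 1) (a := t - (t0 + 1)) (b := t - t0) (by linarith) (by linarith) (by linarith)
    (Eventually.of_forall hp) (hc.intervalIntegrable _ _)
  linarith

end Pool.Agent.P.MP_d14b1f_an.Nv
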