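import Pool.Agent.P.MP_d14b1f_an.Nv.IfaceU

/-! Step JEN. -/

set_option autoImplicit false

namespace Pool.Agent.P.MP_d14b1f_an.Nv

open Complex Filter Finset MeasureTheory Function Topology Asymptotics

theorem jen_an {z : ℕ → ℂ} (hz : ∀ j, ‖z j‖ < 1) (P : ℕ →₀ ℂ) (w : Om) :
    AnalyticOnNhd ℂ (fun l : ℂ => lift P (fun j => mob (-z j) (l * (w j : ℂ))))
      (Metric.closedBall 0 1) := by
  intro l hl
  have hl' : ‖l‖ ≤ 1 := by simpa using hl
  have key : ∀ j, AnalyticAt ℂ (fun l : ℂ => mob (-z j) (l * (w j : ℂ))) l := by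
    intro j
    unfold mob
    refine AnalyticAt.div (by fun_prop) (by fun_prop) ?_
    exact den_ne (by simpa using hz j) (by simpa using hl')
  unfold lift mon
  refine Finset.analyticAt_fun_sum _ fun n _ => AnalyticAt.mul analyticAt_const ?_
  unfold Finsupp.prod
  exact Finset.analyticAt_fun_prod _ fun q _ => (key q).pow _

theorem p_JEN (hMOB : S_MOB) (hSUB : S_SUB) :
    S_JEN := by
  intro N z hz P h hh h0 hrot
  have hz1 : ∀ j, ‖z j‖ < 1 := hz.lt
  have hz2 : ∀ j, ‖(-z) j‖ < 1 := fun j => by simpa using hz1 j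
  have cb : Continuous fun w : Om => bet (-z) w :=
    cont_bet continuous_const continuous_id fun _ j => hz2 j
  have cL : Continuous fun w : Om => lp ‖lift P (cz (bet (-z) w))‖ := by fun_prop
  have cF : Continuous fun w : Om => h w * lp ‖lift P (cz (bet (-z) w))‖ := hh.mul cL
  have e1 := hMOB N z hz _ cF
  have e2 : ∀ w : Om, bet (-z) (bet z w) = w := fun w => funext fun j => mobC_neg_mobC (hz1 j) _
  have e3 : (E fun w => h (bet z w) * rho N z w * lp ‖lift P (cz w)‖) =
      E fun w => h w * lp ‖lift P (cz (bet (-z) w))‖ := by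
    rw [← e1]
    refine E_congr fun w => ?_
    simp only [e2]
    ring
  have cv : Continuous fun u : Circle => (fun _ => u : Om) := by fun_prop
  rw [e3, E_av cF cv, mul_comm, ← E_mul]
  refine E_mono (by fun_prop) (cont_av (cF.comp ((cv.comp continuous_snd).mul continuous_fst))) ?_
  intro w
  have e4 : (av fun u : Circle => h ((fun _ => u : Om) * w) *
      lp ‖lift P (cz (bet (-z) ((fun _ => u : Om) * w)))‖) =
      h w * av fun u : Circle => lp ‖lift P (fun j => mob (-z j) ((u : ℂ) * (w j : ℂ)))‖ := by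
    rw [← av_mul]
    refine av_congr fun u => ?_
    have a1 : h ((fun _ => u : Om) * w) = h w := hrot u w
    have a2 : cz (bet (-z) ((fun _ => u : Om) * w)) = fun j => mob (-z j) ((u : ℂ) * (w j : ℂ)) := by
      funext j
      simp only [cz, bet]
      rw [coe_mobC (hz2 j)]
      simp
    rw [a1, a2]
  rw [e4, mul_comm]
  refine mul_le_mul_of_nonneg_left ?_ (h0 w)
  have s := hSUB _ (jen_an hz1 P w)
  have a3 : (fun j => mob (-z j) (0 * (w j : ℂ))) = z := by
    funext j
    simp [mob]
  simpa only [a3] using s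

end Pool.Agent.P.MP_d14b1f_an.Nv
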