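import Pool.Agent.P.MP_d14b1f_an.Nv.IfaceU

/-! Step KW1. -/

set_option autoImplicit false

namespace Pool.Agent.P.MP_d14b1f_an.Nv

open Complex Filter Finset MeasureTheory Function Topology Asymptotics

theorem kw1_pow {a : ℕ} (ha : a ≠ 0) (t : ℝ) :
    (a : ℂ) ^ (-(t * I)) = cexp (((-(t * Real.log a) : ℝ) : ℂ) * I) := by
  rw [cpow_def_of_ne_zero (Nat.cast_ne_zero.2 ha), ← natCast_log]
  congr 1
  push_cast
  ring

theorem kw1_ker {a b : ℕ} (ha : a ≠ 0) (hb : b ≠ 0) (t : ℝ) :
    (a : ℂ) ^ (-(t * I)) * (starRingEnd ℂ) ((b : ℂ) ^ (-(t * I))) =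
      cexp ((((Real.log b - Real.log a : ℝ) : ℂ) * I) * t) := by
  rw [kw1_pow ha, kw1_pow hb, ← exp_conj, ← Complex.exp_add]
  congr 1
  simp only [map_mul, conj_ofReal, conj_I]
  push_cast
  ring

theorem kw1_norm (w : Om) (a : ℕ) : ‖mon (cz w) a‖ = 1 := by
  simp [mon, Finsupp.prod, norm_prod, norm_cz]

theorem kw1_mul (v w : Om) (a : ℕ) : mon (cz (v * w)) a = mon (cz v) a * mon (cz w) a := by
  simp only [mon, Finsupp.prod, cz_mul, mul_pow, Finset.prod_mul_distrib]
  rfl

theorem kw1_line (t : ℝ) {a : ℕ} (ha : a ≠ 0) :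
    mon (cz fun j => Circle.exp (-(t * Real.log j))) a = (a : ℂ) ^ (-(t * I)) := by
  rw [← mon_cpow (t * I) ha]
  refine mon_congr fun q hq _ => ?_
  rw [kw1_pow hq.ne_zero]
  rfl

theorem p_KW1 :
    S_KW1 := by
  intro a b c ha hb
  simp only [kw1_ker ha hb]
  by_cases hab : a = b
  · subst hab
    have h1 : (E fun w => (c * (mon (cz w) a * (starRingEnd ℂ) (mon (cz w) a))).re) = c.re := by
      rw [← E_const c.re]
      refine E_congr fun w => ?_
      rw [mul_conj, normSq_eq_norm_sq, kw1_norm]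
      simp
    rw [h1]
    refine tendsto_const_nhds.congr' ?_
    filter_upwards [eventually_gt_atTop (0 : ℝ)] with T hT
    simp only [sub_self, ofReal_zero, zero_mul, Complex.exp_zero, mul_one,
      intervalIntegral.integral_const, smul_eq_mul]
    field_simp
    ring
  · set lam : ℝ := Real.log b - Real.log a with hlam
    have hl : lam ≠ 0 := by
      intro h
      apply hab
      have h2 : Real.log a = Real.log b := by linarith
      have := Real.log_injOn_pos (Set.mem_Ioi.2 (by positivity : (0 : ℝ) < a))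
        (Set.mem_Ioi.2 (by positivity : (0 : ℝ) < b)) h2
      exact_mod_cast this
    have h1 : (E fun w => (c * (mon (cz w) a * (starRingEnd ℂ) (mon (cz w) b))).re) = 0 := by
      have h2 := E_shift (fun j => Circle.exp (-((Real.pi / lam) * Real.log j)))
        (fun w => (c * (mon (cz w) a * (starRingEnd ℂ) (mon (cz w) b))).re)
      have h3 : (a : ℂ) ^ (-(((Real.pi / lam : ℝ) : ℂ) * I)) *
          (starRingEnd ℂ) ((b : ℂ) ^ (-(((Real.pi / lam : ℝ) : ℂ) * I))) = -1 := by
        rw [kw1_ker ha hb, ← exp_pi_mul_I]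
        congr 1
        have : (lam : ℂ) ≠ 0 := ofReal_ne_zero.2 hl
        rw [← hlam]
        push_cast
        field_simp
      have h4 : (E fun w => (c * (mon (cz ((fun j : ℕ => Circle.exp (-((Real.pi / lam) * Real.log j))) * w)) a *
          (starRingEnd ℂ) (mon (cz ((fun j : ℕ => Circle.exp (-((Real.pi / lam) * Real.log j))) * w)) b))).re) =
          (-1) * E fun w => (c * (mon (cz w) a * (starRingEnd ℂ) (mon (cz w) b))).re := by
        rw [← E_mul]
        refine E_congr fun w => ?_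
        rw [kw1_mul, kw1_mul, kw1_line _ ha, kw1_line _ hb, map_mul, mul_mul_mul_comm, h3]
        simp
      rw [h4] at h2
      linarith
    rw [h1]
    have hc : ((lam : ℂ) * I) ≠ 0 := mul_ne_zero (ofReal_ne_zero.2 hl) I_ne_zero
    have hb2 : ∀ T : ℝ, |∫ t in (-T)..T, (c * cexp ((lam : ℂ) * I * t)).re| ≤ ‖c‖ * (2 / |lam|) := by
      intro T
      have hi : IntervalIntegrable (fun t : ℝ => c * cexp ((lam : ℂ) * I * t)) volume (-T) T :=
        Continuous.intervalIntegrable (by fun_prop) _ _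
      have h5 : ∫ t in (-T)..T, (c * cexp ((lam : ℂ) * I * t)).re =
          (∫ t in (-T)..T, c * cexp ((lam : ℂ) * I * t)).re :=
        (reCLM.intervalIntegral_comp_comm hi)
      rw [h5, intervalIntegral.integral_const_mul, integral_exp_mul_complex hc]
      refine (abs_re_le_norm _).trans ?_
      rw [norm_mul, norm_div]
      have h6 : ∀ x : ℝ, ‖cexp ((lam : ℂ) * I * x)‖ = 1 := fun x => by
        rw [show (lam : ℂ) * I * x = ((lam * x : ℝ) : ℂ) * I by push_cast; ring, norm_exp_ofReal_mul_I]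
      have h7 : ‖(lam : ℂ) * I‖ = |lam| := by simp
      rw [h7]
      gcongr
      refine (norm_sub_le _ _).trans ?_
      rw [h6, h6]
      norm_num
    have h8 : Tendsto (fun T : ℝ => 1 / (2 * T)) atTop (𝓝 0) :=
      tendsto_const_nhds.div_atTop (tendsto_id.const_mul_atTop two_pos)
    refine squeeze_zero_norm (fun T => ?_)
      (by simpa using h8.norm.mul_const (‖c‖ * (2 / |lam|)))
    rw [norm_mul]
    simpa using mul_le_mul_of_nonneg_left (hb2 T) (norm_nonneg (1 / (2 * T)))

end Pool.Agent.P.MP_d14b1f_an.Nv
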