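import Pool.Agent.P.MP_d14b1f_an.Nv.IfaceL

/-! Step LAM. -/

set_option autoImplicit false

namespace Pool.Agent.P.MP_d14b1f_an.Nv

open Complex Filter Finset MeasureTheory Function Topology Asymptotics

theorem p_LAM (hPATH : S_PATH) (hGG : S_GG) (hTREE : S_TREE) :
    S_LAM := by
  intro p hp hp2
  set η : ℝ := (2 - p) / 4 with hη
  have hη0 : 0 < η := by rw [hη]; linarith
  have hη1 : η ≤ 1 / 2 := by rw [hη]; linarith
  obtain ⟨c, hc, β0, hβ⟩ := hPATH η hη0
  refine ⟨c / 2, by positivity, max (max β0 1) ⌈384 * Real.exp 22 / c ^ 4⌉₊, fun β hb => ?_⟩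
  have hb0 : β0 ≤ β := le_trans (le_trans (le_max_left _ _) (le_max_left _ _)) hb
  have hb1 : 1 ≤ β := le_trans (le_trans (le_max_right _ _) (le_max_left _ _)) hb
  have hb2 : 384 * Real.exp 22 / c ^ 4 ≤ β := Nat.ceil_le.mp (le_trans (le_max_right _ _) hb)
  have hP := hβ β hb0
  set n := β ^ 3 with hn
  have hn1 : 1 ≤ n := Nat.one_le_pow _ _ hb1
  obtain ⟨_, hA1, hY⟩ := hTREE n hn1
  set F : Om → ℝ := fun w => Real.exp (2 * TX n η (cz w)) * YY n (cz w) ^ (-2 * η) with hF
  have cF : Continuous F := by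
    refine Continuous.mul (by fun_prop) (Continuous.rpow_const (by fun_prop) fun w => Or.inl ?_)
    exact (lt_of_lt_of_le one_pos (one_le_YY _ _)).ne'
  have cA : Continuous fun w => AA n w ^ (-(2 - p) / p) :=
    Continuous.rpow_const (by fun_prop) fun w => Or.inl (lt_of_lt_of_le one_pos (hA1 w)).ne'
  have cs : ∀ ν : ℕ, Continuous fun w : Om => Real.exp 22 * F (tw n (nod n n ν) * w) := fun ν =>
    continuous_const.mul (cF.comp (by fun_prop))
  have h1 : E (fun w => (∑ ν ∈ range (n * 2 ^ n),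
      ‖GG n η (cz (tw n (nod n n ν) * w))‖ ^ 2) * AA n w ^ (-(2 - p) / p)) ≤
      E (fun w => ∑ ν ∈ range (n * 2 ^ n), Real.exp 22 * F (tw n (nod n n ν) * w)) := by
    refine E_mono (Continuous.mul (by fun_prop) cA) (continuous_finsetSum _ fun ν _ => cs ν)
      fun w => ?_
    rw [sum_mul]
    refine sum_le_sum fun ν hν => ?_
    have g := (hGG n η (cz (tw n (nod n n ν) * w)) hη0.le hη1 fun j => (norm_cz _ j).le).2
    have g2 : ‖GG n η (cz (tw n (nod n n ν) * w))‖ ^ 2 ≤
        Real.exp 22 * Real.exp (2 * TX n η (cz (tw n (nod n n ν) * w))) := by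
      refine (pow_le_pow_left₀ (norm_nonneg _) g 2).trans (le_of_eq ?_)
      rw [← Real.exp_nat_mul, ← Real.exp_add]
      congr 1; push_cast; ring
    have a1 : AA n w ^ (-(2 - p) / p) ≤ AA n w ^ (-2 * η) := by
      refine Real.rpow_le_rpow_of_exponent_le (hA1 w) ?_
      rw [hη, div_le_iff₀ hp]
      nlinarith
    have a2 : AA n w ^ (-2 * η) ≤ YY n (cz (tw n (nod n n ν) * w)) ^ (-2 * η) :=
      Real.rpow_le_rpow_of_nonpos (lt_of_lt_of_le one_pos (one_le_YY _ _))
        (hY ν (mem_range.mp hν) w) (by linarith)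
    have a0 : 0 ≤ AA n w ^ (-(2 - p) / p) := Real.rpow_nonneg (by linarith [hA1 w]) _
    calc _ ≤ (Real.exp 22 * Real.exp (2 * TX n η (cz (tw n (nod n n ν) * w)))) *
          YY n (cz (tw n (nod n n ν) * w)) ^ (-2 * η) :=
        mul_le_mul g2 (a1.trans a2) a0 (by positivity)
      _ = _ := by simp only [hF]; ring
  refine h1.trans ?_
  rw [E_sum _ fun ν _ => cs ν]
  have h2 : ∀ ν : ℕ, E (fun w => Real.exp 22 * F (tw n (nod n n ν) * w)) = Real.exp 22 * E F :=
    fun ν => by rw [E_mul, E_shift]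
  simp only [h2, sum_const, card_range, nsmul_eq_mul]
  have hβp : (0 : ℝ) < β := by exact_mod_cast hb1
  have h3 : (n : ℝ) * Real.exp 22 ≤ Real.exp (c / 2 * β) := by
    refine le_trans ?_ (Real.pow_div_factorial_le_exp (c / 2 * β) (by positivity) 4)
    rw [div_le_iff₀ (by positivity)] at hb2
    have e4 : (c / 2 * β) ^ 4 / (Nat.factorial 4 : ℕ) = (β : ℝ) ^ 3 * (β * c ^ 4 / 384) := by
      norm_num [Nat.factorial]; ring
    rw [e4, hn]
    push_cast
    exact mul_le_mul_of_nonneg_left (by linarith) (by positivity)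
  have h4 : Real.exp (n * Real.log 2) = 2 ^ n := by
    rw [Real.exp_nat_mul, Real.exp_log two_pos]
  calc ((n * 2 ^ n : ℕ) : ℝ) * (Real.exp 22 * E F)
      ≤ ((n * 2 ^ n : ℕ) : ℝ) *
        (Real.exp 22 * Real.exp (2 * TB n η - n * Real.log 2 - c * β)) := by gcongr
    _ = (n * Real.exp 22) * (Real.exp (n * Real.log 2) *
        Real.exp (2 * TB n η - n * Real.log 2 - c * β)) := by rw [h4]; push_cast; ring
    _ ≤ Real.exp (c / 2 * β) * (Real.exp (n * Real.log 2) *
        Real.exp (2 * TB n η - n * Real.log 2 - c * β)) := by gcongr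
    _ = _ := by rw [← Real.exp_add, ← Real.exp_add]; congr 1; ring

end Pool.Agent.P.MP_d14b1f_an.Nv
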