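import Pool.Agent.P.MP_d14b1f_an.Nv.IfaceL

/-! Step LOW. -/

set_option autoImplicit false

namespace Pool.Agent.P.MP_d14b1f_an.Nv

open Complex Filter Finset MeasureTheory Function Topology Asymptotics

theorem p_LOW (hLOWA : S_LOWA) :
    S_LOW := by
  intro p hp hp2
  obtain ⟨c, hc, β0, h⟩ := hLOWA p hp hp2
  refine ⟨c / 2, by positivity, Real.exp (-((β0 : ℝ) + 2) ^ 3), Real.exp_pos _, fun δ hδ hδ0 => ?_⟩
  set L := Real.log (1 / δ) with hL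
  have hL1 : ((β0 : ℝ) + 2) ^ 3 ≤ L := by
    rw [hL, one_div, Real.log_inv, le_neg]
    exact ((Real.log_lt_iff_lt_exp hδ).mpr hδ0).le
  have hL0 : 0 ≤ L := le_trans (by positivity) hL1
  set x := L ^ (1 / 3 : ℝ) with hx
  have hx0 : 0 ≤ x := Real.rpow_nonneg hL0 _
  have hx3 : x ^ 3 = L := by
    rw [hx, ← Real.rpow_natCast, ← Real.rpow_mul hL0]; norm_num
  have hx1 : (β0 : ℝ) + 2 ≤ x := by
    refine le_of_not_gt fun hlt => ?_
    have := pow_lt_pow_left₀ hlt hx0 (n := 3) (by norm_num)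
    linarith
  have hf1 : (⌊x⌋₊ : ℝ) ≤ x := Nat.floor_le hx0
  have hf2 : x < ⌊x⌋₊ + 1 := Nat.lt_floor_add_one x
  have hb0 : (0 : ℝ) ≤ β0 := Nat.cast_nonneg _
  obtain ⟨P, hP, hn⟩ := h ⌊x⌋₊ (Nat.le_floor (by linarith)) δ hδ (by
    have e1 : (2 : ℝ) ^ ⌊x⌋₊ ^ 3 ≤ Real.exp L := by
      calc (2 : ℝ) ^ ⌊x⌋₊ ^ 3 ≤ Real.exp 1 ^ ⌊x⌋₊ ^ 3 :=
            pow_le_pow_left₀ (by norm_num) (by linarith [Real.add_one_le_exp (1 : ℝ)]) _
        _ = Real.exp ((⌊x⌋₊ : ℝ) ^ 3) := by rw [← Real.exp_nat_mul]; congr 1; push_cast; ring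
        _ ≤ Real.exp L := by
            rw [← hx3]
            exact Real.exp_le_exp.mpr (pow_le_pow_left₀ (Nat.cast_nonneg _) hf1 3)
    rw [hL, Real.exp_log (by positivity), le_div_iff₀ hδ] at e1
    exact e1)
  refine ⟨P, hP, le_trans ?_ hn⟩
  nlinarith

end Pool.Agent.P.MP_d14b1f_an.Nv
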