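import Pool.Agent.P.MP_d14b1f_an.Nv.IfaceL

/-! Step LOWA. -/

set_option autoImplicit false

namespace Pool.Agent.P.MP_d14b1f_an.Nv

open Complex Filter Finset MeasureTheory Function Topology Asymptotics

theorem lowa_congr {F G : (ℕ → ℂ) → ℂ} (hF : IsDP F) (h : ∀ ζ, F ζ = G ζ) : IsDP G := by
  rwa [← funext h]

theorem lowa_GG (n : ℕ) (η : ℝ) (t : ℕ → ℂ) : IsDP fun ζ => GG n η fun j => t j * ζ j := by
  unfold GG
  refine IsDP.prod _ fun i _ => IsDP.prod _ fun j hj => ?_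
  have hq := (mem_Lv.1 hj).1
  refine lowa_congr (((IsDP.const 1).add (IsDP.coord hq (((th n η i * rr j : ℝ) : ℂ) * t j))).add
    ((IsDP.coord hq (((th n η i * rr j : ℝ) : ℂ) * t j)).mul
      (IsDP.coord hq (((th n η i * rr j : ℝ) : ℂ) * t j / 2)))) fun ζ => ?_
  ring

theorem lowa_ne {σ : ℝ} (hσ : 0 < σ) (u : ℝ) : -((σ : ℂ) + u * I) ≠ 0 := by
  intro h
  have := congrArg Complex.re h
  simp at this
  linarith

theorem lowa_norm {σ : ℝ} (hσ : 0 < σ) (u : ℝ) (j : ℕ) : ‖(j : ℂ) ^ (-((σ : ℂ) + u * I))‖ ≤ 1 := by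
  rcases Nat.eq_zero_or_pos j with rfl | hj
  · rw [Nat.cast_zero, Complex.zero_cpow (lowa_ne hσ u)]; simp
  · rw [Complex.norm_natCast_cpow_of_pos hj]
    refine Real.rpow_le_one_of_one_le_of_nonpos (by exact_mod_cast hj) ?_
    simp
    linarith

theorem lowa_num (p c : ℝ) (hp : 0 < p) (hc : 0 < c) : ∃ β1 : ℕ, ∀ β : ℕ, β1 ≤ β → 1 ≤ β →
    c / 8 * β ≤ (-411 + c * β / 2 -
      Real.log (1 + (((β ^ 3 : ℕ) : ℝ) + 1) * ((β ^ 3 : ℕ) : ℝ) * Real.exp 31) / p) / 2 - 1 / p := by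
  have hε : 0 < p * c / 48 := by positivity
  obtain ⟨β1, h1⟩ := exists_nat_ge (16 * (206 + (18 - 3 * Real.log (p * c / 48)) / p) / c)
  refine ⟨β1, fun β hβ hβ1 => ?_⟩
  have hb : (1 : ℝ) ≤ β := by exact_mod_cast hβ1
  have hb1 : (β1 : ℝ) ≤ β := by exact_mod_cast hβ
  have h2 : 16 * (206 + (18 - 3 * Real.log (p * c / 48)) / p) ≤ c * β := by
    have := h1.trans hb1
    rwa [div_le_iff₀ hc, mul_comm (β : ℝ)] at this
  have h3 : Real.log β ≤ p * c / 48 * β - Real.log (p * c / 48) := by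
    have := Real.log_le_sub_one_of_pos (show 0 < p * c / 48 * β by positivity)
    rw [Real.log_mul hε.ne' (by positivity)] at this
    linarith
  have hn : (1 : ℝ) ≤ (β : ℝ) ^ 3 := one_le_pow₀ hb
  have he : 1 ≤ Real.exp 31 := Real.one_le_exp (by norm_num)
  have h4 : Real.log (1 + (((β ^ 3 : ℕ) : ℝ) + 1) * ((β ^ 3 : ℕ) : ℝ) * Real.exp 31) ≤
      33 + 6 * Real.log β := by
    have e : (33 : ℝ) + 6 * Real.log β = Real.log (Real.exp 2 * Real.exp 31 * (β : ℝ) ^ 6) := by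
      rw [Real.log_mul (by positivity) (by positivity), Real.log_mul (by positivity) (by positivity),
        Real.log_exp, Real.log_exp, Real.log_pow]
      push_cast; ring
    rw [e]
    refine Real.log_le_log (by positivity) ?_
    have h5 : (3 : ℝ) ≤ Real.exp 2 := by linarith [Real.add_one_le_exp 2]
    push_cast
    have h6 : (β : ℝ) ^ 6 = (β : ℝ) ^ 3 * (β : ℝ) ^ 3 := by ring
    rw [h6]
    generalize (β : ℝ) ^ 3 = x at hn
    have h7 : 1 + (x + 1) * x * Real.exp 31 ≤ 3 * Real.exp 31 * (x * x) := by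
      have h8 : 1 ≤ x * x := by nlinarith
      have h9 : (x + 1) * x ≤ 2 * (x * x) := by nlinarith
      nlinarith
    refine h7.trans ?_
    gcongr
  have h5 : Real.log (1 + (((β ^ 3 : ℕ) : ℝ) + 1) * ((β ^ 3 : ℕ) : ℝ) * Real.exp 31) / p ≤
      (33 - 6 * Real.log (p * c / 48)) / p + c * β / 8 := by
    rw [div_le_iff₀ hp, add_mul _ _ p, div_mul_cancel₀ _ hp.ne']
    linarith
  have h6 : (33 - 6 * Real.log (p * c / 48)) / p / 2 + 1 / p ≤
      (18 - 3 * Real.log (p * c / 48)) / p := by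
    have : (18 - 3 * Real.log (p * c / 48)) / p -
        ((33 - 6 * Real.log (p * c / 48)) / p / 2 + 1 / p) = 1 / (2 * p) := by
      field_simp; ring
    have h7 : 0 < 1 / (2 * p) := by positivity
    linarith
  linarith

theorem p_LOWA (hLAM : S_LAM) (hGG : S_GG) (hTREE : S_TREE) (hEVAL : S_EVAL) (hSGA : S_SGA) (hSGN : S_SGN) :
    S_LOWA := by
  intro p hp hp2
  obtain ⟨c, hc, β0, hlam⟩ := hLAM p hp hp2
  obtain ⟨β1, hnum⟩ := lowa_num p c hp hc
  refine ⟨c / 8, by positivity, max (max β0 β1) 1, fun β hβ δ hδ hδ1 => ?_⟩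
  have hβ0 : β0 ≤ β := by omega
  have hβ1 : β1 ≤ β := by omega
  have hβ2 : 1 ≤ β := by omega
  have h1 := hlam β hβ0
  have h2 := hnum β hβ1 hβ2
  have hn : 1 ≤ β ^ 3 := Nat.one_le_pow _ _ hβ2
  generalize β ^ 3 = n at *
  have hη0 : 0 ≤ (2 - p) / 4 := by linarith
  have hη1 : (2 - p) / 4 ≤ 1 / 2 := by linarith
  generalize (2 - p) / 4 = η at *
  obtain ⟨hA, hA1, -⟩ := hTREE n hn
  have hσ : 0 < 1 / 2 + δ := by linarith
  have hg : ∀ ν, Continuous fun w : Om => GG n η (cz (tw n (nod n n ν) * w)) := fun ν => by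
    fun_prop
  have h3 := hSGA p _ (n * 2 ^ n) (fun ν w => GG n η (cz (tw n (nod n n ν) * w))) (AA n) hp hp2
    hg (cont_AA n) (fun w => lt_of_lt_of_le one_pos (hA1 w)) (Real.exp_pos _) h1
  have hQ : 0 < 1 + ((n : ℝ) + 1) * n * Real.exp 31 := by positivity
  obtain ⟨a, ha1, ha2⟩ := hSGN p
    (Real.exp (TB n η - c * β / 2 + Real.log (1 + ((n : ℝ) + 1) * n * Real.exp 31) / p))
    (TB n η - 411) (n * 2 ^ n) (fun ν w => GG n η (cz (tw n (nod n n ν) * w)))
    (fun ν u => GG n η fun j =>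
      (tw n (nod n n ν) j : ℂ) * (j : ℂ) ^ (-(((1 / 2 + δ : ℝ) : ℂ) + u * I))) hp hg
    (fun ν => (cont_GG n η).comp (continuous_pi fun j => continuous_const.mul
      (Continuous.const_cpow (by fun_prop) (Or.inr fun u => lowa_ne hσ u))))
    (Real.exp_pos _) (h3.trans (by
      rw [← Real.exp_mul, ← Real.exp_mul, add_mul, div_mul_cancel₀ _ hp.ne', Real.exp_add,
        Real.exp_log hQ, show (2 * TB n η - c * β) * (p / 2) = (TB n η - c * β / 2) * p by ring]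
      exact mul_le_mul_of_nonneg_left (by linarith) (Real.exp_pos _).le))
    (fun u hu0 hu1 => by
      obtain ⟨ν, hν, h4⟩ := hEVAL n η δ u hn hη0 hη1 hδ hδ1 hu0 hu1
      refine ⟨ν, hν, le_trans (Real.exp_le_exp.2 (by linarith)) (hGG n η _ hη0 hη1 fun j => ?_).1⟩
      rw [norm_mul, Circle.norm_coe, one_mul]
      exact lowa_norm hσ u j)
  obtain ⟨P, hP⟩ := IsDP.sum (range (n * 2 ^ n)) (F := fun ν ζ =>
    a ν * GG n η fun j => (tw n (nod n n ν) j : ℂ) * ζ j)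
    fun ν _ => (IsDP.const (a ν)).mul (lowa_GG n η _)
  refine ⟨P, ?_, ?_⟩
  · unfold Np
    simp only [hP]
    exact ha1
  · rw [nev_eq]
    simp only [← lift_cpow, hP]
    rw [Real.log_exp] at ha2
    refine le_trans ?_ ha2
    linarith

end Pool.Agent.P.MP_d14b1f_an.Nv
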