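import Pool.Agent.P.MP_d14b1f_an.Nv.IfaceU

/-! Step LYA. -/

set_option autoImplicit false

namespace Pool.Agent.P.MP_d14b1f_an.Nv

open Complex Filter Finset MeasureTheory Function Topology Asymptotics

/-- the Lyapunov function -/
noncomputable def lya_psi (D : ℝ) (x : ℂ) : ℝ := max 0 (D ^ 2 - ‖x‖ ^ 2) ^ 2

theorem lya_exp {a : ℝ} (h0 : 0 ≤ a) (h1 : a ≤ 5 / 8) : Real.exp (-(2 * a)) ≤ 1 - a := by
  have h := Real.quadratic_le_exp_of_nonneg (x := 2 * a) (by linarith)
  rw [Real.exp_neg, inv_le_iff_one_le_mul₀ (Real.exp_pos _)]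
  have h2 : 0 ≤ 1 - a := by linarith
  have h3 := mul_le_mul_of_nonneg_left h h2
  have h4 : 0 ≤ a * (1 - 2 * a ^ 2) := mul_nonneg h0 (by nlinarith)
  nlinarith

theorem lya_kap {D : ℝ} (hD : 0 ≤ D) (x : ℂ) : kap D ‖x‖ * lya_psi D x = lya_psi D x := by
  by_cases h : ‖x‖ ≤ D
  · rw [kap_eq_one h, one_mul]
  · have h1 : D ^ 2 - ‖x‖ ^ 2 ≤ 0 := by nlinarith [not_le.1 h]
    simp [lya_psi, max_eq_left h1]

theorem lya_le {D : ℝ} (x : ℂ) : lya_psi D x ≤ D ^ 4 := by
  unfold lya_psi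
  have h1 : max 0 (D ^ 2 - ‖x‖ ^ 2) ≤ D ^ 2 := max_le (sq_nonneg _) (by nlinarith [sq_nonneg ‖x‖])
  have h2 : 0 ≤ max 0 (D ^ 2 - ‖x‖ ^ 2) := le_max_left _ _
  nlinarith

theorem lya_cont (D : ℝ) (N : ℕ) (c : ℕ → ℂ) :
    Continuous fun w : Om => hw D N c w * lya_psi D (∑ j ∈ range N, c j * (w j : ℂ)) := by
  refine (cont_hw D N continuous_const continuous_id).mul ?_
  unfold lya_psi
  fun_prop

theorem lya_sum (c : ℕ → ℂ) (w : Om) (u : Circle) {M N : ℕ} (h : M ≤ N) :
    ∑ j ∈ range M, c j * (update w N u j : ℂ) = ∑ j ∈ range M, c j * (w j : ℂ) := by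
  refine sum_congr rfl fun j hj => ?_
  rw [update_of_ne (by have := mem_range.1 hj; omega)]

theorem lya_ind (hLYA1 : S_LYA1) {D : ℝ} (c : ℕ → ℂ) (hD : 4 ≤ D) (hc : ∀ j, ‖c j‖ ≤ 1) (N : ℕ) :
    D ^ 4 * Real.exp (-(20 * ∑ j ∈ range N, ‖c j‖ ^ 2) / D ^ 2) ≤
      E fun w => hw D N c w * lya_psi D (∑ j ∈ range N, c j * (w j : ℂ)) := by
  have hD0 : 0 < D := by linarith
  induction N with
  | zero =>
    have : ∀ w : Om, hw D 0 c w * lya_psi D (∑ j ∈ range 0, c j * (w j : ℂ)) = D ^ 4 := by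
      intro w
      have h1 : kap D 0 = 1 := kap_eq_one hD0.le
      simp only [hw, lya_psi, zero_add, range_one, prod_singleton, range_zero, sum_empty, norm_zero, h1]
      rw [max_eq_right (by nlinarith)]
      ring
    rw [E_congr this, E_const]
    simp
  | succ N ih =>
    set a := 10 * ‖c N‖ ^ 2 / D ^ 2 with ha
    have hc2 : ‖c N‖ ^ 2 ≤ 1 := by nlinarith [hc N, norm_nonneg (c N)]
    have a0 : 0 ≤ a := by positivity
    have a1 : a ≤ 5 / 8 := by
      rw [ha, div_le_iff₀ (by positivity)]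
      nlinarith
    have hstep : E (fun w => (1 - a) * (hw D N c w * lya_psi D (∑ j ∈ range N, c j * (w j : ℂ)))) ≤
        E fun w => hw D (N + 1) c w * lya_psi D (∑ j ∈ range (N + 1), c j * (w j : ℂ)) := by
      refine E_step_ge N (lya_cont D (N + 1) c) (continuous_const.mul (lya_cont D N c)) fun w => ?_
      have h1 : ∀ u : Circle, hw D (N + 1) c (update w N u) *
          lya_psi D (∑ j ∈ range (N + 1), c j * (update w N u j : ℂ)) =
          hw D N c w * lya_psi D (∑ j ∈ range N, c j * (w j : ℂ) + c N * u) := by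
        intro u
        have h2 : hw D (N + 1) c (update w N u) = hw D N c w *
            kap D ‖∑ j ∈ range (N + 1), c j * (update w N u j : ℂ)‖ := by
          unfold hw
          rw [prod_range_succ]
          congr 1
          refine prod_congr rfl fun M hM => ?_
          rw [lya_sum c w u (by have := mem_range.1 hM; omega)]
        rw [h2, mul_assoc, lya_kap hD0.le, sum_range_succ, lya_sum c w u le_rfl, update_self]
      rw [av_congr h1, av_mul, mul_left_comm]
      exact mul_le_mul_of_nonneg_left (hLYA1 D _ (c N) hD (hc N)) (hw_nonneg D N c w)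
    rw [E_mul] at hstep
    refine le_trans ?_ hstep
    have h3 : -(20 * ∑ j ∈ range (N + 1), ‖c j‖ ^ 2) / D ^ 2 =
        -(2 * a) + -(20 * ∑ j ∈ range N, ‖c j‖ ^ 2) / D ^ 2 := by
      rw [sum_range_succ, ha]
      ring
    rw [h3, Real.exp_add, mul_left_comm]
    exact mul_le_mul (lya_exp a0 a1) ih (by positivity) (by linarith)

theorem p_LYA (hLYA1 : S_LYA1) :
    S_LYA := by
  intro D N c hD hc
  have hD0 : 0 < D := by linarith
  have h := lya_ind hLYA1 c hD hc N
  have h2 : E (fun w => hw D N c w * lya_psi D (∑ j ∈ range N, c j * (w j : ℂ))) ≤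
      E fun w => D ^ 4 * hw D N c w := by
    refine E_mono (lya_cont D N c) (continuous_const.mul (cont_hw D N continuous_const continuous_id))
      fun w => ?_
    rw [mul_comm]
    exact mul_le_mul_of_nonneg_right (lya_le _) (hw_nonneg D N c w)
  rw [E_mul] at h2
  exact le_of_mul_le_mul_left (h.trans h2) (by positivity)

end Pool.Agent.P.MP_d14b1f_an.Nv
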