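import Pool.Agent.P.MP_d14b1f_an.Nv.IfaceU

/-! Step LYA1. -/

set_option autoImplicit false

namespace Pool.Agent.P.MP_d14b1f_an.Nv

open Complex Filter Finset MeasureTheory Function Topology Asymptotics

theorem lya1_pos {m : ℝ} (hm : 0 ≤ m) (b : ℝ) :
    2 * m ^ 2 + b ^ 2 / 2 ≤ max 0 (m - b) ^ 2 + max 0 (m + b) ^ 2 := by
  rcases le_total 0 (m - b) with h | h <;> rcases le_total 0 (m + b) with k | k
  · rw [max_eq_right h, max_eq_right k]; nlinarith [sq_nonneg b]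
  · rw [max_eq_right h, max_eq_left k]; nlinarith [sq_nonneg b]
  · rw [max_eq_left h, max_eq_right k]; nlinarith [sq_nonneg b]
  · rw [max_eq_left h, max_eq_left k]; nlinarith [sq_nonneg b]

theorem lya1_neg (m b : ℝ) :
    -m ^ 2 + b ^ 2 / 2 ≤ max 0 (m - b) ^ 2 + max 0 (m + b) ^ 2 := by
  rcases le_total 0 (m - b) with h | h <;> rcases le_total 0 (m + b) with k | k
  · rw [max_eq_right h, max_eq_right k]; nlinarith [sq_nonneg b, sq_nonneg m]
  · rw [max_eq_right h, max_eq_left k]; nlinarith [sq_nonneg (b - 2 * m)]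
  · rw [max_eq_left h, max_eq_right k]; nlinarith [sq_nonneg (b + 2 * m)]
  · rw [max_eq_left h, max_eq_left k]; nlinarith [sq_nonneg b, sq_nonneg m]

theorem lya1_norm (x c : ℂ) (u : Circle) :
    ‖x + c * u‖ ^ 2 = ‖x‖ ^ 2 + ‖c‖ ^ 2 + (2 * (starRingEnd ℂ) x * c * u).re := by
  have h3 : ‖c * u‖ ^ 2 = ‖c‖ ^ 2 := by rw [norm_mul, Circle.norm_coe, mul_one]
  rw [← h3, mul_assoc]
  generalize c * (u : ℂ) = y
  simp only [Complex.sq_norm, Complex.normSq_apply]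
  simp
  ring

theorem lya1_sym (m A : ℝ) (d : ℂ)
    (h : ∀ b : ℝ, A + b ^ 2 / 2 ≤ max 0 (m - b) ^ 2 + max 0 (m + b) ^ 2) :
    A / 2 + ‖d‖ ^ 2 / 8 ≤ av fun u => max 0 (m - (d * u).re) ^ 2 := by
  have h1 := av_rot (-1) fun u => max 0 (m - (d * u).re) ^ 2
  have h2 : av (fun u : Circle => max 0 (m - (d * ((-1 * u : Circle) : ℂ)).re) ^ 2) =
      av fun u => max 0 (m + (d * u).re) ^ 2 := av_congr fun u => by
    have : (d * ((-1 * u : Circle) : ℂ)).re = -(d * u).re := by simp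
    rw [this, sub_neg_eq_add]
  have h3 : av (fun u : Circle => A + 1 / 2 * (d * u).re ^ 2) ≤
      av fun u => max 0 (m - (d * u).re) ^ 2 + max 0 (m + (d * u).re) ^ 2 :=
    av_mono (by fun_prop) (by fun_prop) fun u => by linarith [h (d * u).re]
  rw [av_add (by fun_prop) (by fun_prop), av_add (by fun_prop) (by fun_prop), av_const, av_mul,
    av_re_sq] at h3
  linarith

theorem p_LYA1 :
    S_LYA1 := by
  intro D x c hD hc
  have e : (av fun u => max 0 (D ^ 2 - ‖x + c * u‖ ^ 2) ^ 2) =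
      av fun u => max 0 (D ^ 2 - ‖x‖ ^ 2 - ‖c‖ ^ 2 - (2 * (starRingEnd ℂ) x * c * u).re) ^ 2 :=
    av_congr fun u => by rw [lya1_norm]; ring_nf
  have hn : ‖2 * (starRingEnd ℂ) x * c‖ ^ 2 = 4 * (‖x‖ ^ 2 * ‖c‖ ^ 2) := by
    simp [mul_pow]; ring
  have hR : ‖c‖ ^ 2 ≤ 1 := by nlinarith [norm_nonneg c]
  have hR0 : 0 ≤ ‖c‖ ^ 2 := by positivity
  have hX : 0 ≤ ‖x‖ ^ 2 := by positivity
  have hD2 : 16 ≤ D ^ 2 := by nlinarith
  rcases le_total (D ^ 2 - ‖x‖ ^ 2) 0 with h | h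
  · rw [max_eq_left h]
    simpa using av_nonneg fun u => sq_nonneg _
  rw [max_eq_right h, e]
  generalize ‖x‖ ^ 2 = X at *
  generalize ‖c‖ ^ 2 = R at *
  generalize D ^ 2 = Q at *
  have hQ : 0 < Q := by linarith
  rcases le_total 0 (Q - X - R) with k | k
  · refine le_trans ?_ (lya1_sym _ _ _ (lya1_pos k))
    rw [hn]
    have h1 : 0 ≤ R * (Q * Q / 2 - 5 / 2 * (Q - X) * Q + 10 * (Q - X) ^ 2) :=
      mul_nonneg hR0 (by nlinarith [sq_nonneg (Q - 4 * (Q - X)), sq_nonneg (Q - X)])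
    have h2 : (1 - 10 * R / Q) * (Q - X) ^ 2 = ((Q - 10 * R) * (Q - X) ^ 2) / Q := by
      field_simp
    rw [h2, div_le_iff₀ hQ]
    nlinarith [mul_nonneg hQ.le (sq_nonneg R)]
  · refine le_trans ?_ (lya1_sym _ _ _ (lya1_neg _))
    rw [hn]
    have h1 : (1 - 10 * R / Q) * (Q - X) ^ 2 ≤ (Q - X) ^ 2 := by
      have : 0 ≤ 10 * R / Q * (Q - X) ^ 2 := by positivity
      linarith
    have h2 : (Q - X) ^ 2 ≤ R := by nlinarith
    have h3 : (Q - X - R) ^ 2 ≤ R := by nlinarith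
    have h4 : 15 * R ≤ X * R := mul_le_mul_of_nonneg_right (by linarith) hR0
    linarith

end Pool.Agent.P.MP_d14b1f_an.Nv
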