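import Pool.Agent.P.MP_d14b1f_an.Nv.IfaceL

/-! Step M1. -/

set_option autoImplicit false

namespace Pool.Agent.P.MP_d14b1f_an.Nv

open Complex Filter Finset MeasureTheory Function Topology Asymptotics

theorem m1_abs (r : ℝ) (hr : 0 ≤ r) (u : Circle) : |r * (u : ℂ).re| ≤ r := by
  have h : |(u : ℂ).re| ≤ 1 := (Complex.abs_re_le_norm _).trans (by simp)
  rw [abs_mul, abs_of_nonneg hr]
  exact mul_le_of_le_one_right hr h

theorem m1_four (y a e : ℝ) (he : e ^ 2 ≤ 1) :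
    (y + a * e) ^ 4 ≤ y ^ 4 + 4 * y ^ 3 * a * e + (8 * y ^ 2 + 3 * a ^ 2) * a ^ 2 * e ^ 2 := by
  have h1 : 4 * y * (a * e) + (a * e) ^ 2 ≤ 2 * y ^ 2 + 3 * a ^ 2 := by
    have : (a * e) ^ 2 ≤ a ^ 2 := by
      rw [mul_pow]; exact mul_le_of_le_one_right (sq_nonneg a) he
    nlinarith [sq_nonneg (y - a * e)]
  have h2 := mul_le_mul_of_nonneg_left h1 (sq_nonneg (a * e))
  nlinarith

theorem m1_var (r m : ℝ) : av (fun u => (r * (u : ℂ).re - m) ^ 2) = r ^ 2 / 2 + m ^ 2 := by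
  have e1 : av (fun u => (r * (u : ℂ).re) ^ 2) = r ^ 2 / 2 := by
    have := av_re_sq (r : ℂ)
    simpa using this
  have e2 : av (fun u => r * (u : ℂ).re) = 0 := by
    have := av_re (r : ℂ)
    simpa using this
  have e3 : av (fun u => (r * (u : ℂ).re - m) ^ 2) =
      av (fun u => ((r * (u : ℂ).re) ^ 2 + (-2 * m) * (r * (u : ℂ).re)) + m ^ 2) :=
    av_congr fun u => by ring
  rw [e3, av_add (by fun_prop) (by fun_prop), av_add (by fun_prop) (by fun_prop), av_mul, e1, e2,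
    av_const]
  ring

theorem p_M1 :
    S_M1 := by
  intro r hr0 hr1
  have hab := fun u => abs_le.mp (m1_abs r hr0 u)
  have wlo : ∀ u : Circle, Real.exp (-1) ≤ Real.exp (2 * (r * (u : ℂ).re)) := fun u =>
    Real.exp_le_exp.mpr (by linarith [(hab u).1])
  have whi : ∀ u : Circle, Real.exp (2 * (r * (u : ℂ).re)) ≤ Real.exp 1 := fun u =>
    Real.exp_le_exp.mpr (by linarith [(hab u).2])
  have Zlo : Real.exp (-1) ≤ Zr r := by
    rw [← av_const (Real.exp (-1))]
    exact av_mono (by fun_prop) (by fun_prop) wlo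
  have Zhi : Zr r ≤ Real.exp 1 := by
    rw [← av_const (Real.exp 1)]
    exact av_mono (by fun_prop) (by fun_prop) whi
  have Zpos : 0 < Zr r := (Real.exp_pos _).trans_le Zlo
  obtain ⟨m, hm⟩ : ∃ m : ℝ, Zr r * m =
      av (fun u => Real.exp (2 * (r * (u : ℂ).re)) * (r * (u : ℂ).re)) :=
    ⟨_, mul_div_cancel₀ _ Zpos.ne'⟩
  obtain ⟨v, hv⟩ : ∃ v : ℝ, Zr r * v =
      av (fun u => Real.exp (2 * (r * (u : ℂ).re)) * (r * (u : ℂ).re - m) ^ 2) :=
    ⟨_, mul_div_cancel₀ _ Zpos.ne'⟩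
  have m1 : m ≤ r := by
    have : Zr r * m ≤ r * Zr r := by
      rw [hm, Zr, ← av_mul]
      refine av_mono (by fun_prop) (by fun_prop) fun u => ?_
      rw [mul_comm r (Real.exp _)]
      exact mul_le_mul_of_nonneg_left (hab u).2 (Real.exp_pos _).le
    nlinarith
  have m2 : -r ≤ m := by
    have : (-r) * Zr r ≤ Zr r * m := by
      rw [hm, Zr, ← av_mul]
      refine av_mono (by fun_prop) (by fun_prop) fun u => ?_
      rw [mul_comm (-r) (Real.exp _)]
      exact mul_le_mul_of_nonneg_left (hab u).1 (Real.exp_pos _).le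
    nlinarith
  have he : ∀ u : Circle, (r * (u : ℂ).re - m) ^ 2 ≤ 1 := fun u => by
    have := hab u
    rw [sq_le_one_iff_abs_le_one, abs_le]
    constructor <;> linarith [this.1, this.2]
  have h0 : av (fun u => Real.exp (2 * (r * (u : ℂ).re)) * (r * (u : ℂ).re - m)) = 0 := by
    have e : av (fun u => Real.exp (2 * (r * (u : ℂ).re)) * (r * (u : ℂ).re - m)) =
        av (fun u => Real.exp (2 * (r * (u : ℂ).re)) * (r * (u : ℂ).re) -
          m * Real.exp (2 * (r * (u : ℂ).re))) := av_congr fun u => by ring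
    rw [e, av_sub (by fun_prop) (by fun_prop), av_mul, ← hm, Zr]
    ring
  have lin : ∀ p q s : ℝ, av (fun u => p * Real.exp (2 * (r * (u : ℂ).re)) +
      q * (Real.exp (2 * (r * (u : ℂ).re)) * (r * (u : ℂ).re - m)) +
      s * (Real.exp (2 * (r * (u : ℂ).re)) * (r * (u : ℂ).re - m) ^ 2)) =
      Zr r * (p + s * v) := by
    intro p q s
    rw [av_add (by fun_prop) (by fun_prop), av_add (by fun_prop) (by fun_prop), av_mul, av_mul,
      av_mul, h0, ← hv, Zr]
    ring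
  refine ⟨m, v, ?_, fun y a => ⟨?_, ?_⟩⟩
  · have l1 : Real.exp (-1) * (r ^ 2 / 2 + m ^ 2) ≤ Zr r * v := by
      rw [hv, ← m1_var, ← av_mul]
      exact av_mono (by fun_prop) (by fun_prop) fun u =>
        mul_le_mul_of_nonneg_right (wlo u) (sq_nonneg _)
    have l2 : Real.exp 1 < 2.7182818286 := Real.exp_one_lt_d9
    have l3 : Real.exp (-1) * Real.exp 1 = 1 := by rw [← Real.exp_add]; simp
    have l4 : 0 < Real.exp (-1) := Real.exp_pos _
    have l5 : (0.36 : ℝ) ≤ Real.exp (-1) := by nlinarith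
    by_contra h
    push Not at h
    have l6 : Zr r * v ≤ Zr r * (r ^ 2 / 16) := mul_le_mul_of_nonneg_left h.le Zpos.le
    have l7 : Zr r * (r ^ 2 / 16) ≤ 2.7182818286 * (r ^ 2 / 16) :=
      mul_le_mul_of_nonneg_right (by linarith) (by positivity)
    have l8 : 0.36 * (r ^ 2 / 2 + m ^ 2) ≤ Real.exp (-1) * (r ^ 2 / 2 + m ^ 2) :=
      mul_le_mul_of_nonneg_right l5 (by positivity)
    have l9 : r ^ 2 ≤ 0 := by nlinarith [sq_nonneg m]
    have l10 : Zr r * v < 0 := mul_neg_of_pos_of_neg Zpos (by linarith)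
    nlinarith [sq_nonneg m, sq_nonneg r]
  · rw [← lin (y ^ 2) (2 * y * a) (a ^ 2)]
    exact av_congr fun u => by ring
  · have e := lin (y ^ 4) (4 * y ^ 3 * a) ((8 * y ^ 2 + 3 * a ^ 2) * a ^ 2)
    refine le_trans (av_mono (by fun_prop) (by fun_prop) fun u => ?_) (e.trans (by ring)).le
    have := mul_le_mul_of_nonneg_left (m1_four y a _ (he u))
      (Real.exp_pos (2 * (r * (u : ℂ).re))).le
    linarith

end Pool.Agent.P.MP_d14b1f_an.Nv
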