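import Pool.Agent.P.MP_d14b1f_an.Nv.IfaceU

/-! Step MOB. -/

set_option autoImplicit false

namespace Pool.Agent.P.MP_d14b1f_an.Nv

open Complex Filter Finset MeasureTheory Function Topology Asymptotics

/-- the automorphism in the first `N` coordinates -/
noncomputable def mobN (N : ℕ) (z : ℕ → ℂ) (w : Om) : Om :=
  fun j => if j < N then mobC (z j) (w j) else w j

theorem mob_cont (N : ℕ) {z : ℕ → ℂ} (h : ∀ j, ‖z j‖ < 1) : Continuous (mobN N z) := by
  refine continuous_pi fun j => ?_
  unfold mobN
  split_ifs
  · exact cont_mobC continuous_const (continuous_apply j) fun _ => h j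
  · exact continuous_apply j

theorem mob_rho (N : ℕ) (z : ℕ → ℂ) (w : Om) (u : Circle) :
    rho N z (update w N u) = rho N z w :=
  prod_congr rfl fun j hj => by rw [update_of_ne (mem_range.1 hj).ne]

theorem mob_ind (hMOB1 : S_MOB1) {z : ℕ → ℂ} (h : ∀ j, ‖z j‖ < 1) {F : Om → ℝ}
    (hF : Continuous F) (N : ℕ) : E (fun w => F (mobN N z w) * rho N z w) = E F := by
  have hc : ∀ M, Continuous fun w => F (mobN M z w) * rho M z w := fun M =>
    (hF.comp (mob_cont M h)).mul (cont_rho M continuous_const continuous_id fun _ => h)
  induction N with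
  | zero => exact E_congr fun w => by simp [rho, show mobN 0 z w = w from rfl]
  | succ N ih =>
    rw [← ih, E_step N (hc _), E_step N (hc _)]
    refine E_congr fun w => ?_
    have e1 : ∀ u, mobN (N + 1) z (update w N u) = update (mobN N z w) N (mobC (z N) u) := by
      intro u
      funext j
      by_cases hj : j = N
      · simp [mobN, hj]
      · simp [mobN, hj, le_iff_lt_or_eq]
    have e2 : ∀ u, mobN N z (update w N u) = update (mobN N z w) N u := by
      intro u
      funext j
      by_cases hj : j = N
      · simp [mobN, hj]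
      · simp [mobN, hj]
    have e3 : ∀ u, rho (N + 1) z (update w N u) = rho N z w * Pk (z N) u := by
      intro u
      rw [← mob_rho N z w u, rho, prod_range_succ, update_self, rho]
    have := hMOB1 (z N) (h N) (fun u => F (update (mobN N z w) N u) * rho N z w)
      ((hF.comp (continuous_const.update N continuous_id)).mul continuous_const)
    simp only [e1, e2, e3, mob_rho, ← mul_assoc]
    exact this

theorem p_MOB (hMOB1 : S_MOB1) :
    S_MOB := by
  intro N z hz F hF
  rw [← mob_ind hMOB1 hz.lt hF N]
  refine E_congr fun w => ?_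
  have : bet z w = mobN N z w := by
    funext j
    unfold bet mobN
    split_ifs with hj
    · rfl
    · rw [hz.2 j (not_lt.1 hj), mobC_zero]
  rw [this]

end Pool.Agent.P.MP_d14b1f_an.Nv
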