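import Pool.Agent.P.MP_d14b1f_an.Nv.IfaceU

/-! Step MOB1. -/

set_option autoImplicit false

namespace Pool.Agent.P.MP_d14b1f_an.Nv

open Complex Filter Finset MeasureTheory Function Topology Asymptotics

theorem mob1_slit {w : ℂ} (hw : ‖w‖ < 1) : 1 - w ∈ Complex.slitPlane := by
  left
  have := (Complex.re_le_norm w).trans_lt hw
  simp only [Complex.sub_re, Complex.one_re]
  linarith

theorem mob1_id {w : ℂ} (hw : 1 - w ≠ 0) :
    1 - 2 * (-(w * I) / (1 - w)).im = (1 - ‖w‖ ^ 2) / ‖1 - w‖ ^ 2 := by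
  have hN : Complex.normSq (1 - w) ≠ 0 := by simpa using hw
  rw [Complex.div_im, Complex.sq_norm, Complex.sq_norm]
  field_simp
  simp [Complex.normSq_apply]
  ring

theorem p_MOB1 :
    S_MOB1 := by
  intro z hz G hG
  have hn : ∀ θ : ℝ, ‖(starRingEnd ℂ) z * Complex.exp (θ * I)‖ = ‖z‖ := fun θ => by
    rw [norm_mul, Complex.norm_exp_ofReal_mul_I, Complex.norm_conj, mul_one]
  have hs : ∀ θ : ℝ, 1 - (starRingEnd ℂ) z * Complex.exp (θ * I) ∈ Complex.slitPlane := fun θ =>
    mob1_slit (by rw [hn]; exact hz)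
  set al : ℝ → ℝ := fun θ => θ - 2 * (Complex.log (1 - (starRingEnd ℂ) z * Complex.exp (θ * I))).im
    with hal
  have hu : ∀ θ : ℝ, Complex.exp (θ * I) * (starRingEnd ℂ) (1 - (starRingEnd ℂ) z *
      Complex.exp (θ * I)) = Complex.exp (θ * I) - z := fun θ => by
    have h1 : Complex.exp (θ * I) * (starRingEnd ℂ) (Complex.exp (θ * I)) = 1 := by
      rw [Complex.mul_conj, Complex.normSq_eq_norm_sq, Complex.norm_exp_ofReal_mul_I]
      simp
    simp only [map_sub, map_one, map_mul, Complex.conj_conj]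
    linear_combination -z * h1
  have h1 : ∀ θ : ℝ, Circle.exp (al θ) = mobC z (Circle.exp θ) := fun θ => by
    apply Circle.ext
    have hq := Complex.slitPlane_ne_zero (hs θ)
    rw [coe_mobC hz, Circle.coe_exp, Circle.coe_exp, mob, eq_div_iff hq, ← hu θ]
    set q := 1 - (starRingEnd ℂ) z * Complex.exp (θ * I) with hqd
    have e1 : Complex.exp (Complex.log q) = q := Complex.exp_log hq
    have e2 : ((al θ : ℝ) : ℂ) * I + Complex.log q = θ * I + (starRingEnd ℂ) (Complex.log q) := by
      have := Complex.sub_conj (Complex.log q)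
      simp only [hal]
      rw [← hqd]
      push_cast at this ⊢
      linear_combination this
    calc Complex.exp (((al θ : ℝ) : ℂ) * I) * q
        = Complex.exp (((al θ : ℝ) : ℂ) * I + Complex.log q) := by rw [Complex.exp_add, e1]
      _ = Complex.exp (θ * I) * (starRingEnd ℂ) q := by
          rw [e2, Complex.exp_add, Complex.exp_conj, e1]
  have h2 : ∀ θ : ℝ, HasDerivAt al (Pk z (Circle.exp θ)) θ := fun θ => by
    have hq := Complex.slitPlane_ne_zero (hs θ)
    have d0 : HasDerivAt (fun t : ℝ => (t : ℂ) * I) I θ := by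
      simpa using (Complex.ofRealCLM.hasDerivAt (x := θ)).mul_const I
    have d1 : HasDerivAt (fun t : ℝ => 1 - (starRingEnd ℂ) z * Complex.exp (t * I))
        (-((starRingEnd ℂ) z * Complex.exp (θ * I) * I)) θ := by
      have := (d0.cexp.const_mul ((starRingEnd ℂ) z)).const_sub 1
      rwa [← mul_assoc] at this
    have d2 := d1.clog_real (hs θ)
    have d3 := Complex.imCLM.hasFDerivAt.comp_hasDerivAt θ d2
    have d4 := (hasDerivAt_id θ).sub (d3.const_mul 2)
    have e : Pk z (Circle.exp θ) = 1 - 2 * (-((starRingEnd ℂ) z * Complex.exp (θ * I) * I) /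
        (1 - (starRingEnd ℂ) z * Complex.exp (θ * I))).im := by
      rw [mob1_id hq, hn, Pk, Circle.coe_exp, ← hu θ, norm_mul, Complex.norm_exp_ofReal_mul_I,
        Complex.norm_conj, one_mul]
    rw [e]
    exact d4
  have hc : Continuous fun θ : ℝ => Pk z (Circle.exp θ) :=
    cont_Pk continuous_const (by fun_prop) fun _ => hz
  have hg : Continuous fun θ : ℝ => G (Circle.exp θ) := by fun_prop
  have h3 := intervalIntegral.integral_comp_mul_deriv (a := 0) (b := 2 * Real.pi)
    (fun θ _ => h2 θ) hc.continuousOn hg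
  have h4 : al (2 * Real.pi) = al 0 + 2 * Real.pi := by
    have e : Complex.exp (((2 * Real.pi : ℝ) : ℂ) * I) = Complex.exp (((0 : ℝ) : ℂ) * I) := by
      push_cast
      rw [Complex.exp_two_pi_mul_I]
      simp
    simp only [hal]
    rw [e]
    ring
  have hp : Periodic (fun θ : ℝ => G (Circle.exp θ)) (2 * Real.pi) := fun θ => by
    simp [Circle.exp_add]
  have h5 := hp.intervalIntegral_add_eq (al 0) 0
  rw [zero_add] at h5
  unfold av
  congr 1
  rw [← h5, ← h4, ← h3]
  refine intervalIntegral.integral_congr fun θ _ => ?_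
  simp only [Function.comp, h1]

end Pool.Agent.P.MP_d14b1f_an.Nv
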