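import Pool.Agent.P.MP_d14b1f_an.Nv.IfaceL

/-! Step MOM. -/

set_option autoImplicit false

namespace Pool.Agent.P.MP_d14b1f_an.Nv

open Complex Filter Finset MeasureTheory Function Topology Asymptotics

theorem mom_Zr (r : ℝ) : 0 ≤ Zr r := av_nonneg fun _ => (Real.exp_pos _).le

theorem mom_upd {J : Finset ℕ} {i : ℕ} (hi : i ∉ J) (r a : ℕ → ℝ) (m m1 y : ℝ) (k : ℕ) (w : Om)
    (u : Circle) :
    (∏ j ∈ insert i J, Real.exp (2 * (r j * ((update w i u : Om) j : ℂ).re))) *
      (y + (∑ j ∈ insert i J, a j * (r j * ((update w i u : Om) j : ℂ).re) - (a i * m1 + m))) ^ k =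
    (∏ j ∈ J, Real.exp (2 * (r j * (w j : ℂ).re))) *
      (Real.exp (2 * (r i * (u : ℂ).re)) *
        ((y + (∑ j ∈ J, a j * (r j * (w j : ℂ).re) - m)) + a i * (r i * (u : ℂ).re - m1)) ^ k) := by
  have e1 : ∏ j ∈ J, Real.exp (2 * (r j * ((update w i u : Om) j : ℂ).re)) =
      ∏ j ∈ J, Real.exp (2 * (r j * (w j : ℂ).re)) :=
    prod_congr rfl fun j hj => by rw [update_of_ne (ne_of_mem_of_not_mem hj hi)]
  have e2 : ∑ j ∈ J, a j * (r j * ((update w i u : Om) j : ℂ).re) =
      ∑ j ∈ J, a j * (r j * (w j : ℂ).re) :=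
    sum_congr rfl fun j hj => by rw [update_of_ne (ne_of_mem_of_not_mem hj hi)]
  rw [prod_insert hi, sum_insert hi, update_self, e1, e2]
  have e3 : y + (a i * (r i * (u : ℂ).re) + ∑ j ∈ J, a j * (r j * (w j : ℂ).re) - (a i * m1 + m)) =
      (y + (∑ j ∈ J, a j * (r j * (w j : ℂ).re) - m)) + a i * (r i * (u : ℂ).re - m1) := by ring
  rw [e3]
  ring

theorem p_MOM (hM1 : S_M1) :
    S_MOM := by
  intro J r a B
  induction J using Finset.induction_on with
  | empty =>
    intro _ _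
    refine ⟨0, 0, by simp, fun y => ⟨?_, ?_⟩⟩ <;> simp [E_const]
  | insert i J hi ih =>
    intro hr ha
    obtain ⟨m, v, hv, hmv⟩ := ih (fun j hj => hr j (mem_insert_of_mem hj))
      (fun j hj => ha j (mem_insert_of_mem hj))
    obtain ⟨m1, v1, hv1, h1⟩ := hM1 (r i) (hr i (mem_insert_self _ _)).1
      (hr i (mem_insert_self _ _)).2
    have v0 : 0 ≤ v := le_trans (sum_nonneg fun j _ => by positivity) hv
    have v10 : 0 ≤ v1 := le_trans (by positivity) hv1
    have hB : a i ^ 2 ≤ B ^ 2 := by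
      have := ha i (mem_insert_self _ _)
      rw [← sq_abs (a i)]
      exact pow_le_pow_left₀ (abs_nonneg _) this 2
    have hP : E (fun w => ∏ j ∈ J, Real.exp (2 * (r j * (w j : ℂ).re))) = ∏ j ∈ J, Zr (r j) :=
      E_prod J (g := fun j u => Real.exp (2 * (r j * (u : ℂ).re))) fun j _ => by fun_prop
    have hZ : 0 ≤ ∏ j ∈ J, Zr (r j) := prod_nonneg fun j _ => mom_Zr _
    have hZi := mom_Zr (r i)
    refine ⟨a i * m1 + m, a i ^ 2 * v1 + v, ?_, fun y => ⟨?_, ?_⟩⟩
    · rw [sum_insert hi]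
      have : a i ^ 2 * r i ^ 2 / 16 ≤ a i ^ 2 * v1 := by
        rw [mul_div_assoc]; exact mul_le_mul_of_nonneg_left hv1 (sq_nonneg _)
      linarith
    · rw [E_step i (by fun_prop)]
      have e : ∀ w : Om, (av fun u =>
          (∏ j ∈ insert i J, Real.exp (2 * (r j * ((update w i u : Om) j : ℂ).re))) *
          (y + (∑ j ∈ insert i J, a j * (r j * ((update w i u : Om) j : ℂ).re) -
            (a i * m1 + m))) ^ 2) =
          Zr (r i) * ((∏ j ∈ J, Real.exp (2 * (r j * (w j : ℂ).re))) *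
            (y + (∑ j ∈ J, a j * (r j * (w j : ℂ).re) - m)) ^ 2) +
          (Zr (r i) * (a i ^ 2 * v1)) * ∏ j ∈ J, Real.exp (2 * (r j * (w j : ℂ).re)) := fun w => by
        rw [av_congr fun u => mom_upd hi r a m m1 y 2 w u, av_mul, (h1 _ _).1]
        ring
      rw [E_congr e, E_add (by fun_prop) (by fun_prop), E_mul, E_mul, (hmv y).1, hP,
        prod_insert hi]
      ring
    · have e : ∀ w : Om, (av fun u =>
          (∏ j ∈ insert i J, Real.exp (2 * (r j * ((update w i u : Om) j : ℂ).re))) *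
          (y + (∑ j ∈ insert i J, a j * (r j * ((update w i u : Om) j : ℂ).re) -
            (a i * m1 + m))) ^ 4) ≤
          Zr (r i) * ((∏ j ∈ J, Real.exp (2 * (r j * (w j : ℂ).re))) *
            (y + (∑ j ∈ J, a j * (r j * (w j : ℂ).re) - m)) ^ 4) +
          ((Zr (r i) * (8 * (a i ^ 2 * v1))) * ((∏ j ∈ J, Real.exp (2 * (r j * (w j : ℂ).re))) *
            (y + (∑ j ∈ J, a j * (r j * (w j : ℂ).re) - m)) ^ 2) +
          (Zr (r i) * (3 * a i ^ 2 * (a i ^ 2 * v1))) *
            ∏ j ∈ J, Real.exp (2 * (r j * (w j : ℂ).re))) := fun w => by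
        rw [av_congr fun u => mom_upd hi r a m m1 y 4 w u, av_mul]
        have hp : 0 ≤ ∏ j ∈ J, Real.exp (2 * (r j * (w j : ℂ).re)) :=
          prod_nonneg fun j _ => (Real.exp_pos _).le
        refine (mul_le_mul_of_nonneg_left (h1 _ _).2 hp).trans (le_of_eq ?_)
        ring
      refine (E_step_le i (by fun_prop) (by fun_prop) e).trans ?_
      rw [E_add (by fun_prop) (by fun_prop), E_add (by fun_prop) (by fun_prop), E_mul, E_mul, E_mul,
        (hmv y).1, hP, prod_insert hi]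
      have h4 := mul_le_mul_of_nonneg_left (hmv y).2 hZi
      have hc : 0 ≤ a i ^ 2 * v1 := by positivity
      generalize a i ^ 2 * v1 = c at hc ⊢
      have h5 : 0 ≤ Zr (r i) * (∏ j ∈ J, Zr (r j)) * (4 * c ^ 2 + 3 * (B ^ 2 - a i ^ 2) * c) :=
        mul_nonneg (mul_nonneg hZi hZ) (add_nonneg (by positivity)
          (mul_nonneg (mul_nonneg (by norm_num) (sub_nonneg.mpr hB)) hc))
      nlinarith [h4, h5]

end Pool.Agent.P.MP_d14b1f_an.Nv
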