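import Pool.Agent.P.MP_d14b1f_an.Nv.IfaceU

/-! Step NT1. -/

set_option autoImplicit false

namespace Pool.Agent.P.MP_d14b1f_an.Nv

open Complex Filter Finset MeasureTheory Function Topology Asymptotics

theorem nt1_exp {x : ℝ} (h1 : x < 1) : Real.exp x ≤ 1 / (1 - x) := by
  have h := Real.add_one_le_exp (-x)
  rw [le_div_iff₀ (by linarith)]
  have h2 : Real.exp x * Real.exp (-x) = 1 := by rw [← Real.exp_add]; simp
  have h3 := Real.exp_pos x
  nlinarith

theorem nt1_term {j : ℕ} (hj : j.Prime) {a : ℝ} (ha : 0 < a) :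
    Real.exp ((j : ℝ) ^ (-(1 + a))) ≤ 1 / ‖1 - (j : ℂ) ^ (-(1 + (a : ℂ) + (0 : ℝ) * I))‖ := by
  have h2 : (1 : ℝ) < j := by exact_mod_cast hj.one_lt
  have hlt : (j : ℝ) ^ (-(1 + a)) < 1 := Real.rpow_lt_one_of_one_lt_of_neg h2 (by linarith)
  have he : (1 : ℂ) - (j : ℂ) ^ (-(1 + (a : ℂ) + (0 : ℝ) * I)) =
      ((1 - (j : ℝ) ^ (-(1 + a)) : ℝ) : ℂ) := by
    rw [Complex.ofReal_sub, Complex.ofReal_cpow (by linarith)]
    push_cast
    simp
  rw [he, Complex.norm_real, Real.norm_eq_abs, abs_of_pos (by linarith)]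
  exact nt1_exp hlt

theorem p_NT1 (hZETA : S_ZETA) (hEUL : S_EUL) :
    S_NT1 := by
  obtain ⟨C, hC, hZ⟩ := hZETA
  refine ⟨|Real.log C| + 1, by positivity, fun δ h0 h1 N t => ?_⟩
  obtain ⟨N0, hN0⟩ := hEUL (2 * δ) (by linarith)
  have hE := hN0 (max N N0) (le_max_right _ _) 0
  have hZ2 := hZ (2 * δ) 0 (by linarith) (by linarith) (by simp)
  have hm : max |(0 : ℝ)| (2 * δ) = 2 * δ := by
    rw [abs_zero]; exact max_eq_right (by linarith)
  rw [hm] at hZ2
  have hs : ∑ j ∈ range N, ‖zs N ((1 / 2 + δ : ℝ) + t * I) j‖ ^ 2 ≤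
      ∑ j ∈ (range (max N N0)).filter Nat.Prime, (j : ℝ) ^ (-(1 + 2 * δ)) := by
    have e1 : ∑ j ∈ range N, ‖zs N ((1 / 2 + δ : ℝ) + t * I) j‖ ^ 2 =
        ∑ j ∈ (range N).filter Nat.Prime, (j : ℝ) ^ (-(1 + 2 * δ)) := by
      rw [Finset.sum_filter]
      refine Finset.sum_congr rfl fun j hj => ?_
      have hj' := mem_range.1 hj
      rw [norm_zs]
      by_cases hp : j.Prime
      · rw [if_pos ⟨hp, hj'⟩, if_pos hp, ← Real.rpow_natCast, ← Real.rpow_mul (by positivity)]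
        congr 1
        simp
        ring
      · rw [if_neg fun h => hp h.1, if_neg hp]; norm_num
    rw [e1]
    refine Finset.sum_le_sum_of_subset_of_nonneg ?_ fun j _ _ => by positivity
    exact Finset.filter_subset_filter _ (Finset.range_subset_range.2 (le_max_left _ _))
  have hp : Real.exp (∑ j ∈ (range (max N N0)).filter Nat.Prime, (j : ℝ) ^ (-(1 + 2 * δ))) ≤
      C / δ := by
    rw [Real.exp_sum]
    refine le_trans (Finset.prod_le_prod (fun j _ => (Real.exp_pos _).le)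
      fun j hj => nt1_term (mem_filter.1 hj).2 (a := 2 * δ) (by linarith)) ?_
    refine le_trans hE ?_
    calc _ ≤ 2 * (C / (2 * δ)) := by linarith
      _ = C / δ := by field_simp
  have hl := (Real.le_log_iff_exp_le (by positivity)).2 hp
  have e2 : Real.log (C / δ) = Real.log (1 / δ) + Real.log C := by
    rw [← Real.log_mul (by positivity) hC.ne']
    congr 1
    ring
  have := le_abs_self (Real.log C)
  linarith

end Pool.Agent.P.MP_d14b1f_an.Nv
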