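import Pool.Agent.P.MP_d14b1f_an.Nv.IfaceU

/-! Step NT2. -/

set_option autoImplicit false

namespace Pool.Agent.P.MP_d14b1f_an.Nv

open Complex Filter Finset MeasureTheory Function Topology Asymptotics
open Pool.Agent.P.MP_74dd9d_nt (Pr SS mem_Pr mertens1 SS_lower)

theorem nt2_rr_le_one (j : ℕ) : rr j ≤ 1 := by
  rcases Nat.eq_zero_or_pos j with h | h
  · simp [h, rr]
  · have h1 : (1 : ℝ) ≤ j := by exact_mod_cast h
    exact inv_le_one_of_one_le₀ (Real.one_le_sqrt.2 h1)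

theorem nt2_norm_le (N : ℕ) {δ : ℝ} (hδ : 0 < δ) (u : ℝ) (j : ℕ) :
    ‖zs N ((1 / 2 + δ : ℝ) + u * I) j‖ ≤ rr j := by
  rw [norm_zs]
  split_ifs with h
  · have h1 : (1 : ℝ) ≤ j := by exact_mod_cast h.1.one_le
    have e : rr j = (j : ℝ) ^ (-(1 / 2) : ℝ) := by
      rw [rr, Real.sqrt_eq_rpow, Real.rpow_neg (by linarith)]
    rw [e]
    refine Real.rpow_le_rpow_of_exponent_le h1 ?_
    simp only [add_re, ofReal_re, mul_re, I_re, mul_zero, ofReal_im, I_im, mul_one, sub_self,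
      add_zero]
    linarith
  · exact rr_nonneg j

theorem nt2_x (N : ℕ) (δ t u : ℝ) {j : ℕ} (hj : j.Prime) (hN : j < N) :
    zs N ((1 / 2 + δ : ℝ) + t * I) j * (starRingEnd ℂ) (zs N ((1 / 2 + δ : ℝ) + u * I) j) =
      (j : ℂ) ^ (-(1 + ((2 * δ : ℝ) : ℂ) + ((t - u : ℝ) : ℂ) * I)) := by
  have h0 : (j : ℂ) ≠ 0 := by exact_mod_cast hj.ne_zero
  have hl : Complex.log (j : ℂ) = (Real.log j : ℝ) := by
    rw [Complex.ofReal_log (by positivity)]; rfl
  simp only [zs, if_pos (And.intro hj hN)]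
  rw [Complex.cpow_def_of_ne_zero h0, Complex.cpow_def_of_ne_zero h0,
    Complex.cpow_def_of_ne_zero h0, ← Complex.exp_conj, ← Complex.exp_add, hl]
  congr 1
  simp only [map_mul, map_neg, map_add, conj_ofReal, conj_I]
  push_cast
  ring

theorem nt2_x0 (N : ℕ) (s s' : ℂ) {j : ℕ} (hj : ¬ j.Prime) :
    zs N s j * (starRingEnd ℂ) (zs N s' j) = 0 := by
  simp [zs, hj]

theorem nt2_re {j : ℕ} (hj : j.Prime) {δ v m : ℝ} (hδ : 0 < δ) (h1 : δ ≤ m) (h2 : |v| ≤ m) :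
    (1 - 3 * m * Real.log j) / j ≤
      ((j : ℂ) ^ (-(1 + ((2 * δ : ℝ) : ℂ) + (v : ℂ) * I))).re := by
  have h0 : (j : ℂ) ≠ 0 := by exact_mod_cast hj.ne_zero
  have hp : (0 : ℝ) < j := by exact_mod_cast hj.pos
  have hl : Complex.log (j : ℂ) = (Real.log j : ℝ) := by
    rw [Complex.ofReal_log hp.le]; rfl
  have hL : 0 ≤ Real.log j := Real.log_natCast_nonneg j
  rw [Complex.cpow_def_of_ne_zero h0, hl, Complex.exp_re]
  have e1 : ((Real.log j : ℝ) * -(1 + ((2 * δ : ℝ) : ℂ) + (v : ℂ) * I) : ℂ).re =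
      -Real.log j + -(2 * δ * Real.log j) := by
    simp only [mul_re, ofReal_re, neg_re, add_re, one_re, I_re, mul_zero, ofReal_im, I_im, mul_one,
      sub_self, add_zero, zero_mul, sub_zero]
    ring
  have e2 : ((Real.log j : ℝ) * -(1 + ((2 * δ : ℝ) : ℂ) + (v : ℂ) * I) : ℂ).im =
      -(v * Real.log j) := by
    simp only [mul_im, ofReal_re, neg_im, add_im, one_im, ofReal_im, add_zero, I_im, mul_one, I_re,
      mul_zero, zero_add, zero_mul]
    ring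
  rw [e1, e2, Real.cos_neg, Real.exp_add, Real.exp_neg (Real.log j), Real.exp_log hp,
    div_eq_inv_mul, mul_assoc (j : ℝ)⁻¹]
  refine mul_le_mul_of_nonneg_left ?_ (inv_pos.2 hp).le
  set a := Real.exp (-(2 * δ * Real.log j)) with ha
  have a1 : 1 - 2 * δ * Real.log j ≤ a := by
    have := Real.add_one_le_exp (-(2 * δ * Real.log j)); linarith
  have a2 : a ≤ 1 := Real.exp_le_one_iff.2 (by nlinarith)
  have a3 : (0 : ℝ) < a := Real.exp_pos _
  have c1 : 1 - |v * Real.log j| ≤ Real.cos (v * Real.log j) := by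
    have := Real.abs_cos_sub_cos_le 0 (v * Real.log j)
    rw [Real.cos_zero, zero_sub, abs_neg] at this
    have := le_abs_self (1 - Real.cos (v * Real.log j))
    linarith
  have c2 : |v * Real.log j| ≤ m * Real.log j := by
    rw [abs_mul, abs_of_nonneg hL]; exact mul_le_mul_of_nonneg_right h2 hL
  have c3 : (0 : ℝ) ≤ |v * Real.log j| := abs_nonneg _
  have c4 : δ * Real.log j ≤ m * Real.log j := mul_le_mul_of_nonneg_right h1 hL
  nlinarith [mul_le_mul_of_nonneg_left c1 a3.le, mul_le_mul_of_nonneg_right a2 c3]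

theorem nt2_sq (x : ℂ) : ‖1 - x‖ ^ 2 ≤ Real.exp (-2 * x.re + ‖x‖ ^ 2) := by
  have := Real.add_one_le_exp (-2 * x.re + ‖x‖ ^ 2)
  have e : ‖1 - x‖ ^ 2 = -2 * x.re + ‖x‖ ^ 2 + 1 := by
    rw [Complex.sq_norm, Complex.sq_norm, Complex.normSq_apply, Complex.normSq_apply]
    simp only [sub_re, one_re, sub_im, one_im]
    ring
  linarith

theorem nt2_one (N : ℕ) {δ t u m : ℝ} (hδ : 0 < δ) (h1 : δ ≤ m) (h2 : |t - u| ≤ m) {j : ℕ}
    (hN : j < N) :
    Real.exp (‖zs N ((1 / 2 + δ : ℝ) + u * I) j‖ ^ 2 + 30 * ‖zs N ((1 / 2 + δ : ℝ) + u * I) j‖ ^ 3) *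
      ‖1 - zs N ((1 / 2 + δ : ℝ) + t * I) j *
        (starRingEnd ℂ) (zs N ((1 / 2 + δ : ℝ) + u * I) j)‖ ^ 2 ≤
      Real.exp (if j.Prime then -(1 / (j : ℝ)) + 6 * m * (Real.log j / j) + 31 * rr j ^ 3 else 0) := by
  split_ifs with hj
  · refine (mul_le_mul_of_nonneg_left (nt2_sq _) (Real.exp_pos _).le).trans ?_
    rw [← Real.exp_add]
    refine Real.exp_le_exp.2 ?_
    have a := nt2_norm_le N hδ u j
    have b := nt2_norm_le N hδ t j
    have r0 := rr_nonneg j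
    have r1 := nt2_rr_le_one j
    have a2 : ‖zs N ((1 / 2 + δ : ℝ) + u * I) j‖ ^ 2 ≤ 1 / (j : ℝ) := by
      rw [← rr_sq]; gcongr
    have a3 : ‖zs N ((1 / 2 + δ : ℝ) + u * I) j‖ ^ 3 ≤ rr j ^ 3 := by gcongr
    have a4 : ‖zs N ((1 / 2 + δ : ℝ) + t * I) j *
        (starRingEnd ℂ) (zs N ((1 / 2 + δ : ℝ) + u * I) j)‖ ^ 2 ≤ rr j ^ 3 := by
      rw [norm_mul, Complex.norm_conj]
      calc _ ≤ (rr j * rr j) ^ 2 := by gcongr
        _ = rr j ^ 3 * rr j := by ring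
        _ ≤ rr j ^ 3 * 1 := by gcongr
        _ = _ := mul_one _
    have a5 := nt2_re hj hδ h1 h2
    rw [← nt2_x N δ t u hj hN] at a5
    have e : (1 - 3 * m * Real.log j) / j = 1 / (j : ℝ) - 3 * m * (Real.log j / j) := by ring
    rw [e] at a5
    linarith
  · simp [zs, hj]

theorem nt2_ne (N : ℕ) {δ : ℝ} (hδ : 0 < δ) (t u : ℝ) (j : ℕ) :
    0 < ‖1 - zs N ((1 / 2 + δ : ℝ) + t * I) j *
        (starRingEnd ℂ) (zs N ((1 / 2 + δ : ℝ) + u * I) j)‖ := by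
  have h : ∀ w : ℝ, ‖zs N ((1 / 2 + δ : ℝ) + w * I) j‖ < 1 := fun w =>
    (adm_zs N (by simpa using hδ.le)).lt j
  rw [norm_pos_iff, mul_comm]
  exact den_ne (h u) (h t).le

theorem nt2_low {m : ℝ} (hm : 0 < m) (hm1 : m ≤ 1) :
    Real.exp (∑ j ∈ range (⌊Real.exp (1 / m)⌋₊ + 1),
      if j.Prime then -(1 / (j : ℝ)) + 6 * m * (Real.log j / j) + 31 * rr j ^ 3 else 0) ≤
      Real.exp 135 * (2 * m) := by
  have e : (range (⌊Real.exp (1 / m)⌋₊ + 1)).filter Nat.Prime = Pr (1 / m) := by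
    ext q
    rw [mem_filter, mem_range, mem_Pr, Nat.lt_succ_iff, Nat.le_floor_iff (Real.exp_pos _).le]
  rw [← sum_filter, e, sum_add_distrib, sum_add_distrib, sum_neg_distrib, ← mul_sum, ← mul_sum]
  have h1 := mertens1 (t := 1 / m) (by positivity) (subset_refl _)
  have h2 := sum_rr_cube (Pr (1 / m))
  have h3 := SS_lower (1 / m)
  have h4 : 6 * m * ∑ q ∈ Pr (1 / m), Real.log q / q ≤ 42 := by
    calc _ ≤ 6 * m * (1 / m + 6) := by gcongr
      _ = 6 + 36 * m := by field_simp; ring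
      _ ≤ 42 := by linarith
  have h5 : Real.exp (-SS (1 / m)) ≤ 2 * m := by
    rw [Real.exp_neg, inv_le_comm₀ (Real.exp_pos _) (by positivity)]
    refine le_trans (le_of_eq ?_) h3
    field_simp
  calc _ ≤ Real.exp (135 + -SS (1 / m)) := Real.exp_le_exp.2 (by rw [SS]; linarith)
    _ = Real.exp 135 * Real.exp (-SS (1 / m)) := Real.exp_add _ _
    _ ≤ _ := by gcongr

theorem p_NT2 (hZETA : S_ZETA) (hEUL : S_EUL) :
    S_NT2 := by
  obtain ⟨C, hC, hZ⟩ := hZETA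
  refine ⟨8 * C ^ 2 * Real.exp 135, by positivity, fun δ hδ hδ2 => ?_⟩
  obtain ⟨N1, hN1⟩ := hEUL (2 * δ) (by linarith)
  refine ⟨max N1 (⌊Real.exp (1 / δ)⌋₊ + 1), fun N hN t u htu => ?_⟩
  set m := max |t - u| δ with hm
  have hm1 : δ ≤ m := le_max_right _ _
  have hm2 : |t - u| ≤ m := le_max_left _ _
  have hm0 : 0 < m := hδ.trans_le hm1
  have hm3 : m ≤ 1 := max_le htu (by linarith)
  have hM : ⌊Real.exp (1 / m)⌋₊ + 1 ≤ N := by
    refine le_trans ?_ (le_trans (le_max_right _ _) hN)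
    exact Nat.succ_le_succ (Nat.floor_le_floor (Real.exp_le_exp.2 (one_div_le_one_div_of_le hδ hm1)))
  refine ⟨_, hM, ?_⟩
  set M := ⌊Real.exp (1 / m)⌋₊ + 1 with hMd
  set w : ℕ → ℝ := fun j => ‖1 - zs N ((1 / 2 + δ : ℝ) + t * I) j *
        (starRingEnd ℂ) (zs N ((1 / 2 + δ : ℝ) + u * I) j)‖ with hw
  have hw0 : ∀ j, 0 < w j := fun j => nt2_ne N hδ t u j
  have e1 : ∏ j ∈ Ico M N, 1 / w j ^ 2 = (∏ j ∈ range M, w j ^ 2) * ∏ j ∈ range N, 1 / w j ^ 2 := by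
    rw [← prod_range_mul_prod_Ico _ hM, ← mul_assoc, ← prod_mul_distrib,
      prod_eq_one (s := range M) fun j _ => by have := hw0 j; field_simp, one_mul]
  have e2 : ∏ j ∈ range N, 1 / w j ^ 2 = (∏ j ∈ (range N).filter Nat.Prime,
      1 / ‖1 - (j : ℂ) ^ (-(1 + ((2 * δ : ℝ) : ℂ) + ((t - u : ℝ) : ℂ) * I))‖) ^ 2 := by
    rw [← prod_pow, prod_filter]
    refine prod_congr rfl fun j hj => ?_
    split_ifs with h
    · rw [hw, one_div_pow]; simp only []; rw [nt2_x N δ t u h (mem_range.1 hj)]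
    · rw [hw]; simp only []; rw [nt2_x0 N _ _ h]; simp
  have b1 : ∏ j ∈ range N, 1 / w j ^ 2 ≤ (2 * (C / m)) ^ 2 := by
    rw [e2]
    refine pow_le_pow_left₀ (prod_nonneg fun j _ => by positivity) ?_ 2
    refine (hN1 N (le_trans (le_max_left _ _) hN) (t - u)).trans ?_
    refine mul_le_mul_of_nonneg_left ((hZ (2 * δ) (t - u) (by linarith) (by linarith) htu).trans ?_)
      (by norm_num)
    exact div_le_div_of_nonneg_left hC.le hm0 (max_le_max le_rfl (by linarith))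
  have b2 : Real.exp (∑ j ∈ range M, (‖zs N ((1 / 2 + δ : ℝ) + u * I) j‖ ^ 2 +
        30 * ‖zs N ((1 / 2 + δ : ℝ) + u * I) j‖ ^ 3)) * ∏ j ∈ range M, w j ^ 2 ≤
      Real.exp 135 * (2 * m) := by
    refine le_trans ?_ (nt2_low hm0 hm3)
    rw [Real.exp_sum, Real.exp_sum, ← prod_mul_distrib]
    exact prod_le_prod (fun j _ => by positivity) fun j hj =>
      nt2_one N hδ hm1 hm2 ((mem_range.1 hj).trans_le hM)
  change _ * ∏ j ∈ Ico M N, 1 / w j ^ 2 ≤ _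
  rw [e1, ← mul_assoc]
  calc _ ≤ Real.exp 135 * (2 * m) * (2 * (C / m)) ^ 2 :=
        mul_le_mul b2 b1 (prod_nonneg fun j _ => by positivity) (by positivity)
    _ = _ := by field_simp; ring

end Pool.Agent.P.MP_d14b1f_an.Nv
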