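import Pool.Agent.P.MP_d14b1f_an.Nv.IfaceU

/-! Step PAIR. -/

set_option autoImplicit false

namespace Pool.Agent.P.MP_d14b1f_an.Nv

open Complex Filter Finset MeasureTheory Function Topology Asymptotics

theorem pair_hw (D : ℝ) {N M : ℕ} (h : M ≤ N) (c : ℕ → ℂ) (x : Om) :
    hw D N c x ≤ Real.exp (2 * (D + 1)) *
      ∏ j ∈ range M, Real.exp (-2 * (c j * (x j : ℂ)).re) := by
  rw [← Real.exp_sum, ← Real.exp_add, ← mul_sum, ← Complex.re_sum]
  by_cases h1 : D + 1 ≤ ‖∑ j ∈ range M, c j * (x j : ℂ)‖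
  · have h0 : hw D N c x = 0 :=
      prod_eq_zero (mem_range.2 (Nat.lt_succ_of_le h)) (kap_eq_zero h1)
    rw [h0]
    exact (Real.exp_pos _).le
  · have h2 := Complex.re_le_norm (∑ j ∈ range M, c j * (x j : ℂ))
    exact (hw_le_one _ _ _ _).trans (Real.one_le_exp (by linarith [not_le.1 h1]))

/-- the one dimensional factors -/
noncomputable def pair_g (M : ℕ) (z y : ℕ → ℂ) (j : ℕ) (u : Circle) : ℝ :=
  Pk (z j) u * (Pk (y j) u * if j < M then
    Real.exp (-2 * ((starRingEnd ℂ) (y j) * (mobC (y j) u : ℂ)).re) else 1)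

theorem pair_cont {N : ℕ} (M : ℕ) {z y : ℕ → ℂ} (hz : Adm N z) (hy : Adm N y) (j : ℕ) :
    Continuous (pair_g M z y j) := by
  have h1 : Continuous fun u : Circle => Pk (z j) u :=
    cont_Pk continuous_const continuous_id fun _ => hz.lt j
  have h2 : Continuous fun u : Circle => Pk (y j) u :=
    cont_Pk continuous_const continuous_id fun _ => hy.lt j
  have h3 : Continuous fun u : Circle => mobC (y j) u :=
    cont_mobC continuous_const continuous_id fun _ => hy.lt j
  have h4 : Continuous fun u : Circle => (mobC (y j) u : ℂ) := cont_coe.comp h3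
  unfold pair_g
  refine h1.mul (h2.mul ?_)
  by_cases h : j < M
  · simp only [if_pos h]; fun_prop
  · simp only [if_neg h]; exact continuous_const

theorem pair_nonneg {N : ℕ} (M : ℕ) {z y : ℕ → ℂ} (hz : Adm N z) (hy : Adm N y) (j : ℕ)
    (u : Circle) : 0 ≤ pair_g M z y j u := by
  refine mul_nonneg (Pk_nonneg (hz.lt j) _) (mul_nonneg (Pk_nonneg (hy.lt j) _) ?_)
  split_ifs
  · exact (Real.exp_pos _).le
  · exact zero_le_one

theorem pair_prod {N M : ℕ} (h : M ≤ N) (z y : ℕ → ℂ) (w : Om) :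
    ∏ j ∈ range N, pair_g M z y j (w j) = rho N z w * (rho N y w *
      ∏ j ∈ range M, Real.exp (-2 * ((starRingEnd ℂ) (y j) * (bet y w j : ℂ)).re)) := by
  unfold pair_g rho
  rw [prod_mul_distrib, prod_mul_distrib]
  congr 2
  rw [← prod_range_mul_prod_Ico _ h, prod_congr rfl fun j hj => if_pos (mem_range.1 hj),
    prod_eq_one fun j hj => if_neg (not_lt.2 (mem_Ico.1 hj).1), mul_one]
  rfl

theorem p_PAIR (hPP : S_PP) (hPK : S_PK) :
    S_PAIR := by
  intro D N M z y hMN hz hy hn
  have hc : Continuous fun w : Om => ∏ j ∈ range N, pair_g M z y j (w j) :=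
    continuous_finsetProd _ fun j _ => (pair_cont M hz hy j).comp (continuous_apply j)
  have c1 : Continuous fun w : Om => rho N z w :=
    cont_rho N continuous_const continuous_id fun _ => hz.lt
  have c2 : Continuous fun w : Om => rho N y w :=
    cont_rho N continuous_const continuous_id fun _ => hy.lt
  have c3 : Continuous fun w : Om => hw D N (fun j => (starRingEnd ℂ) (y j)) (bet y w) :=
    cont_hw D N continuous_const (cont_bet continuous_const continuous_id fun _ => hy.lt)
  have h1 := E_mono (c1.mul (c3.mul c2)) ((continuous_const (y := Real.exp (2 * (D + 1)))).mul hc)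
    fun w => by
      have a1 := pair_hw D hMN (fun j => (starRingEnd ℂ) (y j)) (bet y w)
      have a2 := mul_le_mul_of_nonneg_left
        (mul_le_mul_of_nonneg_right a1 (rho_nonneg N hy.lt w)) (rho_nonneg N hz.lt w)
      refine a2.trans_eq ?_
      simp only [Pi.mul_apply]
      rw [pair_prod hMN]
      ring
  refine le_trans h1 ?_
  refine (E_mul _ _).trans_le (mul_le_mul_of_nonneg_left ?_ (Real.exp_pos _).le)
  rw [E_prod _ fun j _ => pair_cont M hz hy j, ← prod_range_mul_prod_Ico _ hMN, Real.exp_sum]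
  have hn0 : ∀ j, 0 ≤ av (pair_g M z y j) := fun j => av_nonneg (pair_nonneg M hz hy j)
  refine mul_le_mul (prod_le_prod (fun j _ => hn0 j) fun j hj => ?_)
    (prod_le_prod (fun j _ => hn0 j) fun j hj => ?_) (prod_nonneg fun j _ => hn0 j)
    (prod_nonneg fun j _ => (Real.exp_pos _).le)
  · refine le_trans (le_of_eq (av_congr fun u => ?_)) (hPK (z j) (y j) (hz.1 j) (hn j))
    rw [pair_g, if_pos (mem_range.1 hj)]
  · refine le_trans (le_of_eq (av_congr fun u => ?_)) (hPP (z j) (y j) (hz.lt j) (hy.lt j))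
    rw [pair_g, if_neg (not_lt.2 (mem_Ico.1 hj).1), mul_one]

end Pool.Agent.P.MP_d14b1f_an.Nv
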