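import Pool.Agent.P.MP_d14b1f_an.Nv.IfaceL

/-! Step PATH. -/

set_option autoImplicit false

namespace Pool.Agent.P.MP_d14b1f_an.Nv

open Complex Filter Finset MeasureTheory Function Topology Asymptotics

theorem path_XX (i : ℕ) : Continuous fun w : Om => XX i (cz w) := by
  unfold XX cz; fun_prop

theorem path_SX (k : ℕ) : Continuous fun w : Om => SX k (cz w) := by
  unfold SX
  exact (continuous_finsetSum _ fun i _ => path_XX i).sub continuous_const

theorem path_TX (n : ℕ) (η : ℝ) : Continuous fun w : Om => TX n η (cz w) := by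
  unfold TX
  exact continuous_finsetSum _ fun i _ => continuous_const.mul (path_XX i)

theorem path_YY (n : ℕ) : Continuous fun w : Om => YY n (cz w) := by
  unfold YY
  exact continuous_finsetSum _ fun i _ =>
    Real.continuous_exp.comp (continuous_const.mul (path_SX i))

theorem path_YYpos (n : ℕ) (ζ : ℕ → ℂ) : 0 < YY n ζ :=
  sum_pos (fun _ _ => Real.exp_pos _) nonempty_range_add_one

theorem p_PATH (hPTW : S_PTW) (hCHAIN : S_CHAIN) (hXI : S_XI) :
    S_PATH := by
  intro η hη
  set q : ℝ := 1 - (1 - Real.exp (-(η / 16))) / 10 with hq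
  have he1 : Real.exp (-(η / 16)) < 1 := Real.exp_lt_one_iff.2 (by linarith)
  have he0 := Real.exp_pos (-(η / 16))
  have hq0 : 0 < q := by rw [hq]; linarith
  have hq1 : q < 1 := by rw [hq]; linarith
  set c1 : ℝ := -Real.log q with hc1
  have hc : 0 < c1 := by rw [hc1]; linarith [Real.log_neg hq0 hq1]
  refine ⟨c1 / 4, by positivity, max 28 ⌈128 / c1⌉₊, fun β hβ => ?_⟩
  have h28 : 28 ≤ β := le_trans (le_max_left _ _) hβ
  have hb2 : 128 / c1 ≤ β := Nat.ceil_le.1 (le_trans (le_max_right _ _) hβ)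
  have hb3 : 128 ≤ c1 * β := by rw [div_le_iff₀ hc] at hb2; linarith
  have hn : β ^ 3 = β * β ^ 2 := by ring
  have hβ0 : (0 : ℝ) < β := by exact_mod_cast (by omega : 0 < β)
  set a : ℝ := c1 * β / (4 * η) with ha
  have ha2 : 2 * η * a = c1 * β / 2 := by rw [ha]; field_simp; ring
  have hl : 768 ≤ β ^ 2 := by nlinarith
  rw [hn]
  set n := β * β ^ 2 with hndef
  have hnr : (n : ℝ) = (β : ℝ) ^ 3 := by rw [hndef]; push_cast; ring
  have hκ : 0 ≤ 2 * η / (n : ℝ) := by positivity
  have hch := hCHAIN β (β ^ 2) (2 * η / n) a hl hκ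
  have hs : Real.sqrt ((((β ^ 2 : ℕ) : ℝ)) ^ 3 / 256) = (β : ℝ) ^ 3 / 16 := by
    rw [show (((β ^ 2 : ℕ) : ℝ)) ^ 3 / 256 = ((β : ℝ) ^ 3 / 16) ^ 2 by push_cast; ring]
    exact Real.sqrt_sq (by positivity)
  have hk : -(2 * η / (n : ℝ)) * ((β : ℝ) ^ 3 / 16) / 2 = -(η / 16) := by
    rw [hnr]; field_simp
  rw [hs, hk, ← hq, ← hndef] at hch
  obtain ⟨hx1, hx2, -⟩ := hXI n
  set Z := ∏ i ∈ range n, ∏ j ∈ Lv i, Zr (rr j) with hZ
  have cA : Continuous fun w : Om => Real.exp (2 * ∑ i ∈ range n, XX i (cz w)) :=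
    Real.continuous_exp.comp (continuous_const.mul (continuous_finsetSum _ fun i _ => path_XX i))
  have cB : Continuous fun w : Om => ∏ c ∈ range β,
      Real.exp (-(2 * η / (n : ℝ)) * |∑ k ∈ Ico (c * β ^ 2) ((c + 1) * β ^ 2), (SX k (cz w) - a)|) :=
    continuous_finsetProd _ fun c _ => Real.continuous_exp.comp (continuous_const.mul
      (continuous_finsetSum _ fun k _ => (path_SX k).sub continuous_const).abs)
  have hqb : q ^ β = Real.exp (-(c1 * β)) := by
    rw [hc1, show -(-Real.log q * β) = β * Real.log q by ring, Real.exp_nat_mul, Real.exp_log hq0]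
  have hZ0 : 0 ≤ Z := hx1 ▸ E_nonneg fun w => (Real.exp_pos _).le
  set K := Real.exp (η * Real.log 2 * ((n : ℝ) - 1)) with hK
  have hK0 : 0 < K := Real.exp_pos _
  calc E (fun w => Real.exp (2 * TX n η (cz w)) * YY n (cz w) ^ (-2 * η))
      ≤ E (fun w => K * Real.exp (-2 * η * a) * Real.exp (2 * ∑ i ∈ range n, XX i (cz w)) +
          K * Real.exp (2 * η * a) * (Real.exp (2 * ∑ i ∈ range n, XX i (cz w)) * ∏ c ∈ range β,
            Real.exp (-(2 * η / (n : ℝ)) *
              |∑ k ∈ Ico (c * β ^ 2) ((c + 1) * β ^ 2), (SX k (cz w) - a)|))) := by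
        refine E_mono ((Real.continuous_exp.comp (continuous_const.mul (path_TX n η))).mul
          ((path_YY n).rpow_const fun w => Or.inl (path_YYpos n _).ne'))
          ((continuous_const.mul cA).add (continuous_const.mul (cA.mul cB))) fun w => ?_
        refine (hPTW β (β ^ 2) η a (cz w) (by positivity) hη.le).trans_eq ?_
        rw [← hndef, ← hK]; ring
    _ ≤ K * Real.exp (-2 * η * a) * Z + K * Real.exp (2 * η * a) * (Z * q ^ β) := by
        refine (E_add (continuous_const.mul cA) (continuous_const.mul (cA.mul cB))).trans_le ?_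
        refine (congrArg₂ (· + ·) (E_mul _ _) (E_mul _ _)).trans_le ?_
        rw [hx1]
        exact add_le_add le_rfl (mul_le_mul_of_nonneg_left hch (by positivity))
    _ = K * Z * (2 * Real.exp (-(c1 * β / 2))) := by
        have e1 : Real.exp (2 * η * a) * q ^ β = Real.exp (-(c1 * β / 2)) := by
          rw [hqb, ← Real.exp_add, ha2]; congr 1; ring
        have e2 : Real.exp (-2 * η * a) = Real.exp (-(c1 * β / 2)) := by
          rw [← ha2]; congr 1; ring
        rw [e2]
        linear_combination K * Z * e1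
    _ ≤ K * Real.exp (n * Real.log 2 + 31) * (Real.exp 1 * Real.exp (-(c1 * β / 2))) := by
        have h2 : (2 : ℝ) ≤ Real.exp 1 := by linarith [Real.add_one_le_exp (1 : ℝ)]
        gcongr
    _ ≤ _ := by
        rw [hK, ← Real.exp_add, ← Real.exp_add, ← Real.exp_add]
        refine Real.exp_le_exp.2 ?_
        unfold TB
        nlinarith

end Pool.Agent.P.MP_d14b1f_an.Nv
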