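import Pool.Agent.P.MP_d14b1f_an.Nv.IfaceU

/-! Step PK. -/

set_option autoImplicit false

namespace Pool.Agent.P.MP_d14b1f_an.Nv

open Complex Filter Finset MeasureTheory Function Topology Asymptotics

theorem pk_rem {x : ℂ} (hx : ‖x‖ ≤ 1) :
    ‖(1 + x) * Complex.exp (-x) - (1 - x ^ 2 / 2)‖ ≤ ‖x‖ ^ 3 := by
  have h := Complex.exp_bound (x := -x) (by simpa using hx) (n := 3) (by norm_num)
  simp only [sum_range_succ, range_zero, sum_empty, Nat.factorial, norm_neg] at h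
  norm_num at h
  set R := Complex.exp (-x) - (1 + -x + x ^ 2 / 2) with hR
  have e : (1 + x) * Complex.exp (-x) - (1 - x ^ 2 / 2) = (1 + x) * R + x ^ 3 / 2 := by
    rw [hR]; ring
  have h1 : ‖1 + x‖ ≤ 2 := (norm_add_le _ _).trans (by rw [norm_one]; linarith)
  have h2 : ‖(1 + x) * R‖ ≤ 2 * (‖x‖ ^ 3 * (2 / 9)) := by
    rw [norm_mul]
    exact mul_le_mul h1 h (norm_nonneg _) (by norm_num)
  have h3 : ‖x ^ 3 / 2‖ = ‖x‖ ^ 3 / 2 := by simp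
  have h4 : 0 ≤ ‖x‖ ^ 3 := by positivity
  rw [e]
  exact (norm_add_le _ _).trans (by rw [h3]; linarith)

theorem pk_pt {x : ℂ} (hx : ‖x‖ ≤ 1) :
    ‖1 + x‖ ^ 2 * Real.exp (-2 * x.re) ≤ 1 + 5 * ‖x‖ ^ 3 - (x ^ 2).re := by
  have e : ‖1 + x‖ ^ 2 * Real.exp (-2 * x.re) = ‖(1 + x) * Complex.exp (-x)‖ ^ 2 := by
    rw [norm_mul, Complex.norm_exp, mul_pow, ← Real.exp_nat_mul]
    simp
  have h0 := norm_nonneg x
  have h1 : ‖(1 + x) * Complex.exp (-x)‖ ≤ ‖1 - x ^ 2 / 2‖ + ‖x‖ ^ 3 := by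
    have := norm_add_le (1 - x ^ 2 / 2) ((1 + x) * Complex.exp (-x) - (1 - x ^ 2 / 2))
    rw [add_sub_cancel] at this
    linarith [pk_rem hx]
  have h2 : ‖1 - x ^ 2 / 2‖ ^ 2 = 1 - (x ^ 2).re + ‖x‖ ^ 4 / 4 := by
    have g : ‖x‖ ^ 4 = ‖x ^ 2‖ ^ 2 := by rw [norm_pow]; ring
    rw [g, Complex.sq_norm, Complex.sq_norm, Complex.normSq_apply, Complex.normSq_apply]
    generalize x ^ 2 = w
    simp
    ring
  have h3 : ‖1 - x ^ 2 / 2‖ ≤ 3 / 2 := by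
    refine (norm_sub_le _ _).trans ?_
    have : ‖x ^ 2 / 2‖ = ‖x‖ ^ 2 / 2 := by simp
    rw [norm_one, this]
    nlinarith
  have h4 : ‖x‖ ^ 4 ≤ ‖x‖ ^ 3 := pow_le_pow_of_le_one h0 hx (by norm_num)
  have h5 : ‖x‖ ^ 6 ≤ ‖x‖ ^ 3 := pow_le_pow_of_le_one h0 hx (by norm_num)
  have h6 : 0 ≤ ‖x‖ ^ 3 := by positivity
  rw [e]
  refine (pow_le_pow_left₀ (norm_nonneg _) h1 2).trans ?_
  have h7 : ‖1 - x ^ 2 / 2‖ * ‖x‖ ^ 3 ≤ 3 / 2 * ‖x‖ ^ 3 := mul_le_mul_of_nonneg_right h3 h6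
  nlinarith

theorem pk_ker {y : ℂ} (hy : ‖y‖ < 1) (u : Circle) :
    Pk y u = ‖1 + (starRingEnd ℂ) y * mob y u‖ ^ 2 / (1 - ‖y‖ ^ 2) := by
  have h := den_ne hy (Circle.norm_coe u).le
  have hp : 0 < 1 - ‖y‖ ^ 2 := by nlinarith [norm_nonneg y]
  have e : 1 + (starRingEnd ℂ) y * mob y u =
      ((1 - ‖y‖ ^ 2 : ℝ) : ℂ) / (1 - (starRingEnd ℂ) y * u) := by
    have g : ((‖y‖ : ℝ) : ℂ) ^ 2 = (starRingEnd ℂ) y * y := by
      rw [mul_comm, Complex.mul_conj, Complex.normSq_eq_norm_sq]; push_cast; rfl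
    push_cast
    rw [g, mob]
    field_simp
    ring
  have e2 : ‖1 - (starRingEnd ℂ) y * u‖ = ‖(u : ℂ) - y‖ := by
    have g : (u : ℂ) * (starRingEnd ℂ) u = 1 := by simp [Complex.mul_conj]
    have g2 : 1 - (starRingEnd ℂ) y * u = u * (starRingEnd ℂ) ((u : ℂ) - y) := by
      rw [map_sub, mul_sub, g]; ring
    rw [g2, norm_mul, Circle.norm_coe, Complex.norm_conj, one_mul]
  have h3 : ‖(u : ℂ) - y‖ ≠ 0 := norm_ne_zero_iff.2 (sub_ne hy u)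
  rw [e, norm_div, e2, Complex.norm_real, Real.norm_eq_abs, div_pow, sq_abs, Pk]
  field_simp

theorem pk_mob {z y : ℂ} (hz : ‖z‖ ^ 2 ≤ 1 / 2) (hy : ‖y‖ = ‖z‖) : ‖mob y z‖ ≤ 4 * ‖y‖ := by
  have h1 : 1 / 2 ≤ ‖1 - (starRingEnd ℂ) y * z‖ := by
    have := norm_sub_norm_le (1 : ℂ) ((starRingEnd ℂ) y * z)
    rw [norm_one, norm_mul, Complex.norm_conj, hy] at this
    nlinarith
  have h2 : ‖z - y‖ ≤ 2 * ‖y‖ := (norm_sub_le _ _).trans (by rw [hy]; linarith)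
  rw [mob, norm_div, div_le_iff₀ (by linarith)]
  nlinarith [norm_nonneg y]

theorem p_PK (hPOI : S_POI) :
    S_PK := by
  intro z y hz hy
  have z1 : ‖z‖ < 1 := by nlinarith [norm_nonneg z]
  have y1 : ‖y‖ < 1 := hy ▸ z1
  have y0 := norm_nonneg y
  have y2 : ‖y‖ ^ 2 ≤ 1 / 2 := hy ▸ hz
  have hp : 0 < 1 - ‖y‖ ^ 2 := by linarith
  set g : ℂ → ℂ := fun l => ((1 + 5 * ‖y‖ ^ 3 : ℝ) : ℂ) - ((starRingEnd ℂ) y * mob y l) ^ 2 with hg
  have gd : DifferentiableOn ℂ g (Metric.closedBall 0 1) := by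
    refine (differentiableOn_const _).sub (((differentiableOn_const _).mul ?_).pow 2)
    unfold mob
    exact DifferentiableOn.div (by fun_prop) (by fun_prop) fun l hl =>
      den_ne y1 (by simpa using hl)
  have gc : DiffContOnCl ℂ g (Metric.ball 0 1) :=
    DifferentiableOn.diffContOnCl (by rwa [closure_ball _ one_ne_zero])
  have gre : ∀ l, (g l).re = 1 + 5 * ‖y‖ ^ 3 - (((starRingEnd ℂ) y * mob y l) ^ 2).re := fun l => by
    rw [hg]; simp only [Complex.sub_re, Complex.ofReal_re]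
  have cP : ∀ w : ℂ, ‖w‖ < 1 → Continuous fun u : Circle => Pk w u := fun w hw =>
    cont_Pk continuous_const continuous_id fun _ => hw
  have cM : Continuous fun u : Circle => (mobC y u : ℂ) :=
    continuous_subtype_val.comp (cont_mobC continuous_const continuous_id fun _ => y1)
  have cM' : Continuous fun u : Circle => mob y u := by simpa only [coe_mobC y1] using cM
  have c1 := cP z z1
  have c2 := cP y y1
  have h1 : av (fun u => Pk z u * (Pk y u *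
      Real.exp (-2 * ((starRingEnd ℂ) y * (mobC y u : ℂ)).re))) ≤
      av (fun u => (1 - ‖y‖ ^ 2)⁻¹ * (Pk z u * (g u).re)) := by
    refine av_mono (by fun_prop) (by simp only [gre]; fun_prop) fun u => ?_
    have n : ‖(starRingEnd ℂ) y * mob y u‖ = ‖y‖ := by
      rw [norm_mul, Complex.norm_conj, ← coe_mobC y1, Circle.norm_coe, mul_one]
    have k := pk_pt (x := (starRingEnd ℂ) y * mob y u) (by rw [n]; exact y1.le)
    rw [n, ← gre] at k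
    rw [coe_mobC y1, pk_ker y1, mul_left_comm (1 - ‖y‖ ^ 2)⁻¹]
    refine mul_le_mul_of_nonneg_left ?_ (Pk_nonneg z1 u)
    rw [div_mul_eq_mul_div, div_eq_inv_mul]
    exact mul_le_mul_of_nonneg_left k (inv_nonneg.2 hp.le)
  rw [av_mul, hPOI z z1 g gc, gre] at h1
  refine h1.trans ?_
  have h2 : - (((starRingEnd ℂ) y * mob y z) ^ 2).re ≤ 16 * ‖y‖ ^ 3 := by
    have a1 := Complex.abs_re_le_norm (((starRingEnd ℂ) y * mob y z) ^ 2)
    rw [norm_pow, norm_mul, Complex.norm_conj] at a1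
    have a2 : ‖y‖ * ‖mob y z‖ ≤ ‖y‖ * (4 * ‖y‖) := mul_le_mul_of_nonneg_left (pk_mob hz hy) y0
    have a3 := pow_le_pow_left₀ (by positivity) a2 2
    have a4 : ‖y‖ ^ 4 ≤ ‖y‖ ^ 3 := pow_le_pow_of_le_one y0 y1.le (by norm_num)
    have a5 := neg_abs_le (((starRingEnd ℂ) y * mob y z) ^ 2).re
    nlinarith
  have h3 : (1 - ‖y‖ ^ 2)⁻¹ ≤ Real.exp (‖y‖ ^ 2 + 2 * ‖y‖ ^ 4) := by
    refine le_trans ?_ (Real.add_one_le_exp _)
    rw [inv_le_iff_one_le_mul₀ hp]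
    have : 0 ≤ ‖y‖ ^ 4 * (1 - 2 * ‖y‖ ^ 2) := mul_nonneg (by positivity) (by linarith)
    nlinarith
  have h4 : 1 + 5 * ‖y‖ ^ 3 - (((starRingEnd ℂ) y * mob y z) ^ 2).re ≤ Real.exp (21 * ‖y‖ ^ 3) :=
    le_trans (by linarith) (Real.add_one_le_exp _)
  have a4 : ‖y‖ ^ 4 ≤ ‖y‖ ^ 3 := pow_le_pow_of_le_one y0 y1.le (by norm_num)
  have a5 : 0 ≤ ‖y‖ ^ 3 := by positivity
  calc _ ≤ (1 - ‖y‖ ^ 2)⁻¹ * Real.exp (21 * ‖y‖ ^ 3) :=
        mul_le_mul_of_nonneg_left h4 (inv_nonneg.2 hp.le)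
    _ ≤ Real.exp (‖y‖ ^ 2 + 2 * ‖y‖ ^ 4) * Real.exp (21 * ‖y‖ ^ 3) :=
        mul_le_mul_of_nonneg_right h3 (Real.exp_pos _).le
    _ ≤ _ := by rw [← Real.exp_add]; exact Real.exp_le_exp.2 (by linarith)

end Pool.Agent.P.MP_d14b1f_an.Nv
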