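import Pool.Agent.P.MP_d14b1f_an.Nv.IfaceU

/-! Step POI. -/

set_option autoImplicit false

namespace Pool.Agent.P.MP_d14b1f_an.Nv

open Complex Filter Finset MeasureTheory Function Topology Asymptotics

theorem p_POI :
    S_POI := by
  intro z hz g hg
  have hw : z ∈ Metric.ball (0 : ℂ) 1 := by simpa using hz
  have h1 := hg.circleAverage_poissonKernel_smul hw
  have hgc : ContinuousOn g (Metric.sphere (0 : ℂ) |1|) := by
    have := hg.continuousOn
    rw [closure_ball _ one_ne_zero] at this
    exact this.mono (by simpa using Metric.sphere_subset_closedBall)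
  have hk : ContinuousOn (poissonKernel 0 z) (Metric.sphere (0 : ℂ) |1|) := by
    unfold poissonKernel
    refine ContinuousOn.div (by fun_prop) (by fun_prop) fun x hx => ?_
    refine pow_ne_zero _ (norm_ne_zero_iff.2 ?_)
    intro h
    have hx1 : ‖x‖ = 1 := by simpa using hx
    have : x = z := by simpa [sub_eq_zero] using h
    rw [this] at hx1
    linarith
  have hi : CircleIntegrable (poissonKernel 0 z • g) 0 1 :=
    (hk.smul hgc).circleIntegrable'
  have h2 := Complex.reCLM.circleAverage_comp_comm hi
  rw [h1] at h2
  have h3 := av_eq (Complex.reCLM ∘ (poissonKernel 0 z • g))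
  rw [h2] at h3
  rw [← show Complex.reCLM (g z) = (g z).re from rfl, ← h3]
  refine av_congr fun u => ?_
  have hs : (Complex.reCLM ∘ (poissonKernel 0 z • g)) (u : ℂ) =
      poissonKernel 0 z u * (g u).re := by
    show (poissonKernel 0 z u • g u).re = _
    rw [Complex.smul_re, smul_eq_mul]
  rw [hs]
  simp [Pk, poissonKernel]

end Pool.Agent.P.MP_d14b1f_an.Nv
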