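import Pool.Agent.P.MP_d14b1f_an.Nv.IfaceU

/-! Step PP. -/

set_option autoImplicit false

namespace Pool.Agent.P.MP_d14b1f_an.Nv

open Complex Filter Finset MeasureTheory Function Topology Asymptotics

theorem pp_re (w : ℂ) : ((1 + w) / (1 - w)).re = (1 - ‖w‖ ^ 2) / ‖1 - w‖ ^ 2 := by
  rw [Complex.div_re, ← add_div, Complex.sq_norm, Complex.sq_norm]
  congr 1
  simp [Complex.normSq_apply]
  ring

theorem pp_Pk (y : ℂ) (u : Circle) :
    Pk y u = ((1 + (starRingEnd ℂ) y * u) / (1 - (starRingEnd ℂ) y * u)).re := by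
  have h1 : (starRingEnd ℂ) (u : ℂ) * u = 1 := by
    rw [mul_comm]
    simp [Complex.mul_conj]
  have h2 : 1 - (starRingEnd ℂ) y * u = (starRingEnd ℂ) ((u : ℂ) - y) * u := by
    rw [map_sub, sub_mul, h1]
  rw [pp_re, h2, norm_mul, norm_mul, Complex.norm_conj, Complex.norm_conj, Circle.norm_coe,
    mul_one, mul_one, Pk]

theorem p_PP (hPOI : S_POI) :
    S_PP := by
  intro z y hz hy
  have hd : DiffContOnCl ℂ (fun ζ : ℂ => (1 + (starRingEnd ℂ) y * ζ) / (1 - (starRingEnd ℂ) y * ζ))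
      (Metric.ball 0 1) := by
    refine DifferentiableOn.diffContOnCl ?_
    rw [closure_ball _ one_ne_zero]
    exact DifferentiableOn.div (by fun_prop) (by fun_prop) fun ζ hζ =>
      den_ne hy (by simpa using hζ)
  have h := hPOI z hz _ hd
  rw [av_congr (g := fun u => Pk z u *
    ((1 + (starRingEnd ℂ) y * u) / (1 - (starRingEnd ℂ) y * u)).re) fun u => by rw [← pp_Pk],
    h, pp_re, mul_comm z]
  exact div_le_div_of_nonneg_right (by nlinarith [sq_nonneg ‖(starRingEnd ℂ) y * z‖])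
    (by positivity)

end Pool.Agent.P.MP_d14b1f_an.Nv
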