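import Pool.Agent.P.MP_d14b1f_an.Nv.IfaceU

/-! Step PT. -/

set_option autoImplicit false

namespace Pool.Agent.P.MP_d14b1f_an.Nv

open Complex Filter Finset MeasureTheory Function Topology Asymptotics

theorem pt_exp {x : ℝ} (h0 : 0 ≤ x) (h1 : x ≤ 1 / 2) : 1 / (1 - x) ^ 2 ≤ Real.exp (4 * x) := by
  have h2 : 1 / (1 - x) ≤ Real.exp (2 * x) := by
    refine le_trans ?_ (Real.add_one_le_exp _)
    rw [div_le_iff₀ (by linarith)]
    nlinarith
  have h3 : 0 ≤ 1 / (1 - x) := div_nonneg zero_le_one (by linarith)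
  calc 1 / (1 - x) ^ 2 = (1 / (1 - x)) ^ 2 := by rw [div_pow, one_pow]
    _ ≤ Real.exp (2 * x) ^ 2 := pow_le_pow_left₀ h3 h2 2
    _ = Real.exp (4 * x) := by rw [← Real.exp_nat_mul]; congr 1; push_cast; ring

theorem pt_one (hPP : S_PP) {z : ℂ} (hz : ‖z‖ ^ 2 ≤ 1 / 2) :
    av (fun u => Pk z u * Pk z u) ≤ Real.exp (4 * ‖z‖ ^ 2) := by
  have h1 : ‖z‖ < 1 := by nlinarith [norm_nonneg z]
  refine (hPP z z h1 h1).trans (le_trans (le_of_eq ?_) (pt_exp (by positivity) hz))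
  have e : (1 : ℂ) - z * (starRingEnd ℂ) z = ((1 - ‖z‖ ^ 2 : ℝ) : ℂ) := by
    rw [Complex.mul_conj']; push_cast; ring
  rw [e, Complex.norm_real, Real.norm_eq_abs, sq_abs]

theorem pt_sq (hPP : S_PP) {N : ℕ} {z : ℕ → ℂ} (hz : Adm N z) :
    E (fun w => rho N z w ^ 2) ≤ Real.exp (4 * ∑ j ∈ range N, ‖z j‖ ^ 2) := by
  have hc : ∀ j, Continuous fun u : Circle => Pk (z j) u := fun j =>
    cont_Pk continuous_const continuous_id fun _ => hz.lt j
  have e : E (fun w => rho N z w ^ 2) =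
      E fun w => ∏ j ∈ range N, (fun j u => Pk (z j) u * Pk (z j) u) j (w j) :=
    E_congr fun w => by rw [rho, sq, ← prod_mul_distrib]
  rw [e, E_prod (g := fun j u => Pk (z j) u * Pk (z j) u) _ fun j _ => (hc j).mul (hc j),
    mul_sum, Real.exp_sum]
  exact prod_le_prod (fun j _ => av_nonneg fun u => mul_self_nonneg _)
    fun j _ => pt_one hPP (hz.1 j)

theorem pt_sum {δ : ℝ} (hδ : 0 < δ) (N : ℕ) {s : ℂ} (hs : 1 / 2 + δ ≤ s.re) :
    ∑ j ∈ range N, ‖zs N s j‖ ^ 2 ≤ ∑' n : ℕ, (n : ℝ) ^ (-(1 + 2 * δ)) := by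
  have hS : Summable fun n : ℕ => (n : ℝ) ^ (-(1 + 2 * δ)) :=
    Real.summable_nat_rpow.2 (by linarith)
  refine le_trans (sum_le_sum fun j _ => ?_) (hS.sum_le_tsum _ fun n _ => by positivity)
  rw [norm_zs]
  split_ifs with h
  · have h1 : (1 : ℝ) ≤ j := by exact_mod_cast h.1.one_le
    rw [← Real.rpow_natCast, ← Real.rpow_mul (by positivity)]
    exact Real.rpow_le_rpow_of_exponent_le h1 (by push_cast; linarith)
  · rw [zero_pow two_ne_zero]; positivity

theorem p_PT (hMOB : S_MOB) (hJEN : S_JEN) (hENT : S_ENT) (hPP : S_PP) :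
    S_PT := by
  intro p δ B hp hδ
  set T : ℝ := 4 * ∑' n : ℕ, (n : ℝ) ^ (-(1 + 2 * δ)) with hT
  have hT0 : 0 ≤ T := mul_nonneg (by norm_num) (tsum_nonneg fun n => by positivity)
  refine ⟨Real.exp ((T + 2 + B) / p), Real.exp_pos _, fun P s hs hB => ?_⟩
  obtain ⟨N, hN⟩ := lift_zs P
  have hz : Adm N (zs N s) := adm_zs N (by linarith)
  have hcr : Continuous (rho N (zs N s)) :=
    cont_rho N continuous_const continuous_id fun _ j => hz.lt j
  have h1 := hJEN N _ hz P (fun _ => 1) continuous_const (fun _ => zero_le_one) fun _ _ => rfl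
  simp only [E_const, one_mul, hN N le_rfl s] at h1
  have h2 := hMOB N _ hz (fun _ => 1) continuous_const
  simp only [E_const, one_mul] at h2
  have h3 := hENT p (Real.exp T) (rho N (zs N s)) (fun w => ‖lift P (cz w)‖) hp
    (Real.one_le_exp hT0) hcr (by fun_prop) (rho_nonneg N hz.lt) (fun _ => norm_nonneg _) h2.le
  have h4 : E (fun w => rho N (zs N s) w ^ 2) / Real.exp T ≤ 1 := by
    rw [div_le_one (Real.exp_pos _)]
    exact (pt_sq hPP hz).trans (Real.exp_le_exp.2 (by linarith [pt_sum hδ N hs]))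
  rw [Real.log_exp] at h3
  have h5 : lp ‖dp P s‖ ≤ (T + 2 + B) / p := by
    rw [le_div_iff₀ hp]
    have h6 := mul_le_mul_of_nonneg_left h1 hp.le
    have h7 : (E fun w => ‖lift P (cz w)‖ ^ p) = Np p P := rfl
    linarith
  calc ‖dp P s‖ ≤ max 1 ‖dp P s‖ := le_max_right _ _
    _ = Real.exp (lp ‖dp P s‖) :=
      (Real.exp_log (lt_of_lt_of_le one_pos (le_max_left _ _))).symm
    _ ≤ _ := Real.exp_le_exp.2 h5

end Pool.Agent.P.MP_d14b1f_an.Nv
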