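import Pool.Agent.P.MP_d14b1f_an.Nv.IfaceL

/-! Step PTW. -/

set_option autoImplicit false

namespace Pool.Agent.P.MP_d14b1f_an.Nv

open Complex Filter Finset MeasureTheory Function Topology Asymptotics

theorem ptw_abel (x : ℕ → ℝ) (n : ℕ) :
    ∑ i ∈ range n, ((n : ℝ) - 1 - i) * x i = ∑ k ∈ range n, ∑ i ∈ range k, x i := by
  induction n with
  | zero => simp
  | succ n ih =>
    rw [sum_range_succ, sum_range_succ (fun k => ∑ i ∈ range k, x i), ← ih, ← sum_add_distrib]
    push_cast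
    rw [show ((n : ℝ) + 1 - 1 - n) * x n = 0 by ring, add_zero]
    exact sum_congr rfl fun i _ => by ring

theorem ptw_gauss (n : ℕ) : ∑ k ∈ range n, (k : ℝ) = n * (n - 1) / 2 := by
  induction n with
  | zero => simp
  | succ n ih => rw [sum_range_succ, ih]; push_cast; ring

theorem ptw_blocks (f : ℕ → ℝ) (b l : ℕ) :
    ∑ k ∈ range (b * l), f k = ∑ c ∈ range b, ∑ k ∈ Ico (c * l) ((c + 1) * l), f k := by
  induction b with
  | zero => simp
  | succ b ih =>
    rw [sum_range_succ, ← ih, sum_range_add_sum_Ico _ (Nat.mul_le_mul_right l (Nat.le_succ b))]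

theorem ptw_TX (n : ℕ) (hn : 0 < n) (η : ℝ) (ζ : ℕ → ℂ) :
    2 * TX n η ζ = η * Real.log 2 * ((n : ℝ) - 1) + 2 * ∑ i ∈ range n, XX i ζ +
      2 * η / n * ∑ k ∈ range n, SX k ζ := by
  have h0 : (n : ℝ) ≠ 0 := by exact_mod_cast hn.ne'
  have h1 : TX n η ζ = ∑ i ∈ range n, XX i ζ +
      η / n * ∑ i ∈ range n, ((n : ℝ) - 1 - i) * XX i ζ := by
    rw [TX, mul_sum, ← sum_add_distrib]
    refine sum_congr rfl fun i _ => ?_
    rw [th]; ring
  have h2 : ∑ k ∈ range n, SX k ζ =
      ∑ k ∈ range n, ∑ i ∈ range k, XX i ζ - n * (n - 1) / 2 * Real.log 2 := by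
    simp only [SX]
    rw [sum_sub_distrib, ← sum_mul, ptw_gauss]
  rw [h1, h2, ptw_abel]
  field_simp
  ring

theorem p_PTW :
    S_PTW := by
  intro b l η a ζ hn hη
  have hb := ptw_blocks (fun k => SX k ζ - a) b l
  have hlt : ∀ c ∈ range b, ∀ k ∈ Ico (c * l) ((c + 1) * l), k ∈ range (b * l + 1) := by
    intro c hc k hk
    have h1 : (c + 1) * l ≤ b * l := Nat.mul_le_mul_right l (mem_range.1 hc)
    have h2 := (mem_Ico.1 hk).2
    exact mem_range.2 (by omega)
  generalize b * l = n at hn hb hlt ⊢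
  have h0 : (0 : ℝ) < n := by exact_mod_cast hn
  obtain ⟨k0, hk0, hmax⟩ := exists_max_image (range (n + 1)) (fun k => SX k ζ)
    ⟨0, mem_range.2 (Nat.succ_pos n)⟩
  have hH : 0 ≤ SX k0 ζ := by
    have := hmax 0 (mem_range.2 (Nat.succ_pos n))
    simpa [SX] using this
  have hY : Real.exp (2 * SX k0 ζ) ≤ YY n ζ :=
    single_le_sum (f := fun k => Real.exp (2 * SX k ζ)) (fun k _ => (Real.exp_pos _).le) hk0
  have hY2 : YY n ζ ^ (-2 * η) ≤ Real.exp (2 * SX k0 ζ * (-2 * η)) := by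
    rw [Real.exp_mul]
    exact Real.rpow_le_rpow_of_nonpos (Real.exp_pos _) hY (by linarith)
  have hc : 0 ≤ 2 * η / n := by positivity
  have key : Real.exp (2 * η / n * ∑ k ∈ range n, SX k ζ) * Real.exp (2 * SX k0 ζ * (-2 * η)) ≤
      Real.exp (-2 * η * a) + Real.exp (2 * η * a) * ∏ c ∈ range b,
        Real.exp (-(2 * η / n) * |∑ k ∈ Ico (c * l) ((c + 1) * l), (SX k ζ - a)|) := by
    rw [← Real.exp_add]
    rcases le_or_gt a (SX k0 ζ) with h | h
    · have h1 : ∑ k ∈ range n, SX k ζ ≤ n * SX k0 ζ := by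
        have := sum_le_card_nsmul (range n) (fun k => SX k ζ) (SX k0 ζ) fun k hk =>
          hmax k (mem_range.2 (Nat.lt_succ_of_lt (mem_range.1 hk)))
        simpa using this
      have h2 := mul_le_mul_of_nonneg_left h1 hc
      have h3 : 2 * η / n * (n * SX k0 ζ) = 2 * η * SX k0 ζ := by field_simp
      have h4 := mul_le_mul_of_nonneg_left h hη
      refine le_add_of_le_of_nonneg (Real.exp_le_exp.2 (by linarith)) ?_
      exact mul_nonneg (Real.exp_pos _).le (prod_nonneg fun c _ => (Real.exp_pos _).le)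
    · refine le_add_of_nonneg_of_le (Real.exp_pos _).le ?_
      rw [← Real.exp_sum, ← Real.exp_add]
      refine Real.exp_le_exp.2 ?_
      have h1 : ∑ c ∈ range b, -(2 * η / n) * |∑ k ∈ Ico (c * l) ((c + 1) * l), (SX k ζ - a)| =
          2 * η / n * ∑ k ∈ range n, (SX k ζ - a) := by
        rw [hb, mul_sum]
        refine sum_congr rfl fun c hc => ?_
        rw [abs_of_nonpos (sum_nonpos fun k hk => by linarith [hmax k (hlt c hc k hk)])]
        ring
      have h2 : 2 * η / n * ∑ k ∈ range n, (SX k ζ - a) =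
          2 * η / n * ∑ k ∈ range n, SX k ζ - 2 * η * a := by
        rw [sum_sub_distrib, sum_const, card_range, nsmul_eq_mul]
        field_simp
      have h3 := mul_nonneg hH hη
      rw [h1, h2]
      linarith
  rw [ptw_TX n hn, Real.exp_add, Real.exp_add, mul_assoc _ _ (YY n ζ ^ (-2 * η))]
  refine mul_le_mul_of_nonneg_left ?_ (mul_pos (Real.exp_pos _) (Real.exp_pos _)).le
  exact (mul_le_mul_of_nonneg_left hY2 (Real.exp_pos _).le).trans key

end Pool.Agent.P.MP_d14b1f_an.Nv
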