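import Pool.Agent.P.MP_d14b1f_an.Nv.IfaceU

/-! Step SEC. -/

set_option autoImplicit false

namespace Pool.Agent.P.MP_d14b1f_an.Nv

open Complex Filter Finset MeasureTheory Function Topology Asymptotics

theorem sec_swap {W : ℝ → Om → ℝ} (hW : Continuous (uncurry W)) (a b : ℝ) :
    E (fun w => (∫ t in a..b, W t w) ^ 2) = ∫ t in a..b, ∫ u in a..b, E fun w => W t w * W u w := by
  have h1 : Continuous (uncurry fun (x : ℝ × Om) (u : ℝ) => W x.1 x.2 * W u x.2) :=
    (hW.comp continuous_fst).mul (hW.comp (continuous_snd.prodMk continuous_fst.snd))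
  have h2 : Continuous (uncurry fun (t : ℝ) (w : Om) => ∫ u in a..b, W t w * W u w) :=
    intervalIntegral.continuous_parametric_intervalIntegral_of_continuous' h1 a b
  have h3 : ∀ w, (∫ t in a..b, W t w) ^ 2 = ∫ t in a..b, ∫ u in a..b, W t w * W u w := fun w => by
    simp only [intervalIntegral.integral_const_mul, intervalIntegral.integral_mul_const, sq]
  rw [E_congr h3, E_int_swap h2]
  refine intervalIntegral.integral_congr fun t _ => ?_
  exact E_int_swap (F := fun u w => W t w * W u w)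
    ((hW.comp (continuous_const.prodMk continuous_snd)).mul hW) a b

theorem sec_cont {W : ℝ → Om → ℝ} (hW : Continuous (uncurry W)) (t : ℝ) : Continuous (W t) :=
  hW.comp (continuous_const.prodMk continuous_id)

theorem sec_main {W : ℝ → Om → ℝ} (hW : Continuous (uncurry W)) {δ t0 K L : ℝ} (h0 : 0 < δ)
    (hK : 0 ≤ K) (key : ∀ t u : ℝ, |t - u| ≤ 1 → E (fun w => W t w * W u w) ≤ K * (1 / max |t - u| δ))
    (hI : ∀ t, t0 ≤ t → t ≤ t0 + 1 → ∫ u in t0..t0 + 1, 1 / max |t - u| δ ≤ L) :
    E (fun w => (∫ t in t0..t0 + 1, W t w) ^ 2) ≤ K * L := by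
  have hE : Continuous (uncurry fun t u : ℝ => E fun w => W t w * W u w) :=
    cont_E (F := fun (x : ℝ × ℝ) w => W x.1 w * W x.2 w)
      ((hW.comp (continuous_fst.fst.prodMk continuous_snd)).mul
        (hW.comp (continuous_fst.snd.prodMk continuous_snd)))
  have hle : t0 ≤ t0 + 1 := by linarith
  have inner : ∀ t ∈ Set.Icc t0 (t0 + 1),
      (∫ u in t0..t0 + 1, E fun w => W t w * W u w) ≤ K * L := by
    intro t ht
    have hk : Continuous fun u : ℝ => K * (1 / max |t - u| δ) :=
      continuous_const.mul (continuous_const.div (by fun_prop) fun u =>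
        (lt_of_lt_of_le h0 (le_max_right _ _)).ne')
    have hu : Continuous fun u : ℝ => E fun w => W t w * W u w :=
      hE.comp (continuous_const.prodMk continuous_id)
    refine (intervalIntegral.integral_mono_on hle (hu.intervalIntegrable _ _)
      (hk.intervalIntegrable _ _) fun u hu =>
        key t u (abs_le.2 ⟨by linarith [ht.1, hu.2], by linarith [ht.2, hu.1]⟩)).trans ?_
    rw [intervalIntegral.integral_const_mul]
    exact mul_le_mul_of_nonneg_left (hI t ht.1 ht.2) hK
  have ht : Continuous fun t : ℝ => ∫ u in t0..t0 + 1, E fun w => W t w * W u w :=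
    intervalIntegral.continuous_parametric_intervalIntegral_of_continuous' hE _ _
  rw [sec_swap hW]
  refine (intervalIntegral.integral_mono_on hle (ht.intervalIntegrable _ _)
    (continuous_const.intervalIntegrable _ _) inner).trans (le_of_eq ?_)
  simp

theorem p_SEC (hPAIR : S_PAIR) (hNT2 : S_NT2) (hINT : S_INT) :
    S_SEC := by
  obtain ⟨C, hC, h2⟩ := hNT2
  refine ⟨Real.exp 2 * C * 2, by positivity, fun δ h0 h1 => ?_⟩
  obtain ⟨N0, h3⟩ := h2 δ h0 h1
  refine ⟨N0, fun N hN D t0 => ?_⟩
  have hσ : (1 : ℝ) / 2 ≤ 1 / 2 + δ := by linarith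
  have hW := cont_WW D N hσ
  have ha : ∀ t : ℝ, Adm N (zs N ((1 / 2 + δ : ℝ) + t * I)) := fun t =>
    adm_zs N (by simpa using h0.le)
  have key : ∀ t u : ℝ, |t - u| ≤ 1 → E (fun w => WW D N (1 / 2 + δ) t w * WW D N (1 / 2 + δ) u w) ≤
      Real.exp (2 * (D + 1)) * C * (1 / max |t - u| δ) := by
    intro t u htu
    obtain ⟨M, hM, h4⟩ := h3 N hN t u htu
    have h5 := hPAIR D N M _ _ hM (ha t) (ha u) fun j => by simp [norm_zs]
    have hr : Continuous fun w : Om => rho N (zs N ((1 / 2 + δ : ℝ) + t * I)) w :=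
      cont_rho N continuous_const continuous_id fun _ => (ha t).lt
    have h6 : E (fun w => WW D N (1 / 2 + δ) t w * WW D N (1 / 2 + δ) u w) ≤
        E fun w => rho N (zs N ((1 / 2 + δ : ℝ) + t * I)) w * WW D N (1 / 2 + δ) u w :=
      E_mono ((sec_cont hW t).mul (sec_cont hW u)) (hr.mul (sec_cont hW u)) fun w =>
        mul_le_mul_of_nonneg_right
          (mul_le_of_le_one_left (rho_nonneg N (ha t).lt w) (hw_le_one _ _ _ _))
          (WW_nonneg D N hσ u w)
    refine (h6.trans h5).trans ?_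
    rw [mul_assoc, mul_one_div]
    exact mul_le_mul_of_nonneg_left h4 (Real.exp_pos _).le
  refine (sec_main hW h0 (by positivity) key fun t => hINT δ t0 t h0 h1).trans (le_of_eq ?_)
  rw [mul_add 2 D, mul_one, Real.exp_add]
  ring

end Pool.Agent.P.MP_d14b1f_an.Nv
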