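import Pool.Agent.P.MP_d14b1f_an.Nv.IfaceL
import Pool.Agent.P.MP_d14b1f_an.Nv.IfaceU

/-! Step SER. -/

set_option autoImplicit false

namespace Pool.Agent.P.MP_d14b1f_an.Nv

open Complex Filter Finset MeasureTheory Function Topology Asymptotics

theorem ser_half (s : Finset ℕ) : ∑ k ∈ s, (1 / 2 : ℝ) ^ (k + 1) ≤ 1 := by
  have h := sum_le_hasSum s (fun k _ => by positivity) (hasSum_geometric_two' 1)
  refine le_trans (le_of_eq (sum_congr rfl fun k _ => ?_)) h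
  rw [pow_succ, one_div_pow]; ring

theorem ser_pt {p : ℝ} (hp : 0 < p) (c : ℕ → ℝ)
    (hc : ∀ k, 0 ≤ c k ∧ c k ≤ (1 / 2) ^ (k + 1) * (1 / 2 : ℝ) ^ (k / p)) (s : Finset ℕ)
    (x : ℕ → ℂ) : ‖∑ k ∈ s, (c k : ℂ) * x k‖ ^ p ≤ ∑ k ∈ s, (1 / 2 : ℝ) ^ k * ‖x k‖ ^ p := by
  rcases s.eq_empty_or_nonempty with rfl | hs
  · simp [Real.zero_rpow hp.ne']
  obtain ⟨k0, hk0, hmax⟩ := s.exists_max_image (fun k => (1 / 2 : ℝ) ^ (k / p) * ‖x k‖) hs
  have h1 : ‖∑ k ∈ s, (c k : ℂ) * x k‖ ≤ (1 / 2 : ℝ) ^ (k0 / p) * ‖x k0‖ := by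
    refine (norm_sum_le _ _).trans ?_
    calc ∑ k ∈ s, ‖(c k : ℂ) * x k‖
        ≤ ∑ k ∈ s, (1 / 2 : ℝ) ^ (k + 1) * ((1 / 2 : ℝ) ^ (k0 / p) * ‖x k0‖) := by
          refine sum_le_sum fun k hk => ?_
          rw [norm_mul, Complex.norm_real, Real.norm_of_nonneg (hc k).1]
          refine (mul_le_mul_of_nonneg_right (hc k).2 (norm_nonneg _)).trans ?_
          rw [mul_assoc]
          exact mul_le_mul_of_nonneg_left (hmax k hk) (by positivity)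
      _ ≤ _ := by
          rw [← sum_mul]
          exact mul_le_of_le_one_left (by positivity) (ser_half s)
  refine (Real.rpow_le_rpow (norm_nonneg _) h1 hp.le).trans ?_
  rw [Real.mul_rpow (by positivity) (norm_nonneg _), ← Real.rpow_mul (by norm_num),
    div_mul_cancel₀ _ hp.ne', Real.rpow_natCast]
  exact single_le_sum (f := fun k => (1 / 2 : ℝ) ^ k * ‖x k‖ ^ p) (fun k _ => by positivity) hk0

theorem ser_Np {p : ℝ} (hp : 0 < p) (P : ℕ → (ℕ →₀ ℂ)) (c : ℕ → ℝ) (hP : ∀ k, Np p (P k) ≤ 1)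
    (hc : ∀ k, 0 ≤ c k ∧ c k ≤ (1 / 2) ^ (k + 1) * (1 / 2 : ℝ) ^ (k / p)) {m K : ℕ} (h : m ≤ K) :
    Np p (∑ k ∈ range K, (c k : ℂ) • P k - ∑ k ∈ range m, (c k : ℂ) • P k) ≤ 2 * (1 / 2) ^ m := by
  rw [← sum_Ico_eq_sub _ h]
  have hcont : ∀ Q : ℕ →₀ ℂ, Continuous fun w : Om => ‖lift Q (cz w)‖ ^ p := fun Q =>
    Continuous.rpow_const (by fun_prop) fun _ => Or.inr hp.le
  have h1 : Np p (∑ k ∈ Ico m K, (c k : ℂ) • P k) ≤
      E fun w => ∑ k ∈ Ico m K, (1 / 2 : ℝ) ^ k * ‖lift (P k) (cz w)‖ ^ p := by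
    refine E_mono (hcont _) (continuous_finset_sum _ fun k _ => continuous_const.mul (hcont _))
      fun w => ?_
    simp only [lift_sum, lift_smul]
    exact ser_pt hp c hc _ _
  refine h1.trans ?_
  rw [E_sum (F := fun k w => (1 / 2 : ℝ) ^ k * ‖lift (P k) (cz w)‖ ^ p) _
    fun k _ => continuous_const.mul (hcont _)]
  calc ∑ k ∈ Ico m K, E (fun w => (1 / 2 : ℝ) ^ k * ‖lift (P k) (cz w)‖ ^ p)
      ≤ ∑ k ∈ Ico m K, (1 / 2 : ℝ) ^ k := by
        refine sum_le_sum fun k _ => ?_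
        rw [E_mul]
        exact mul_le_of_le_one_right (by positivity) (hP k)
    _ ≤ (1 / 2) ^ m / (1 - 1 / 2) := geom_sum_Ico_le_of_lt_one (by norm_num) (by norm_num)
    _ = _ := by ring

theorem ser_c {p : ℝ} (hp : 0 < p) {c : ℕ → ℝ}
    (hc : ∀ k, 0 ≤ c k ∧ c k ≤ (1 / 2) ^ (k + 1) * (1 / 2 : ℝ) ^ (k / p)) (k : ℕ) :
    c k ≤ (1 / 2) ^ k := by
  refine (hc k).2.trans ?_
  have h1 : (1 / 2 : ℝ) ^ (k / p) ≤ 1 :=
    Real.rpow_le_one (by norm_num) (by norm_num) (by positivity)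
  have h2 : (0 : ℝ) < (1 / 2) ^ k := by positivity
  rw [pow_succ]
  nlinarith [Real.rpow_nonneg (show (0 : ℝ) ≤ 1 / 2 by norm_num) (k / p)]

theorem p_SER (hKW : S_KW) (hPT : S_PT) :
    S_SER := by
  intro p hp P c hP hc
  have hb : ∀ σ : ℝ, 1 / 2 < σ → ∃ C : ℝ, ∀ s : ℂ, σ ≤ s.re → ∀ k,
      ‖(c k : ℂ) * dp (P k) s‖ ≤ C * (1 / 2) ^ k := by
    intro σ hσ
    obtain ⟨C, hC, h⟩ := hPT p (σ - 1 / 2) 1 hp (by linarith)
    refine ⟨C, fun s hs k => ?_⟩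
    rw [norm_mul, Complex.norm_real, Real.norm_of_nonneg (hc k).1, mul_comm C]
    exact mul_le_mul (ser_c hp hc k) (h _ s (by linarith) (hP k)) (norm_nonneg _) (by positivity)
  refine ⟨⟨fun K => ∑ k ∈ range K, (c k : ℂ) • P k, fun ε hε => ?_, fun s hs => ?_⟩,
    fun σ hσ => ?_⟩
  · obtain ⟨N, hN⟩ := exists_pow_lt_of_lt_one (show 0 < ε / 2 by positivity)
      (show (1 / 2 : ℝ) < 1 by norm_num)
    have key : ∀ m ≥ N, 2 * (1 / 2 : ℝ) ^ m < ε := fun m hm => by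
      have := pow_le_pow_of_le_one (show (0 : ℝ) ≤ 1 / 2 by norm_num) (by norm_num) hm
      linarith
    refine ⟨N, fun k hk m hm => ?_⟩
    rw [mean, (hKW p hp _).limsup_eq]
    rcases le_total m k with h | h
    · exact (ser_Np hp P c hP hc h).trans_lt (key m hm)
    · refine lt_of_eq_of_lt ?_ ((ser_Np hp P c hP hc h).trans_lt (key k hk))
      refine E_congr fun w => ?_
      rw [lift_sub, lift_sub, norm_sub_rev]
  · obtain ⟨C, h⟩ := hb s.re hs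
    have hsum : Summable fun k => (c k : ℂ) * dp (P k) s :=
      Summable.of_norm_bounded (summable_geometric_two.mul_left C) (h s le_rfl)
    simp only [dp_sum, dp_smul]
    exact hsum.hasSum.tendsto_sum_nat
  · obtain ⟨C, h⟩ := hb σ hσ
    exact continuous_tsum (fun k => by fun_prop) (summable_geometric_two.mul_left C)
      fun k t => h _ (by simp) k

end Pool.Agent.P.MP_d14b1f_an.Nv
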