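import Pool.Agent.P.MP_d14b1f_an.Nv.IfaceL

/-! Step SG. -/

set_option autoImplicit false

namespace Pool.Agent.P.MP_d14b1f_an.Nv

open Complex Filter Finset MeasureTheory Function Topology Asymptotics

theorem sg_norm (A x : ℂ) (u : Circle) :
    ‖A + (u : ℂ) * x‖ ^ 2 = (‖A‖ ^ 2 + ‖x‖ ^ 2) + 2 * ((starRingEnd ℂ) A * x * u).re := by
  have h1 : ‖(u : ℂ) * x‖ = ‖x‖ := by simp
  rw [← h1, Complex.sq_norm, Complex.sq_norm, Complex.sq_norm, Complex.normSq_add]
  simp only [mul_re, mul_im, conj_re, conj_im]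
  ring

theorem sg_sq (M : ℕ) (x : ℕ → ℂ) :
    E (fun c => ‖∑ ν ∈ range M, (c ν : ℂ) * x ν‖ ^ 2) = ∑ ν ∈ range M, ‖x ν‖ ^ 2 := by
  induction M with
  | zero => simp [E_const]
  | succ M ih =>
    rw [E_step M (by fun_prop), sum_range_succ (fun ν => ‖x ν‖ ^ 2), ← ih, ← E_const (‖x M‖ ^ 2),
      ← E_add (by fun_prop) continuous_const]
    refine E_congr fun w => ?_
    have e : ∀ u : Circle, ∑ ν ∈ range (M + 1), ((update w M u ν : Circle) : ℂ) * x ν
        = ∑ ν ∈ range M, (w ν : ℂ) * x ν + (u : ℂ) * x M := by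
      intro u
      rw [sum_range_succ, update_self]
      congr 1
      refine sum_congr rfl fun ν hν => ?_
      rw [update_of_ne (mem_range.mp hν).ne]
    simp only [e, sg_norm]
    rw [av_add continuous_const (by fun_prop), av_const, av_mul, av_re]
    ring

theorem sg_lp (M : ℕ) (x : ℕ → ℂ) (ν : ℕ) (hν : ν < M) :
    lp ‖x ν‖ / 2 ≤ E fun c => lp ‖∑ ν ∈ range M, (c ν : ℂ) * x ν‖ := by
  obtain ⟨F, hF⟩ : ∃ F : Om → ℝ, F = fun c => lp ‖∑ ν ∈ range M, (c ν : ℂ) * x ν‖ := ⟨_, rfl⟩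
  have hc : Continuous F := by rw [hF]; fun_prop
  obtain ⟨v, hv⟩ : ∃ v : Om, v = update (1 : Om) ν (-1) := ⟨_, rfl⟩
  have hc' : Continuous fun w => F (v * w) := hc.comp (continuous_const.mul continuous_id)
  have h1 : E (fun w => F w + F (v * w)) = E F + E F := by rw [E_add hc hc', E_shift]
  have h2 : ∀ w, lp ‖x ν‖ ≤ F w + F (v * w) := by
    intro w
    obtain ⟨S, hS⟩ : ∃ S, S = ∑ j ∈ range M, (w j : ℂ) * x j := ⟨_, rfl⟩
    obtain ⟨S', hS'⟩ : ∃ S', S' = ∑ j ∈ range M, ((v * w) j : ℂ) * x j := ⟨_, rfl⟩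
    have e1 : F w = lp ‖S‖ := by rw [hF, hS]
    have e2 : F (v * w) = lp ‖S'‖ := by rw [hF, hS']
    have e3 : S - S' = 2 * ((w ν : ℂ) * x ν) := by
      rw [hS, hS', ← sum_sub_distrib, sum_eq_single ν]
      · rw [hv]; simp; ring
      · intro j _ hj
        rw [hv]; simp [update_of_ne hj]
      · intro h; exact absurd (mem_range.mpr hν) h
    have e4 : 2 * ‖x ν‖ ≤ ‖S‖ + ‖S'‖ := by
      have := norm_sub_le S S'
      rw [e3] at this
      simpa using this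
    rw [e1, e2]
    have p1 := lp_nonneg ‖S‖
    have p2 := lp_nonneg ‖S'‖
    rcases le_total ‖S‖ ‖S'‖ with h | h
    · have := lp_mono (show ‖x ν‖ ≤ ‖S'‖ by linarith); linarith
    · have := lp_mono (show ‖x ν‖ ≤ ‖S‖ by linarith); linarith
  have h3 := E_mono continuous_const (hc.add hc') h2
  rw [E_const] at h3
  have h4 : E (fun w => F w + F (v * w)) = 2 * E F := by rw [h1]; ring
  rw [← hF]
  have h5 : lp ‖x ν‖ ≤ 2 * E F := by rw [← h4]; exact h3
  linarith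

theorem p_SG :
    S_SG := fun M x => ⟨sg_sq M x, sg_lp M x⟩

end Pool.Agent.P.MP_d14b1f_an.Nv
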