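import Pool.Agent.P.MP_d14b1f_an.Nv.IfaceL

/-! Step SGA. -/

set_option autoImplicit false

namespace Pool.Agent.P.MP_d14b1f_an.Nv

open Complex Filter Finset MeasureTheory Function Topology Asymptotics

theorem sga_pt {p lam F A : ℝ} (hp : 0 < p) (hp2 : p < 2) (hl : 0 < lam) (hF : 0 ≤ F) (hA : 0 < A) :
    F ^ p ≤ lam ^ (p / 2) * ((A ^ (-(2 - p) / p) / lam) * F ^ 2 + A) := by
  have hX : 0 ≤ (A ^ (-(2 - p) / p) / lam) * F ^ 2 := by positivity
  have h := Real.geom_mean_le_arith_mean2_weighted (w₁ := p / 2) (w₂ := 1 - p / 2)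
    (by positivity) (by linarith) hX hA.le (by ring)
  have e : lam ^ (p / 2) * (((A ^ (-(2 - p) / p) / lam) * F ^ 2) ^ (p / 2) * A ^ (1 - p / 2)) =
      F ^ p := by
    rw [Real.mul_rpow (by positivity) (by positivity), Real.div_rpow (by positivity) hl.le,
      ← Real.rpow_mul hA.le, ← Real.rpow_natCast, ← Real.rpow_mul hF,
      show -(2 - p) / p * (p / 2) = -(1 - p / 2) by field_simp,
      show ((2 : ℕ) : ℝ) * (p / 2) = p by push_cast; ring, Real.rpow_neg hA.le]
    have h1 : 0 < lam ^ (p / 2) := Real.rpow_pos_of_pos hl _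
    have h2 : 0 < A ^ (1 - p / 2) := Real.rpow_pos_of_pos hA _
    field_simp
  rw [← e]
  refine mul_le_mul_of_nonneg_left (h.trans ?_) (by positivity)
  nlinarith [mul_nonneg hX (show 0 ≤ 1 - p / 2 by linarith), mul_pos hp hA]

theorem sga_abs {p lam : ℝ} (hp : 0 < p) (hp2 : p < 2) (hl : 0 < lam) (F : Om → Om → ℝ)
    (S A : Om → ℝ) (hF : Continuous (uncurry F)) (hF0 : ∀ c w, 0 ≤ F c w) (hS : Continuous S)
    (hA : Continuous A) (hA0 : ∀ w, 0 < A w) (h2 : ∀ w, E (fun c => F c w ^ 2) = S w)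
    (h : E (fun w => S w * A w ^ (-(2 - p) / p)) ≤ lam) :
    E (fun c => E fun w => F c w ^ p) ≤ lam ^ (p / 2) * (1 + E A) := by
  have hAe : Continuous fun w => A w ^ (-(2 - p) / p) :=
    hA.rpow_const fun w => Or.inl (hA0 w).ne'
  have hFp : Continuous (uncurry fun c w : Om => F c w ^ p) :=
    hF.rpow_const fun _ => Or.inr hp.le
  rw [E_swap hFp]
  have key : ∀ w : Om, E (fun c : Om => F c w ^ p) ≤
      lam ^ (p / 2) * (lam⁻¹ * (S w * A w ^ (-(2 - p) / p)) + A w) := by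
    intro w
    have h1 : Continuous fun c : Om => F c w := hF.comp (Continuous.prodMk_left w)
    refine (E_mono (G := fun c => lam ^ (p / 2) * ((A w ^ (-(2 - p) / p) / lam) * F c w ^ 2 + A w))
      (h1.rpow_const fun _ => Or.inr hp.le) (by fun_prop)
      fun c => sga_pt hp hp2 hl (hF0 c w) (hA0 w)).trans (le_of_eq ?_)
    rw [E_mul, E_add (by fun_prop) continuous_const, E_mul, E_const, h2]
    congr 2
    field_simp
  have hc : Continuous fun w : Om => E (fun c : Om => F c w ^ p) :=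
    cont_E (F := fun w c : Om => F c w ^ p) (hFp.comp continuous_swap)
  have hG : Continuous fun w => lam⁻¹ * (S w * A w ^ (-(2 - p) / p)) :=
    continuous_const.mul (hS.mul hAe)
  refine (E_mono (G := fun w => lam ^ (p / 2) * (lam⁻¹ * (S w * A w ^ (-(2 - p) / p)) + A w)) hc
    (continuous_const.mul (hG.add hA)) key).trans ?_
  rw [E_mul, E_add hG hA, E_mul]
  refine mul_le_mul_of_nonneg_left ?_ (by positivity)
  have := mul_le_mul_of_nonneg_left h (inv_pos.2 hl).le
  rw [inv_mul_cancel₀ hl.ne'] at this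
  linarith

theorem p_SGA (hSG : S_SG) :
    S_SGA := by
  intro p lam M g A hp hp2 hg hA hA0 hl h
  have hF : Continuous fun x : Om × Om => ‖∑ ν ∈ range M, (x.1 ν : ℂ) * g ν x.2‖ := by fun_prop
  exact sga_abs hp hp2 hl (fun c w => ‖∑ ν ∈ range M, (c ν : ℂ) * g ν w‖)
    (fun w => ∑ ν ∈ range M, ‖g ν w‖ ^ 2) A hF (fun _ _ => norm_nonneg _) (by fun_prop) hA hA0
    (fun w => (hSG M fun ν => g ν w).1) h

end Pool.Agent.P.MP_d14b1f_an.Nv
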