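import Pool.Agent.P.MP_d14b1f_an.Nv.IfaceL

/-! Step SGN. -/

set_option autoImplicit false

namespace Pool.Agent.P.MP_d14b1f_an.Nv

open Complex Filter Finset MeasureTheory Function Topology Asymptotics

theorem sgn_lp_div {x r : ℝ} (hr : 1 ≤ r) : lp x - Real.log r ≤ lp (x / r) := by
  have hr0 : 0 < r := lt_of_lt_of_le one_pos hr
  have h1 : 0 < max 1 x := lt_of_lt_of_le one_pos (le_max_left _ _)
  unfold lp
  rw [← Real.log_div h1.ne' hr0.ne']
  refine Real.log_le_log (div_pos h1 hr0) ?_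
  rw [div_le_iff₀ hr0]
  refine max_le ?_ ?_
  · nlinarith [le_max_left 1 (x / r)]
  · have := mul_le_mul_of_nonneg_right (le_max_right 1 (x / r)) hr0.le
    rwa [div_mul_cancel₀ _ hr0.ne'] at this

theorem sgn_log_max {x : ℝ} (hx : 0 ≤ x) : Real.log (max 1 x) ≤ x := by
  rcases le_total x 1 with h | h
  · rw [max_eq_left h, Real.log_one]; exact hx
  · rw [max_eq_right h]
    have := Real.log_le_sub_one_of_pos (lt_of_lt_of_le one_pos h)
    linarith

theorem p_SGN (hSG : S_SG) :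
    S_SGN := by
  intro p Lam B M g e hp hg he hL hE hB
  have hLp : 0 < Lam ^ p := Real.rpow_pos_of_pos hL p
  have c1 : Continuous (uncurry fun (c w : Om) => ‖∑ ν ∈ range M, (c ν : ℂ) * g ν w‖ ^ p) := by
    refine Continuous.rpow_const (Continuous.norm (continuous_finsetSum _ fun ν _ => ?_))
      fun _ => Or.inr hp.le
    exact (cont_coe.comp ((continuous_apply ν).comp continuous_fst)).mul
      ((hg ν).comp continuous_snd)
  have c2 : Continuous (uncurry fun (u : ℝ) (c : Om) =>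
      lp ‖∑ ν ∈ range M, (c ν : ℂ) * (e ν u / Lam)‖) := by
    refine cont_lp.comp (Continuous.norm (continuous_finsetSum _ fun ν _ => ?_))
    exact (cont_coe.comp ((continuous_apply ν).comp continuous_snd)).mul
      (((he ν).comp continuous_fst).div_const _)
  have cX := cont_E c1
  have cG : Continuous fun c : Om =>
      ∫ u in (0 : ℝ)..1, lp ‖∑ ν ∈ range M, (c ν : ℂ) * (e ν u / Lam)‖ :=
    intervalIntegral.continuous_parametric_intervalIntegral_of_continuous'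
      (f := fun (c : Om) (u : ℝ) => lp ‖∑ ν ∈ range M, (c ν : ℂ) * (e ν u / Lam)‖)
      (c2.comp continuous_swap) _ _
  have hG : (B - Real.log Lam) / 2 ≤ E fun c : Om =>
      ∫ u in (0 : ℝ)..1, lp ‖∑ ν ∈ range M, (c ν : ℂ) * (e ν u / Lam)‖ := by
    rw [E_int_swap c2]
    have h0 : (B - Real.log Lam) / 2 = ∫ _u in (0 : ℝ)..1, (B - Real.log Lam) / 2 := by simp
    rw [h0]
    refine intervalIntegral.integral_mono_on_of_le_Ioo zero_le_one
      intervalIntegrable_const ((cont_E c2).intervalIntegrable _ _) fun u hu => ?_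
    obtain ⟨ν, hν, hb⟩ := hB u hu.1.le hu.2
    refine le_trans ?_ ((hSG M fun ν => e ν u / Lam).2 ν hν)
    have h1 : Real.exp B / Lam ≤ ‖e ν u / (Lam : ℂ)‖ := by
      rw [norm_div, Complex.norm_real, Real.norm_of_nonneg hL.le]
      exact div_le_div_of_nonneg_right hb hL.le
    have h2 := (log_le_lp (div_pos (Real.exp_pos B) hL)).trans (lp_mono h1)
    rw [Real.log_div (Real.exp_pos B).ne' hL.ne', Real.log_exp] at h2
    linarith
  obtain ⟨c, hc⟩ := exists_E_le (cG.sub (continuous_const.mul cX (f := fun _ => (p * Lam ^ p)⁻¹)))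
  have hc' : E (fun c : Om =>
      (∫ u in (0 : ℝ)..1, lp ‖∑ ν ∈ range M, (c ν : ℂ) * (e ν u / Lam)‖) -
        (p * Lam ^ p)⁻¹ * E fun w => ‖∑ ν ∈ range M, (c ν : ℂ) * g ν w‖ ^ p) ≤
      (∫ u in (0 : ℝ)..1, lp ‖∑ ν ∈ range M, (c ν : ℂ) * (e ν u / Lam)‖) -
        (p * Lam ^ p)⁻¹ * E fun w => ‖∑ ν ∈ range M, (c ν : ℂ) * g ν w‖ ^ p := hc
  have cX' : Continuous fun c : Om =>
      (p * Lam ^ p)⁻¹ * E fun w => ‖∑ ν ∈ range M, (c ν : ℂ) * g ν w‖ ^ p :=
    continuous_const.mul cX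
  rw [E_sub cG cX', E_mul] at hc'
  clear hc
  have h3 : (p * Lam ^ p)⁻¹ * E (fun c : Om => E fun w =>
      ‖∑ ν ∈ range M, (c ν : ℂ) * g ν w‖ ^ p) ≤ 1 / p := by
    refine (mul_le_mul_of_nonneg_left hE (by positivity)).trans (le_of_eq ?_)
    field_simp
  set Y : ℝ := E fun w => ‖∑ ν ∈ range M, (c ν : ℂ) * g ν w‖ ^ p with hY
  have hY0 : 0 ≤ Y := E_nonneg fun _ => by positivity
  set m : ℝ := max 1 (Y / Lam ^ p) with hm
  have hm1 : 1 ≤ m := le_max_left _ _
  have hm0 : 0 < m := lt_of_lt_of_le one_pos hm1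
  set r : ℝ := m ^ (1 / p) with hr
  have hr1 : 1 ≤ r := Real.one_le_rpow hm1 (by positivity)
  have hr0 : 0 < r := lt_of_lt_of_le one_pos hr1
  have hrp : r ^ p = m := by
    rw [hr, ← Real.rpow_mul hm0.le, one_div_mul_cancel hp.ne', Real.rpow_one]
  have hlr : Real.log r ≤ (p * Lam ^ p)⁻¹ * Y := by
    rw [hr, Real.log_rpow hm0]
    refine (mul_le_mul_of_nonneg_left (sgn_log_max (div_nonneg hY0 hLp.le)) (by positivity)).trans
      (le_of_eq ?_)
    field_simp
  refine ⟨fun ν => (c ν : ℂ) / ((Lam * r : ℝ) : ℂ), ?_, ?_⟩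
  · have e1 : ∀ w : Om, ‖∑ ν ∈ range M, (c ν : ℂ) / ((Lam * r : ℝ) : ℂ) * g ν w‖ ^ p =
        (Lam ^ p * m)⁻¹ * ‖∑ ν ∈ range M, (c ν : ℂ) * g ν w‖ ^ p := by
      intro w
      have : ∑ ν ∈ range M, (c ν : ℂ) / ((Lam * r : ℝ) : ℂ) * g ν w =
          (∑ ν ∈ range M, (c ν : ℂ) * g ν w) / ((Lam * r : ℝ) : ℂ) := by
        rw [sum_div]; exact sum_congr rfl fun ν _ => by ring
      rw [this, norm_div, Complex.norm_real, Real.norm_of_nonneg (mul_pos hL hr0).le,
        Real.div_rpow (norm_nonneg _) (mul_pos hL hr0).le, Real.mul_rpow hL.le hr0.le, hrp]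
      ring
    rw [E_congr e1, E_mul, ← hY]
    have h4 : Y / Lam ^ p ≤ m := le_max_right _ _
    rw [div_le_iff₀ hLp] at h4
    rw [inv_mul_le_iff₀ (mul_pos hLp hm0)]
    linarith
  · have e2 : ∀ u : ℝ, ‖∑ ν ∈ range M, (c ν : ℂ) / ((Lam * r : ℝ) : ℂ) * e ν u‖ =
        ‖∑ ν ∈ range M, (c ν : ℂ) * (e ν u / Lam)‖ / r := by
      intro u
      have : ∑ ν ∈ range M, (c ν : ℂ) / ((Lam * r : ℝ) : ℂ) * e ν u =
          (∑ ν ∈ range M, (c ν : ℂ) * (e ν u / Lam)) / (r : ℂ) := by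
        rw [sum_div]; exact sum_congr rfl fun ν _ => by push_cast; ring
      rw [this, norm_div, Complex.norm_real, Real.norm_of_nonneg hr0.le]
    simp only [e2]
    have c3 : Continuous fun u : ℝ => ‖∑ ν ∈ range M, (c ν : ℂ) * (e ν u / Lam)‖ :=
      Continuous.norm (continuous_finsetSum _ fun ν _ =>
        continuous_const.mul ((he ν).div_const _))
    have h5 : ∫ u in (0 : ℝ)..1, (lp ‖∑ ν ∈ range M, (c ν : ℂ) * (e ν u / Lam)‖ - Real.log r) ≤
        ∫ u in (0 : ℝ)..1, lp (‖∑ ν ∈ range M, (c ν : ℂ) * (e ν u / Lam)‖ / r) :=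
      intervalIntegral.integral_mono_on zero_le_one
        (((cont_lp.comp c3).sub continuous_const).intervalIntegrable _ _)
        ((cont_lp.comp (c3.div_const r)).intervalIntegrable _ _) fun u _ => sgn_lp_div hr1
    have c4 : Continuous fun u : ℝ => lp ‖∑ ν ∈ range M, (c ν : ℂ) * (e ν u / Lam)‖ :=
      cont_lp.comp c3
    rw [intervalIntegral.integral_sub (c4.intervalIntegrable _ _) intervalIntegrable_const] at h5
    simp only [intervalIntegral.integral_const, sub_zero, one_smul] at h5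
    linarith

end Pool.Agent.P.MP_d14b1f_an.Nv
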