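import Pool.Agent.P.MP_d14b1f_an.Nv.IfaceU

/-! Step SUB. -/

set_option autoImplicit false

namespace Pool.Agent.P.MP_d14b1f_an.Nv

open Complex Filter Finset MeasureTheory Function Topology Asymptotics

theorem sub_log_le (x : ℝ) (hx : 0 ≤ x) : Real.log x ≤ lp x := by
  rcases hx.eq_or_lt with rfl | h
  · simpa using lp_nonneg 0
  · exact log_le_lp h

theorem p_SUB :
    S_SUB := by
  intro g hg
  have h0 : 0 ≤ av fun u => lp ‖g u‖ := av_nonneg fun _ => lp_nonneg _
  rcases le_or_gt ‖g 0‖ 1 with h1 | h1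
  · rwa [lp, max_eq_left h1, Real.log_one]
  have hne : g 0 ≠ 0 := fun h => by rw [h, norm_zero] at h1; linarith
  have hg' : AnalyticOnNhd ℂ g (Metric.closedBall 0 |(1 : ℝ)|) := by rwa [abs_one]
  have hJ := hg'.circleAverage_log_norm one_ne_zero hne
  have hs : 0 ≤ ∑ᶠ u, (MeromorphicOn.divisor g (Metric.closedBall 0 |(1 : ℝ)|) u : ℝ) *
      Real.log (1 * ‖0 - u‖⁻¹) := by
    refine finsum_nonneg fun u => ?_
    by_cases hu : u ∈ Metric.closedBall (0 : ℂ) |(1 : ℝ)|
    · refine mul_nonneg (by exact_mod_cast MeromorphicOn.AnalyticOnNhd.divisor_nonneg hg' u) ?_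
      rw [one_mul, zero_sub, norm_neg, Real.log_inv, neg_nonneg]
      exact Real.log_nonpos (norm_nonneg _) (by simpa using hu)
    · rw [Function.locallyFinsuppWithin.apply_eq_zero_of_notMem _ hu]
      simp
  have hc : ContinuousOn (fun z => lp ‖g z‖) (Metric.sphere 0 |(1 : ℝ)|) :=
    cont_lp.comp_continuousOn (hg'.continuousOn.mono Metric.sphere_subset_closedBall).norm
  have hm := Real.circleAverage_mono (f₁ := fun z => Real.log ‖g z‖) (f₂ := fun z => lp ‖g z‖)
    (c := 0) (R := 1)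
    (MeromorphicOn.circleIntegrable_log_norm
      (hg'.meromorphicOn.mono_set Metric.sphere_subset_closedBall))
    (hc.circleIntegrable') fun x _ => sub_log_le _ (norm_nonneg _)
  rw [av_eq fun z => lp ‖g z‖, lp, max_eq_right h1.le]
  linarith

end Pool.Agent.P.MP_d14b1f_an.Nv
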