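import Pool.Agent.P.MP_d14b1f_an.Nv.IfaceL

/-! Step TREE. -/

set_option autoImplicit false

namespace Pool.Agent.P.MP_d14b1f_an.Nv

open Complex Filter Finset MeasureTheory Function Topology Asymptotics

theorem tree_SX {n k : ℕ} (hk : k ≤ n) (ν : ℕ) (w : Om) :
    SX k (cz (tw n (nod n n ν) * w)) = SX k (cz (tw n (nod n k (ν / 2 ^ (n - k))) * w)) := by
  unfold SX XX
  congr 1
  refine sum_congr rfl fun i hi => sum_congr rfl fun j hj => ?_
  have hi' := mem_range.1 hi
  have e : nod n n ν i = nod n k (ν / 2 ^ (n - k)) i := by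
    unfold nod
    rw [Nat.div_div_eq_div_mul, ← pow_add, show n - k + (k - i) = n - i by omega]
  simp only [cz_mul]
  rw [tw_apply _ (by omega) hj, tw_apply _ (by omega) hj, e]

theorem tree_le {n : ℕ} (ν : ℕ) (hν : ν < n * 2 ^ n) (w : Om) :
    YY n (cz (tw n (nod n n ν) * w)) ≤ AA n w := by
  unfold YY AA
  refine sum_le_sum fun k hk => ?_
  have hk' : k ≤ n := Nat.lt_succ_iff.1 (mem_range.1 hk)
  rw [tree_SX hk']
  refine single_le_sum
    (f := fun ν => Real.exp (2 * SX k (cz (tw n (nod n k ν) * w)))) (fun _ _ => by positivity) ?_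
  rw [mem_range, Nat.div_lt_iff_lt_mul (by positivity), mul_assoc, ← pow_add,
    Nat.add_sub_cancel' hk']
  exact hν

theorem p_TREE (hXI : S_XI) :
    S_TREE := by
  intro n hn
  refine ⟨?_, fun w => (one_le_YY n _).trans (tree_le 0 (by positivity) w), fun ν hν w =>
    tree_le ν hν w⟩
  unfold AA
  rw [E_sum _ fun k _ => by fun_prop]
  have key : ∀ k ∈ range (n + 1), E (fun w => ∑ ν ∈ range (n * 2 ^ k),
      Real.exp (2 * SX k (cz (tw n (nod n k ν) * w)))) ≤ n * Real.exp 31 := fun k _ => by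
    rw [E_sum _ fun ν _ => by fun_prop]
    refine (sum_le_card_nsmul _ _ (Real.exp 31 / 2 ^ k) fun ν _ => ?_).trans (le_of_eq ?_)
    · rw [E_shift (tw n (nod n k ν)) fun w => Real.exp (2 * SX k (cz w))]
      exact (hXI k).2.2
    · rw [card_range, nsmul_eq_mul]
      push_cast
      field_simp
  refine (sum_le_card_nsmul _ _ _ key).trans (le_of_eq ?_)
  rw [card_range, nsmul_eq_mul]
  push_cast
  ring

end Pool.Agent.P.MP_d14b1f_an.Nv
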