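import Pool.Agent.P.MP_d14b1f_an.Nv.IfaceU

/-! Step UP. -/

set_option autoImplicit false

namespace Pool.Agent.P.MP_d14b1f_an.Nv

open Complex Filter Finset MeasureTheory Function Topology Asymptotics

theorem up_num {C1 C2 L y a Q : ℝ} (h1 : 0 < C1) (h2 : 0 < C2) (hy : 1 ≤ y) (hy3 : y ^ 3 = 1 + L)
    (ha : Real.exp (-(20 * (L + C1)) / (4 * y) ^ 2) ≤ a)
    (hQ : Q ≤ C2 * Real.exp (2 * (4 * y)) * (1 + L)) :
    (a⁻¹) ^ 2 * Q ≤ Real.exp ((C2 + 14 + 3 * C1) * y) := by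
  have hy0 : 0 < y := by linarith
  have e1 : -((3 / 2 * (1 + C1)) * y) ≤ -(20 * (L + C1)) / (4 * y) ^ 2 := by
    rw [le_div_iff₀ (by positivity)]
    have : (1 : ℝ) ≤ y ^ 3 := one_le_pow₀ hy
    have e : -(3 / 2 * (1 + C1) * y) * (4 * y) ^ 2 = -(24 * (1 + C1) * y ^ 3) := by ring
    rw [e]
    nlinarith
  have e2 : Real.exp (-((3 / 2 * (1 + C1)) * y)) ≤ a := (Real.exp_le_exp.mpr e1).trans ha
  have e3 : a⁻¹ ≤ Real.exp ((3 / 2 * (1 + C1)) * y) := by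
    rw [Real.exp_neg] at e2
    exact inv_le_of_inv_le₀ (Real.exp_pos _) e2
  have ha0 : 0 < a := (Real.exp_pos _).trans_le ha
  have e4 : (a⁻¹) ^ 2 ≤ Real.exp ((3 * (1 + C1)) * y) := by
    calc (a⁻¹) ^ 2 ≤ Real.exp ((3 / 2 * (1 + C1)) * y) ^ 2 :=
          pow_le_pow_left₀ (by positivity) e3 2
      _ = _ := by rw [← Real.exp_nat_mul]; congr 1; push_cast; ring
  have e5 : C2 ≤ Real.exp (C2 * y) := by
    have := Real.add_one_le_exp (C2 * y)
    nlinarith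
  have e6 : 1 + L ≤ Real.exp (3 * y) := by
    rw [← hy3]
    have h := Real.add_one_le_exp y
    calc y ^ 3 ≤ Real.exp y ^ 3 := pow_le_pow_left₀ hy0.le (by linarith) 3
      _ = _ := by rw [← Real.exp_nat_mul]; push_cast; rfl
  have hL : 0 ≤ 1 + L := by rw [← hy3]; positivity
  have e7 : Q ≤ Real.exp (C2 * y) * Real.exp (2 * (4 * y)) * Real.exp (3 * y) :=
    hQ.trans (by gcongr)
  calc (a⁻¹) ^ 2 * Q ≤ (a⁻¹) ^ 2 * (Real.exp (C2 * y) * Real.exp (2 * (4 * y)) * Real.exp (3 * y)) :=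
        mul_le_mul_of_nonneg_left e7 (by positivity)
    _ ≤ Real.exp ((3 * (1 + C1)) * y) *
          (Real.exp (C2 * y) * Real.exp (2 * (4 * y)) * Real.exp (3 * y)) :=
        mul_le_mul_of_nonneg_right e4 (by positivity)
    _ = _ := by
        rw [← Real.exp_add, ← Real.exp_add, ← Real.exp_add]; congr 1; ring

theorem up_cont {F : ℝ → Om → ℝ} (h : Continuous (uncurry F)) (a b : ℝ) :
    Continuous fun w => ∫ t in a..b, F t w := by
  have h' : Continuous (uncurry fun (w : Om) (t : ℝ) => F t w) := h.comp continuous_swap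
  exact intervalIntegral.continuous_parametric_intervalIntegral_of_continuous' h' a b

theorem p_UP (hFST : S_FST) (hSEC : S_SEC) (hENT : S_ENT) :
    S_UP := by
  intro p hp
  obtain ⟨C1, h1, hF⟩ := hFST
  obtain ⟨C2, h2, hS⟩ := hSEC
  refine ⟨(C2 + 16 + 3 * C1) / p, fun P δ t0 hδ hδ2 => ?_⟩
  obtain ⟨N0, hN0⟩ := hS δ hδ hδ2
  obtain ⟨N1, hN1⟩ := lift_zs P
  set L := Real.log (1 / δ) with hL
  have hL0 : 0 ≤ L := Real.log_nonneg (by rw [le_div_iff₀ hδ]; linarith)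
  set y := (1 + L) ^ (1 / 3 : ℝ) with hy
  have hy1 : 1 ≤ y := Real.one_le_rpow (by linarith) (by norm_num)
  have hy3 : y ^ 3 = 1 + L := by
    rw [hy, ← Real.rpow_natCast, ← Real.rpow_mul (by linarith)]
    norm_num
  obtain ⟨a, ha, hE, hP⟩ := hF δ hδ hδ2 (max N0 N1) (4 * y) (by linarith)
  have ha0 : 0 < a := (Real.exp_pos _).trans_le ha
  have hσ : (1 : ℝ) / 2 ≤ 1 / 2 + δ := by linarith
  set V : Om → ℝ := fun w => ∫ t in t0..t0 + 1, WW (4 * y) (max N0 N1) (1 / 2 + δ) t w with hV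
  have hVc : Continuous V := up_cont (cont_WW (4 * y) (max N0 N1) hσ) t0 (t0 + 1)
  have hV0 : ∀ w, 0 ≤ V w := fun w =>
    intervalIntegral.integral_nonneg (by linarith) fun t _ => WW_nonneg _ _ hσ t w
  have hQ := hN0 (max N0 N1) (le_max_left _ _) (4 * y) t0
  have hK := up_num h1 h2 hy1 hy3 ha hQ
  have hK1 : 1 ≤ Real.exp ((C2 + 14 + 3 * C1) * y) := Real.one_le_exp (by positivity)
  have hent := hENT p _ (fun w => a⁻¹ * V w) (fun w => ‖lift P (cz w)‖) hp hK1 (by fun_prop)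
    (by fun_prop) (fun w => mul_nonneg (by positivity) (hV0 w)) (fun w => norm_nonneg _)
    (by rw [E_mul, hE t0, inv_mul_cancel₀ ha0.ne'])
  have e1 : E (fun w => (a⁻¹ * V w) ^ 2) = (a⁻¹) ^ 2 * E (fun w => V w ^ 2) := by
    rw [← E_mul]; exact E_congr fun w => by ring
  have e2 : E (fun w => a⁻¹ * V w * lp ‖lift P (cz w)‖) =
      a⁻¹ * E (fun w => V w * lp ‖lift P (cz w)‖) := by
    rw [← E_mul]; exact E_congr fun w => by ring
  have e3 : E (fun w => (a⁻¹ * V w) ^ 2) / Real.exp ((C2 + 14 + 3 * C1) * y) ≤ 1 := by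
    rw [e1, div_le_one (Real.exp_pos _)]; exact hK
  have e4 := hP P t0 (hN1 _ (le_max_right _ _))
  have e5 : nev (dp P) t0 (t0 + 1) (1 / 2 + δ) ≤ a⁻¹ * E (fun w => V w * lp ‖lift P (cz w)‖) := by
    rw [le_inv_mul_iff₀ ha0]; exact e4
  rw [Real.log_exp, e2] at hent
  have e6 : p * nev (dp P) t0 (t0 + 1) (1 / 2 + δ) ≤ (C2 + 16 + 3 * C1) * y + Np p P := by
    have := mul_le_mul_of_nonneg_left e5 hp.le
    unfold Np
    nlinarith
  rw [div_mul_eq_mul_div, ← add_div, le_div_iff₀ hp]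
  linarith

end Pool.Agent.P.MP_d14b1f_an.Nv
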