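import Pool.Agent.P.MP_d14b1f_an.Nv.IfaceL

/-! Step VAR. -/

set_option autoImplicit false

namespace Pool.Agent.P.MP_d14b1f_an.Nv

open Complex Filter Finset MeasureTheory Function Topology Asymptotics

theorem p_VAR :
    S_VAR := by
  intro b l hl
  have hl' : (768 : ℝ) ≤ l := by exact_mod_cast hl
  obtain ⟨h, hh1, hh2⟩ : ∃ h : ℕ, 2 * h ≤ l ∧ l ≤ 2 * h + 1 := ⟨l / 2, by omega, by omega⟩
  have r1 : 2 * (h : ℝ) ≤ l := by exact_mod_cast hh1
  have r2 : (l : ℝ) ≤ 2 * h + 1 := by exact_mod_cast hh2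
  have hsum : (l : ℝ) / 4 ≤ ∑ i ∈ Ico (b * l) (b * l + h), ∑ j ∈ Lv i, 1 / (j : ℝ) := by
    rw [sum_Ico_eq_sub _ (Nat.le_add_right _ _)]
    have m1 := (abs_le.1 (mert_Lv (b * l + h))).1
    have m2 := (abs_le.1 (mert_Lv (b * l))).2
    have l2 := Real.log_two_gt_d9
    have hh : (0 : ℝ) ≤ h := by positivity
    push_cast at m1 m2
    nlinarith [mul_le_mul_of_nonneg_left l2.le hh]
  have hsub : Ico (b * l) (b * l + h) ⊆ Ico (b * l) ((b + 1) * l) :=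
    Ico_subset_Ico_right (by rw [add_mul]; omega)
  refine le_trans ?_ (sum_le_sum_of_subset_of_nonneg hsub fun i _ _ =>
    sum_nonneg fun j _ => by positivity)
  calc (l : ℝ) ^ 3 / 256 = ((l : ℝ) / 2) ^ 2 / 16 * (l / 4) := by ring
    _ ≤ ((l : ℝ) / 2) ^ 2 / 16 * ∑ i ∈ Ico (b * l) (b * l + h), ∑ j ∈ Lv i, 1 / (j : ℝ) :=
      mul_le_mul_of_nonneg_left hsum (by positivity)
    _ ≤ _ := by
      rw [mul_sum]
      refine sum_le_sum fun i hi => ?_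
      rw [mul_sum]
      refine sum_le_sum fun j _ => ?_
      have hi2 : (i : ℝ) + 1 ≤ b * l + h := by exact_mod_cast (mem_Ico.1 hi).2
      have hw : (l : ℝ) / 2 ≤ (((b + 1) * l : ℕ) : ℝ) - 1 - i := by push_cast; linarith
      have hsq : ((l : ℝ) / 2) ^ 2 ≤ ((((b + 1) * l : ℕ) : ℝ) - 1 - i) ^ 2 :=
        pow_le_pow_left₀ (by positivity) hw 2
      rw [rr_sq]
      have hj : (0 : ℝ) ≤ 1 / (j : ℝ) := by positivity
      nlinarith [mul_le_mul_of_nonneg_right hsq hj]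

end Pool.Agent.P.MP_d14b1f_an.Nv
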