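import Pool.Agent.P.MP_d14b1f_an.Nv.IfaceL

/-! Step XI. -/

set_option autoImplicit false

namespace Pool.Agent.P.MP_d14b1f_an.Nv

open Complex Filter Finset MeasureTheory Function Topology Asymptotics

theorem xi_disj (k : ℕ) : Set.PairwiseDisjoint ((range k : Finset ℕ) : Set ℕ) Lv := by
  intro i _ i' _ hne
  rw [Function.onFun, Finset.disjoint_left]
  intro j h h'
  exact hne (Lv_unique h h')

theorem xi_one (k : ℕ) :
    E (fun w => Real.exp (2 * ∑ i ∈ range k, XX i (cz w))) =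
      ∏ i ∈ range k, ∏ j ∈ Lv i, Zr (rr j) := by
  rw [← prod_biUnion (xi_disj k)]
  have h := E_prod ((range k).biUnion Lv)
    (g := fun j u => Real.exp (2 * (rr j * (u : ℂ).re))) (fun j _ => by fun_prop)
  refine Eq.trans (E_congr fun w => ?_) h
  rw [← Real.exp_sum, ← mul_sum, sum_biUnion (xi_disj k)]
  rfl

theorem xi_two (hZ1 : S_Z1) (k : ℕ) :
    ∏ i ∈ range k, ∏ j ∈ Lv i, Zr (rr j) ≤ Real.exp (k * Real.log 2 + 31) := by
  have hr : ∀ j ∈ (range k).biUnion Lv, rr j ≤ 1 / 2 := by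
    intro j hj
    obtain ⟨i, _, hi⟩ := mem_biUnion.1 hj
    linarith [rr_le hi]
  rw [← prod_biUnion (xi_disj k)]
  refine le_trans (prod_le_prod (fun j hj => (hZ1 _ (rr_nonneg j) (hr j hj)).1.le)
    (fun j hj => (hZ1 _ (rr_nonneg j) (hr j hj)).2)) ?_
  rw [← Real.exp_sum, Real.exp_le_exp, sum_add_distrib, ← mul_sum]
  have h1 := sum_rr_cube ((range k).biUnion Lv)
  have h2 := (abs_le.1 (mert_Lv k)).2
  have h3 : ∑ j ∈ (range k).biUnion Lv, rr j ^ 2 = ∑ i ∈ range k, ∑ j ∈ Lv i, 1 / (j : ℝ) := by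
    rw [sum_biUnion (xi_disj k)]
    exact sum_congr rfl fun i _ => sum_congr rfl fun j _ => rr_sq j
  rw [h3]
  linarith

theorem p_XI (hZ1 : S_Z1) :
    S_XI := by
  intro k
  refine ⟨xi_one k, xi_two hZ1 k, ?_⟩
  have he : Real.exp (k * Real.log 2) = 2 ^ k := by
    rw [Real.exp_nat_mul, Real.exp_log (by norm_num)]
  have h1 : E (fun w => Real.exp (2 * SX k (cz w))) =
      Real.exp (-(2 * (k * Real.log 2))) * E (fun w => Real.exp (2 * ∑ i ∈ range k, XX i (cz w))) := by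
    rw [← E_mul]
    refine E_congr fun w => ?_
    rw [← Real.exp_add]
    congr 1
    unfold SX
    ring
  rw [h1, xi_one k]
  refine le_trans (mul_le_mul_of_nonneg_left (xi_two hZ1 k) (Real.exp_pos _).le) (le_of_eq ?_)
  rw [← he, ← Real.exp_add, ← Real.exp_sub]
  congr 1
  ring

end Pool.Agent.P.MP_d14b1f_an.Nv
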