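import Pool.Agent.P.MP_d14b1f_an.Nv.IfaceU

/-! Step ZETA. -/

set_option autoImplicit false

namespace Pool.Agent.P.MP_d14b1f_an.Nv

open Complex Filter Finset MeasureTheory Function Topology Asymptotics

theorem zeta_cont : Continuous (Function.update (fun s : ℂ => (s - 1) * riemannZeta s) 1 1) := by
  rw [continuous_iff_continuousAt]
  intro s
  by_cases hs : s = 1
  · subst hs
    rw [continuousAt_update_same]
    exact riemannZeta_residue_one
  · rw [continuousAt_update_of_ne hs]
    exact (continuousAt_id.sub continuousAt_const).mul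
      (differentiableAt_riemannZeta hs).continuousAt

theorem p_ZETA :
    S_ZETA := by
  obtain ⟨C, hC⟩ := (isCompact_closedBall (1 : ℂ) 2).exists_bound_of_continuousOn
    zeta_cont.continuousOn
  refine ⟨|C| + 1, by positivity, fun δ v hδ hδ1 hv => ?_⟩
  have hm : 0 < max |v| δ := lt_max_of_lt_right hδ
  have hs : (1 + δ + v * I : ℂ) - 1 = δ + v * I := by ring
  have hre : ((δ : ℂ) + v * I).re = δ := by simp
  have him : ((δ : ℂ) + v * I).im = v := by simp
  have h1 : max |v| δ ≤ ‖(δ : ℂ) + v * I‖ := by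
    refine max_le ?_ ?_
    · have := Complex.abs_im_le_norm ((δ : ℂ) + v * I)
      rwa [him] at this
    · have := Complex.re_le_norm ((δ : ℂ) + v * I)
      rwa [hre] at this
  have h2 : ‖(δ : ℂ) + v * I‖ ≤ 2 := by
    have := Complex.norm_le_abs_re_add_abs_im ((δ : ℂ) + v * I)
    rw [hre, him, abs_of_pos hδ] at this
    linarith
  have hne : (1 + δ + v * I : ℂ) ≠ 1 := by
    intro h
    have h' : ((1 + δ + v * I : ℂ)).re = 1 := by rw [h]; simp
    simp at h'
    linarith
  have h3 := hC (1 + δ + v * I) (by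
    rw [Metric.mem_closedBall, dist_eq_norm, hs]; exact h2)
  rw [Function.update_of_ne hne, hs, norm_mul] at h3
  rw [le_div_iff₀ hm]
  have h4 : ‖riemannZeta (1 + δ + v * I)‖ * max |v| δ ≤
      ‖riemannZeta (1 + δ + v * I)‖ * ‖(δ : ℂ) + v * I‖ :=
    mul_le_mul_of_nonneg_left h1 (norm_nonneg _)
  have h5 := le_abs_self C
  nlinarith

end Pool.Agent.P.MP_d14b1f_an.Nv
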