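import Pool.Agent.P.MP_d14b1f_an.Nv.TZ1
import Pool.Agent.P.MP_d14b1f_an.Nv.TM1
import Pool.Agent.P.MP_d14b1f_an.Nv.TMOM
import Pool.Agent.P.MP_d14b1f_an.Nv.TBLK
import Pool.Agent.P.MP_d14b1f_an.Nv.TVAR
import Pool.Agent.P.MP_d14b1f_an.Nv.TBLV
import Pool.Agent.P.MP_d14b1f_an.Nv.TCHAIN
import Pool.Agent.P.MP_d14b1f_an.Nv.TPTW
import Pool.Agent.P.MP_d14b1f_an.Nv.TXI
import Pool.Agent.P.MP_d14b1f_an.Nv.TPATH
import Pool.Agent.P.MP_d14b1f_an.Nv.TGG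
import Pool.Agent.P.MP_d14b1f_an.Nv.TEVA
import Pool.Agent.P.MP_d14b1f_an.Nv.TEVAL
import Pool.Agent.P.MP_d14b1f_an.Nv.TSG
import Pool.Agent.P.MP_d14b1f_an.Nv.TSGA
import Pool.Agent.P.MP_d14b1f_an.Nv.TSGN
import Pool.Agent.P.MP_d14b1f_an.Nv.TTREE
import Pool.Agent.P.MP_d14b1f_an.Nv.TLAM
import Pool.Agent.P.MP_d14b1f_an.Nv.TLOWA
import Pool.Agent.P.MP_d14b1f_an.Nv.TLOW
import Pool.Agent.P.MP_d14b1f_an.Nv.TKW1
import Pool.Agent.P.MP_d14b1f_an.Nv.TKW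
import Pool.Agent.P.MP_d14b1f_an.Nv.TMOB1
import Pool.Agent.P.MP_d14b1f_an.Nv.TMOB
import Pool.Agent.P.MP_d14b1f_an.Nv.TSUB
import Pool.Agent.P.MP_d14b1f_an.Nv.TJEN
import Pool.Agent.P.MP_d14b1f_an.Nv.TENT
import Pool.Agent.P.MP_d14b1f_an.Nv.TPOI
import Pool.Agent.P.MP_d14b1f_an.Nv.TPP
import Pool.Agent.P.MP_d14b1f_an.Nv.TPT
import Pool.Agent.P.MP_d14b1f_an.Nv.TSER
import Pool.Agent.P.MP_d14b1f_an.Nv.THUMP
import Pool.Agent.P.MP_d14b1f_an.Nv.TFINL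
import Pool.Agent.P.MP_d14b1f_an.Nv.TPK
import Pool.Agent.P.MP_d14b1f_an.Nv.TLYA1
import Pool.Agent.P.MP_d14b1f_an.Nv.TLYA
import Pool.Agent.P.MP_d14b1f_an.Nv.TPAIR
import Pool.Agent.P.MP_d14b1f_an.Nv.TZETA
import Pool.Agent.P.MP_d14b1f_an.Nv.TEUL
import Pool.Agent.P.MP_d14b1f_an.Nv.TNT1
import Pool.Agent.P.MP_d14b1f_an.Nv.TNT2
import Pool.Agent.P.MP_d14b1f_an.Nv.TINT
import Pool.Agent.P.MP_d14b1f_an.Nv.TSEC
import Pool.Agent.P.MP_d14b1f_an.Nv.TFST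
import Pool.Agent.P.MP_d14b1f_an.Nv.TUP
import Pool.Agent.P.MP_d14b1f_an.Nv.THB
import Pool.Agent.P.MP_d14b1f_an.Nv.TFINU

namespace Pool.Agent.P.MP_d14b1f_an.Nv

theorem all_Z1 : S_Z1 := p_Z1
theorem all_M1 : S_M1 := p_M1
theorem all_MOM : S_MOM := p_MOM all_M1
theorem all_BLK : S_BLK := p_BLK all_MOM
theorem all_VAR : S_VAR := p_VAR
theorem all_BLV : S_BLV := p_BLV all_BLK all_VAR
theorem all_CHAIN : S_CHAIN := p_CHAIN all_BLV
theorem all_PTW : S_PTW := p_PTW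
theorem all_XI : S_XI := p_XI all_Z1
theorem all_PATH : S_PATH := p_PATH all_PTW all_CHAIN all_XI
theorem all_GG : S_GG := p_GG
theorem all_EVA : S_EVA := p_EVA
theorem all_EVAL : S_EVAL := p_EVAL all_EVA
theorem all_SG : S_SG := p_SG
theorem all_SGA : S_SGA := p_SGA all_SG
theorem all_SGN : S_SGN := p_SGN all_SG
theorem all_TREE : S_TREE := p_TREE all_XI
theorem all_LAM : S_LAM := p_LAM all_PATH all_GG all_TREE
theorem all_LOWA : S_LOWA := p_LOWA all_LAM all_GG all_TREE all_EVAL all_SGA all_SGN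
theorem all_LOW : S_LOW := p_LOW all_LOWA
theorem all_KW1 : S_KW1 := p_KW1
theorem all_KW : S_KW := p_KW all_KW1
theorem all_MOB1 : S_MOB1 := p_MOB1
theorem all_MOB : S_MOB := p_MOB all_MOB1
theorem all_SUB : S_SUB := p_SUB
theorem all_JEN : S_JEN := p_JEN all_MOB all_SUB
theorem all_ENT : S_ENT := p_ENT
theorem all_POI : S_POI := p_POI
theorem all_PP : S_PP := p_PP all_POI
theorem all_PT : S_PT := p_PT all_MOB all_JEN all_ENT all_PP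
theorem all_SER : S_SER := p_SER all_KW all_PT
theorem all_HUMP : S_HUMP := p_HUMP all_LOW all_PT
theorem all_FINL : S_FINL := p_FINL all_HUMP all_SER
theorem all_PK : S_PK := p_PK all_POI
theorem all_LYA1 : S_LYA1 := p_LYA1
theorem all_LYA : S_LYA := p_LYA all_LYA1
theorem all_PAIR : S_PAIR := p_PAIR all_PP all_PK
theorem all_ZETA : S_ZETA := p_ZETA
theorem all_EUL : S_EUL := p_EUL
theorem all_NT1 : S_NT1 := p_NT1 all_ZETA all_EUL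
theorem all_NT2 : S_NT2 := p_NT2 all_ZETA all_EUL
theorem all_INT : S_INT := p_INT
theorem all_SEC : S_SEC := p_SEC all_PAIR all_NT2 all_INT
theorem all_FST : S_FST := p_FST all_MOB all_JEN all_LYA all_NT1
theorem all_UP : S_UP := p_UP all_FST all_SEC all_ENT
theorem all_HB : S_HB := p_HB all_KW
theorem all_FINU : S_FINU := p_FINU all_HB all_UP all_PT

end Pool.Agent.P.MP_d14b1f_an.Nv
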