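import Pool.Agent.P.MP_d14b1f_an.Nv.Defs

/-! Expectation on the torus and averages on the circle. -/

set_option autoImplicit false

namespace Pool.Agent.P.MP_d14b1f_an.Nv

open Complex Filter Finset MeasureTheory Function

instance muHaar : mu.IsHaarMeasure := by unfold mu; infer_instance

instance muProb : IsProbabilityMeasure mu :=
  ⟨by simpa [mu] using Measure.haarMeasure_self (G := Om) (K₀ := ⊤)⟩

theorem intE {β : Type} [NormedAddCommGroup β] {F : Om → β} (hF : Continuous F) : Integrable F mu :=
  hF.integrable_of_hasCompactSupport (HasCompactSupport.of_compactSpace F)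

@[fun_prop] theorem cont_coe : Continuous fun u : Circle => (u : ℂ) := continuous_subtype_val

@[fun_prop] theorem cont_cz : Continuous cz := by unfold cz; fun_prop

@[fun_prop] theorem cont_lp : Continuous lp := by
  unfold lp
  exact Continuous.log (by fun_prop) fun x => (lt_of_lt_of_le one_pos (le_max_left _ _)).ne'

theorem lp_nonneg (x : ℝ) : 0 ≤ lp x := Real.log_nonneg (le_max_left _ _)

theorem lp_mono {x y : ℝ} (h : x ≤ y) : lp x ≤ lp y :=
  Real.log_le_log (lt_of_lt_of_le one_pos (le_max_left _ _)) (max_le_max le_rfl h)

theorem log_le_lp {x : ℝ} (h : 0 < x) : Real.log x ≤ lp x := Real.log_le_log h (le_max_right _ _)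

theorem E_const (c : ℝ) : E (fun _ => c) = c := by simp [E]

theorem E_congr {F G : Om → ℝ} (h : ∀ w, F w = G w) : E F = E G := by rw [funext h]

theorem E_add {F G : Om → ℝ} (hF : Continuous F) (hG : Continuous G) :
    E (fun w => F w + G w) = E F + E G := integral_add (intE hF) (intE hG)

theorem E_sub {F G : Om → ℝ} (hF : Continuous F) (hG : Continuous G) :
    E (fun w => F w - G w) = E F - E G := integral_sub (intE hF) (intE hG)

theorem E_mul (c : ℝ) (F : Om → ℝ) : E (fun w => c * F w) = c * E F := integral_const_mul c F

theorem E_sum {ι : Type} (s : Finset ι) {F : ι → Om → ℝ} (h : ∀ i ∈ s, Continuous (F i)) :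
    E (fun w => ∑ i ∈ s, F i w) = ∑ i ∈ s, E (F i) :=
  integral_finsetSum s fun i hi => intE (h i hi)

theorem E_mono {F G : Om → ℝ} (hF : Continuous F) (hG : Continuous G) (h : ∀ w, F w ≤ G w) :
    E F ≤ E G := integral_mono (intE hF) (intE hG) h

theorem E_nonneg {F : Om → ℝ} (h : ∀ w, 0 ≤ F w) : 0 ≤ E F := integral_nonneg h

/-- translation invariance -/
theorem E_shift (v : Om) (F : Om → ℝ) : E (fun w => F (v * w)) = E F :=
  integral_mul_left_eq_self F v

theorem exists_E_le {F : Om → ℝ} (hF : Continuous F) : ∃ w, E F ≤ F w := by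
  obtain ⟨w, -, hw⟩ := isCompact_univ.exists_isMaxOn Set.univ_nonempty hF.continuousOn
  refine ⟨w, ?_⟩
  rw [← E_const (F w)]
  exact E_mono hF continuous_const fun x => hw (Set.mem_univ x)

/-- Fubini on two copies of the torus -/
theorem E_swap {F : Om → Om → ℝ} (hF : Continuous (uncurry F)) :
    E (fun w => E (fun v => F w v)) = E (fun v => E (fun w => F w v)) :=
  integral_integral_swap
    (hF.integrable_of_hasCompactSupport (HasCompactSupport.of_compactSpace _))

/-- Fubini with a real parameter -/
theorem E_int_swap {F : ℝ → Om → ℝ} (hF : Continuous (uncurry F)) (a b : ℝ) :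
    E (fun w => ∫ t in a..b, F t w) = ∫ t in a..b, E (F t) := by
  unfold E
  symm
  refine intervalIntegral_integral_swap ?_
  have h1 : IntegrableOn (uncurry F) (Set.uIcc a b ×ˢ Set.univ) (volume.prod mu) :=
    hF.continuousOn.integrableOn_compact (isCompact_uIcc.prod isCompact_univ)
  have h2 := h1.mono_set (Set.prod_mono Set.uIoc_subset_uIcc subset_rfl)
  rwa [IntegrableOn, ← Measure.prod_restrict, Measure.restrict_univ] at h2

/-- expectations depend continuously on parameters -/
theorem cont_E {X : Type} [TopologicalSpace X] [FirstCountableTopology X] [LocallyCompactSpace X]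
    {F : X → Om → ℝ} (hF : Continuous (uncurry F)) : Continuous fun x => E (F x) := by
  have := continuous_parametric_integral_of_continuous (μ := mu) hF isCompact_univ
  simpa [E] using this

theorem av_eq (g : ℂ → ℝ) : av (fun u => g u) = Real.circleAverage g 0 1 := by
  simp [av, Real.circleAverage, circleMap, Circle.coe_exp]

theorem intA {g : Circle → ℝ} (hg : Continuous g) (a b : ℝ) :
    IntervalIntegrable (fun θ => g (Circle.exp θ)) volume a b :=
  (hg.comp Circle.exp.continuous).intervalIntegrable _ _

theorem av_const (c : ℝ) : av (fun _ => c) = c := by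
  have := Real.pi_pos
  simp only [av, intervalIntegral.integral_const, sub_zero, smul_eq_mul]
  field_simp

theorem av_congr {f g : Circle → ℝ} (h : ∀ u, f u = g u) : av f = av g := by rw [funext h]

theorem av_add {f g : Circle → ℝ} (hf : Continuous f) (hg : Continuous g) :
    av (fun u => f u + g u) = av f + av g := by
  simp only [av]
  rw [intervalIntegral.integral_add (intA hf _ _) (intA hg _ _), mul_add]

theorem av_sub {f g : Circle → ℝ} (hf : Continuous f) (hg : Continuous g) :
    av (fun u => f u - g u) = av f - av g := by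
  simp only [av]
  rw [intervalIntegral.integral_sub (intA hf _ _) (intA hg _ _), mul_sub]

theorem av_mul (c : ℝ) (f : Circle → ℝ) : av (fun u => c * f u) = c * av f := by
  simp only [av, intervalIntegral.integral_const_mul]
  ring

theorem av_mono {f g : Circle → ℝ} (hf : Continuous f) (hg : Continuous g) (h : ∀ u, f u ≤ g u) :
    av f ≤ av g := by
  have := Real.pi_pos
  refine mul_le_mul_of_nonneg_left ?_ (by positivity)
  exact intervalIntegral.integral_mono_on (by positivity) (intA hf _ _) (intA hg _ _)
    fun x _ => h _

theorem av_nonneg {f : Circle → ℝ} (h : ∀ u, 0 ≤ f u) : 0 ≤ av f := by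
  have := Real.pi_pos
  exact mul_nonneg (by positivity)
    (intervalIntegral.integral_nonneg (by positivity) fun x _ => h _)

/-- rotation invariance -/
theorem av_rot (v : Circle) (g : Circle → ℝ) : av (fun u => g (v * u)) = av g := by
  obtain ⟨a, rfl⟩ := Circle.exp_surjective v
  have hp : Periodic (fun θ : ℝ => g (Circle.exp θ)) (2 * Real.pi) := fun θ => by
    simp [Circle.exp_add]
  simp only [av, ← Circle.exp_add]
  rw [intervalIntegral.integral_comp_add_left (fun θ => g (Circle.exp θ)) a, add_zero,
    hp.intervalIntegral_add_eq a 0, zero_add]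

theorem cont_av {X : Type} [TopologicalSpace X] {F : X → Circle → ℝ} (hF : Continuous (uncurry F)) :
    Continuous fun x => av (F x) := by
  unfold av
  refine continuous_const.mul
    (intervalIntegral.continuous_parametric_intervalIntegral_of_continuous' ?_ _ _)
  exact hF.comp (continuous_fst.prodMk (Circle.exp.continuous.comp continuous_snd))

/-- averaging over a one parameter family of translations -/
theorem E_av {F : Om → ℝ} (hF : Continuous F) {v : Circle → Om} (hv : Continuous v) :
    E F = E (fun w => av fun u => F (v u * w)) := by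
  have h1 : Continuous (uncurry fun (θ : ℝ) (w : Om) => F (v (Circle.exp θ) * w)) :=
    hF.comp ((hv.comp (Circle.exp.continuous.comp continuous_fst)).mul continuous_snd)
  unfold av
  rw [E_mul, E_int_swap h1]
  simp only [E_shift]
  exact (av_const (E F)).symm

/-- averaging over one coordinate -/
theorem E_step (j : ℕ) {F : Om → ℝ} (hF : Continuous F) :
    E F = E (fun w => av fun u => F (update w j u)) := by
  rw [E_av hF (v := fun u => update 1 j u) (by fun_prop)]
  refine E_congr fun w => ?_
  rw [← av_rot (w j) fun u => F (update w j u)]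
  refine av_congr fun u => congrArg F (funext fun i => ?_)
  by_cases h : i = j
  · subst h; simp [mul_comm]
  · simp [update_of_ne h]

theorem cont_step (j : ℕ) {F : Om → ℝ} (hF : Continuous F) :
    Continuous fun w : Om => av fun u => F (update w j u) :=
  cont_av (hF.comp (continuous_fst.update j continuous_snd))

theorem E_step_le (j : ℕ) {F G : Om → ℝ} (hF : Continuous F) (hG : Continuous G)
    (h : ∀ w, (av fun u => F (update w j u)) ≤ G w) : E F ≤ E G := by
  rw [E_step j hF]
  exact E_mono (cont_step j hF) hG h

theorem E_step_ge (j : ℕ) {F G : Om → ℝ} (hF : Continuous F) (hG : Continuous G)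
    (h : ∀ w, G w ≤ av fun u => F (update w j u)) : E G ≤ E F := by
  rw [E_step j hF]
  exact E_mono hG (cont_step j hF) h

theorem E_coord (j : ℕ) {g : Circle → ℝ} (hg : Continuous g) : E (fun w => g (w j)) = av g := by
  rw [E_step j (by fun_prop), ← E_const (av g)]
  simp [E_const]

/-- independence of the coordinates -/
theorem E_prod (s : Finset ℕ) {g : ℕ → Circle → ℝ} (hg : ∀ j ∈ s, Continuous (g j)) :
    E (fun w => ∏ j ∈ s, g j (w j)) = ∏ j ∈ s, av (g j) := by
  induction s using Finset.induction_on with
  | empty => simp [E_const]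
  | insert a s ha ih =>
    have hc : Continuous fun w : Om => ∏ j ∈ insert a s, g j (w j) :=
      continuous_finsetProd _ fun j hj => (hg j hj).comp (continuous_apply j)
    rw [E_step a hc, prod_insert ha, ← ih fun j hj => hg j (mem_insert_of_mem hj), ← E_mul]
    refine E_congr fun w => ?_
    rw [mul_comm, ← av_mul]
    refine av_congr fun u => ?_
    rw [prod_insert ha, update_self, mul_comm]
    congr 1
    exact prod_congr rfl fun j hj => by rw [update_of_ne (ne_of_mem_of_not_mem hj ha)]

theorem cont_mix (J : Finset ℕ) : Continuous fun x : Om × Om => (J.piecewise x.2 x.1 : Om) := by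
  refine continuous_pi fun j => ?_
  by_cases h : j ∈ J
  · simp only [piecewise_eq_of_mem _ _ _ h]; fun_prop
  · simp only [piecewise_eq_of_notMem _ _ _ h]; fun_prop

/-- resampling the coordinates in `J` -/
theorem E_mix (J : Finset ℕ) {F : Om → ℝ} (hF : Continuous F) :
    E F = E (fun w => E fun v => F (J.piecewise v w)) := by
  have h1 : Continuous (uncurry fun (v w : Om) => F ((J.piecewise v 1 : Om) * w)) :=
    hF.comp (((cont_mix J).comp (continuous_const.prodMk continuous_fst)).mul continuous_snd)
  have h2 := E_swap h1
  simp only [E_shift, E_const] at h2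
  rw [h2]
  refine E_congr fun w => ?_
  rw [← E_shift w fun v => F (J.piecewise v w)]
  refine E_congr fun v => congrArg F (funext fun j => ?_)
  by_cases h : j ∈ J
  · simp [piecewise_eq_of_mem _ _ _ h, mul_comm]
  · simp [piecewise_eq_of_notMem _ _ _ h]

theorem E_mix_le (J : Finset ℕ) {F G : Om → ℝ} (hF : Continuous F) (hG : Continuous G)
    (h : ∀ w, (E fun v => F (J.piecewise v w)) ≤ G w) : E F ≤ E G := by
  rw [E_mix J hF]
  exact E_mono (cont_E (hF.comp (cont_mix J))) hG h

theorem av_re (c : ℂ) : av (fun u => (c * u).re) = 0 := by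
  have h := av_rot (-1) fun u => (c * u).re
  have h2 : av (fun u : Circle => (c * ((-1 * u : Circle) : ℂ)).re) =
      -1 * av fun u => (c * u).re := by
    rw [← av_mul]
    exact av_congr fun u => by simp
  linarith

theorem av_re_sq (c : ℂ) : av (fun u => (c * u).re ^ 2) = ‖c‖ ^ 2 / 2 := by
  have h := av_rot (Circle.exp (Real.pi / 2)) fun u => (c * u).re ^ 2
  have e : ((Circle.exp (Real.pi / 2) : Circle) : ℂ) = I := by
    rw [Circle.coe_exp]; push_cast; exact Complex.exp_pi_div_two_mul_I
  have h2 : av (fun u : Circle => (c * ((Circle.exp (Real.pi / 2) * u : Circle) : ℂ)).re ^ 2 +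
      (c * u).re ^ 2) = ‖c‖ ^ 2 := by
    rw [← av_const (‖c‖ ^ 2)]
    refine av_congr fun u => ?_
    have h3 : ‖c * u‖ ^ 2 = ‖c‖ ^ 2 := by simp
    rw [← h3, Circle.coe_mul, e, Complex.sq_norm, Complex.normSq_apply,
      show c * (I * u) = (c * u) * I by ring, Complex.mul_I_re]
    ring
  rw [av_add (by fun_prop) (by fun_prop), h] at h2
  linarith

end Pool.Agent.P.MP_d14b1f_an.Nv
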