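import Pool.Agent.P.MP_d14b1f_an.Nv.Base

/-! Basic facts on the disc automorphisms, the Bohr lift and the levels. -/

set_option autoImplicit false

namespace Pool.Agent.P.MP_d14b1f_an.Nv

open Complex Filter Finset MeasureTheory Function
open Pool.Agent.P.MP_74dd9d_nt (Pr SS mem_Pr SS_lower SS_upper)

theorem den_ne {z ζ : ℂ} (hz : ‖z‖ < 1) (hζ : ‖ζ‖ ≤ 1) : 1 - (starRingEnd ℂ) z * ζ ≠ 0 := by
  intro h
  have h1 : (starRingEnd ℂ) z * ζ = 1 := by linear_combination -h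
  have h2 := congrArg norm h1
  rw [norm_mul, Complex.norm_conj, norm_one] at h2
  nlinarith [norm_nonneg z, norm_nonneg ζ]

theorem sub_ne {z : ℂ} (hz : ‖z‖ < 1) (u : Circle) : (u : ℂ) - z ≠ 0 := by
  intro h
  rw [← sub_eq_zero.1 h, Circle.norm_coe] at hz
  exact lt_irrefl _ hz

theorem coe_mobC {z : ℂ} (hz : ‖z‖ < 1) (u : Circle) : (mobC z u : ℂ) = mob z u := by
  have h := den_ne hz (Circle.norm_coe u).le
  have h1 : (u : ℂ) * (starRingEnd ℂ) u = 1 := by simp [Complex.mul_conj]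
  have h2 : ((Circle.ofConjDivSelf _ h : Circle) : ℂ) =
      (starRingEnd ℂ) (1 - (starRingEnd ℂ) z * u) / (1 - (starRingEnd ℂ) z * u) := rfl
  rw [mobC, dif_pos h, Circle.coe_mul, h2, mob, ← mul_div_assoc]
  congr 1
  simp only [map_sub, map_one, map_mul, Complex.conj_conj]
  linear_combination -z * h1

theorem mobC_zero (u : Circle) : mobC 0 u = u :=
  Circle.ext (by rw [coe_mobC (by simp)]; simp [mob])

theorem mob_neg_mob {z ζ : ℂ} (hz : ‖z‖ < 1) (hζ : ‖ζ‖ ≤ 1) : mob (-z) (mob z ζ) = ζ := by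
  have h := den_ne hz hζ
  have h2 := den_ne hz hz.le
  have h3 : 1 - (starRingEnd ℂ) (-z) * ((ζ - z) / (1 - (starRingEnd ℂ) z * ζ)) =
      (1 - (starRingEnd ℂ) z * z) / (1 - (starRingEnd ℂ) z * ζ) := by
    rw [map_neg]; field_simp; ring
  have h4 : (ζ - z) / (1 - (starRingEnd ℂ) z * ζ) - -z =
      ζ * (1 - (starRingEnd ℂ) z * z) / (1 - (starRingEnd ℂ) z * ζ) := by
    rw [eq_div_iff h, sub_mul, div_mul_cancel₀ _ h]; ring
  rw [mob, mob, h3, h4, div_div_div_cancel_right₀ h, mul_div_assoc, div_self h2, mul_one]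

theorem mobC_neg_mobC {z : ℂ} (hz : ‖z‖ < 1) (u : Circle) : mobC (-z) (mobC z u) = u :=
  Circle.ext (by
    rw [coe_mobC (by simpa using hz), coe_mobC hz, mob_neg_mob hz (Circle.norm_coe u).le])

theorem cont_mobC {X : Type} [TopologicalSpace X] {z : X → ℂ} {u : X → Circle} (hz : Continuous z)
    (hu : Continuous u) (h : ∀ x, ‖z x‖ < 1) : Continuous fun x => mobC (z x) (u x) := by
  have e : Continuous fun x => (mobC (z x) (u x) : ℂ) := by
    simp only [coe_mobC (h _)]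
    unfold mob
    exact Continuous.div (by fun_prop) (by fun_prop) fun x => den_ne (h x) (Circle.norm_coe _).le
  exact Topology.IsInducing.subtypeVal.continuous_iff.2 e

theorem cont_Pk {X : Type} [TopologicalSpace X] {z : X → ℂ} {u : X → Circle} (hz : Continuous z)
    (hu : Continuous u) (h : ∀ x, ‖z x‖ < 1) : Continuous fun x => Pk (z x) (u x) := by
  unfold Pk
  exact Continuous.div (by fun_prop) (by fun_prop) fun x =>
    pow_ne_zero _ (norm_ne_zero_iff.2 (sub_ne (h x) _))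

theorem Pk_nonneg {z : ℂ} (hz : ‖z‖ < 1) (u : Circle) : 0 ≤ Pk z u :=
  div_nonneg (by nlinarith [norm_nonneg z]) (by positivity)

theorem Pk_zero (u : Circle) : Pk 0 u = 1 := by simp [Pk]

theorem Adm.lt {N : ℕ} {z : ℕ → ℂ} (h : Adm N z) (j : ℕ) : ‖z j‖ < 1 := by
  nlinarith [h.1 j, norm_nonneg (z j)]

theorem cont_bet {X : Type} [TopologicalSpace X] {z : X → ℕ → ℂ} {w : X → Om} (hz : Continuous z)
    (hw : Continuous w) (h : ∀ x j, ‖z x j‖ < 1) : Continuous fun x => bet (z x) (w x) :=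
  continuous_pi fun j => cont_mobC (by fun_prop) (by fun_prop) fun x => h x j

theorem cont_rho {X : Type} [TopologicalSpace X] (N : ℕ) {z : X → ℕ → ℂ} {w : X → Om}
    (hz : Continuous z) (hw : Continuous w) (h : ∀ x j, ‖z x j‖ < 1) :
    Continuous fun x => rho N (z x) (w x) :=
  continuous_finsetProd _ fun j _ => cont_Pk (by fun_prop) (by fun_prop) fun x => h x j

theorem rho_nonneg (N : ℕ) {z : ℕ → ℂ} (h : ∀ j, ‖z j‖ < 1) (w : Om) : 0 ≤ rho N z w :=
  prod_nonneg fun j _ => Pk_nonneg (h j) _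

@[fun_prop] theorem cont_kap (D : ℝ) : Continuous (kap D) := by unfold kap; fun_prop

theorem kap_nonneg (D x : ℝ) : 0 ≤ kap D x := le_max_left _ _

theorem kap_le_one (D x : ℝ) : kap D x ≤ 1 := max_le zero_le_one (min_le_left _ _)

theorem kap_eq_one {D x : ℝ} (h : x ≤ D) : kap D x = 1 := by
  rw [kap, min_eq_left (by linarith), max_eq_right zero_le_one]

theorem kap_eq_zero {D x : ℝ} (h : D + 1 ≤ x) : kap D x = 0 :=
  max_eq_left ((min_le_right _ _).trans (by linarith))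

theorem cont_hw {X : Type} [TopologicalSpace X] (D : ℝ) (N : ℕ) {c : X → ℕ → ℂ} {w : X → Om}
    (hc : Continuous c) (hw' : Continuous w) : Continuous fun x => hw D N (c x) (w x) := by
  unfold hw
  fun_prop

theorem hw_nonneg (D : ℝ) (N : ℕ) (c : ℕ → ℂ) (w : Om) : 0 ≤ hw D N c w :=
  prod_nonneg fun _ _ => kap_nonneg _ _

theorem hw_le_one (D : ℝ) (N : ℕ) (c : ℕ → ℂ) (w : Om) : hw D N c w ≤ 1 :=
  prod_le_one (fun _ _ => kap_nonneg _ _) fun _ _ => kap_le_one _ _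

theorem hw_rot (D : ℝ) (N : ℕ) (c : ℕ → ℂ) (u : Circle) (w : Om) :
    hw D N c (fun j => u * w j) = hw D N c w := by
  refine prod_congr rfl fun M _ => ?_
  have : ∑ j ∈ range M, c j * ((u * w j : Circle) : ℂ) = u * ∑ j ∈ range M, c j * (w j : ℂ) := by
    rw [mul_sum]
    exact sum_congr rfl fun j _ => by rw [Circle.coe_mul]; ring
  rw [this, norm_mul, Circle.norm_coe, one_mul]

theorem mon_one (ζ : ℕ → ℂ) : mon ζ 1 = 1 := by simp [mon]

theorem mon_mul (ζ : ℕ → ℂ) {a b : ℕ} (ha : a ≠ 0) (hb : b ≠ 0) :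
    mon ζ (a * b) = mon ζ a * mon ζ b := by
  rw [mon, Nat.factorization_mul ha hb]
  exact Finsupp.prod_add_index' (fun _ => pow_zero _) fun _ _ _ => pow_add _ _ _

theorem mon_prime (ζ : ℕ → ℂ) {q : ℕ} (hq : q.Prime) : mon ζ q = ζ q := by
  simp [mon, hq.factorization]

theorem mon_congr {ζ ξ : ℕ → ℂ} {n : ℕ} (h : ∀ q, q.Prime → q ∣ n → ζ q = ξ q) :
    mon ζ n = mon ξ n :=
  Finsupp.prod_congr fun q hq => by
    rw [h q (Nat.prime_of_mem_primeFactors hq) (Nat.dvd_of_mem_primeFactors hq)]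

theorem mon_cpow (s : ℂ) {n : ℕ} (hn : n ≠ 0) :
    mon (fun j => (j : ℂ) ^ (-s)) n = (n : ℂ) ^ (-s) := by
  induction n using Nat.recOnMul with
  | zero => exact absurd rfl hn
  | one => simp [mon_one]
  | prime q hq => exact mon_prime _ hq
  | mul a b iha ihb =>
    have ha := left_ne_zero_of_mul hn
    have hb := right_ne_zero_of_mul hn
    rw [mon_mul _ ha hb, iha ha, ihb hb, Nat.cast_mul, Complex.natCast_mul_natCast_cpow]

@[fun_prop] theorem cont_mon (n : ℕ) : Continuous fun ζ => mon ζ n := by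
  unfold mon Finsupp.prod; fun_prop

@[fun_prop] theorem cont_lift (P : ℕ →₀ ℂ) : Continuous (lift P) := by
  unfold lift; fun_prop

theorem lift_cpow (P : ℕ →₀ ℂ) (s : ℂ) : lift P (fun j => (j : ℂ) ^ (-s)) = dp P s :=
  sum_congr rfl fun n _ => by rw [mon_cpow s n.succ_ne_zero]; push_cast; rfl

theorem lift_zs (P : ℕ →₀ ℂ) : ∃ N0 : ℕ, ∀ N, N0 ≤ N → ∀ s, lift P (zs N s) = dp P s := by
  refine ⟨P.support.sup id + 2, fun N hN s => ?_⟩
  rw [← lift_cpow]
  refine sum_congr rfl fun n hn => ?_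
  rw [mon_congr fun q hq hd => ?_]
  have h1 : n ≤ P.support.sup id := le_sup (f := id) hn
  have h2 := Nat.le_of_dvd n.succ_pos hd
  exact if_pos ⟨hq, by omega⟩

theorem lift_eq_sum (P : ℕ →₀ ℂ) (ζ : ℕ → ℂ) :
    lift P ζ = P.sum fun n a => a * mon ζ (n + 1) := rfl

theorem lift_add (P Q : ℕ →₀ ℂ) (ζ : ℕ → ℂ) : lift (P + Q) ζ = lift P ζ + lift Q ζ := by
  simp only [lift_eq_sum]
  exact Finsupp.sum_add_index' (fun _ => zero_mul _) fun _ _ _ => add_mul _ _ _

theorem lift_sub (P Q : ℕ →₀ ℂ) (ζ : ℕ → ℂ) : lift (P - Q) ζ = lift P ζ - lift Q ζ := by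
  have := lift_add (P - Q) Q ζ
  rw [sub_add_cancel] at this
  rw [this]; ring

theorem lift_smul (c : ℂ) (P : ℕ →₀ ℂ) (ζ : ℕ → ℂ) : lift (c • P) ζ = c * lift P ζ := by
  simp only [lift_eq_sum]
  rw [Finsupp.sum_smul_index fun _ => zero_mul _, Finsupp.mul_sum]
  simp only [mul_assoc]

theorem lift_zero (ζ : ℕ → ℂ) : lift 0 ζ = 0 := by simp [lift]

theorem lift_single (n : ℕ) (a : ℂ) (ζ : ℕ → ℂ) :
    lift (Finsupp.single n a) ζ = a * mon ζ (n + 1) := by
  rw [lift_eq_sum, Finsupp.sum_single_index (zero_mul _)]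

theorem lift_sum {ι : Type} (s : Finset ι) (P : ι → ℕ →₀ ℂ) (ζ : ℕ → ℂ) :
    lift (∑ i ∈ s, P i) ζ = ∑ i ∈ s, lift (P i) ζ := by
  classical
  induction s using Finset.induction_on with
  | empty => simp [lift_zero]
  | insert a s ha ih => rw [sum_insert ha, sum_insert ha, lift_add, ih]

theorem dp_add (P Q : ℕ →₀ ℂ) (s : ℂ) : dp (P + Q) s = dp P s + dp Q s := by
  simp only [← lift_cpow, lift_add]

theorem dp_sub (P Q : ℕ →₀ ℂ) (s : ℂ) : dp (P - Q) s = dp P s - dp Q s := by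
  simp only [← lift_cpow, lift_sub]

theorem dp_smul (c : ℂ) (P : ℕ →₀ ℂ) (s : ℂ) : dp (c • P) s = c * dp P s := by
  simp only [← lift_cpow, lift_smul]

theorem dp_sum {ι : Type} (s : Finset ι) (P : ι → ℕ →₀ ℂ) (z : ℂ) :
    dp (∑ i ∈ s, P i) z = ∑ i ∈ s, dp (P i) z := by
  simp only [← lift_cpow, lift_sum]

@[fun_prop] theorem cont_dp (P : ℕ →₀ ℂ) : Continuous (dp P) := by
  unfold dp
  refine continuous_finsetSum _ fun n _ => continuous_const.mul ?_
  exact Continuous.const_cpow continuous_neg (Or.inl (by exact_mod_cast n.succ_ne_zero))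

theorem IsDP.mon {n : ℕ} (hn : n ≠ 0) (a : ℂ) : IsDP fun ζ => a * mon ζ n :=
  ⟨Finsupp.single (n - 1) a, fun ζ => by rw [lift_single, Nat.sub_add_cancel (by omega)]⟩

theorem IsDP.const (a : ℂ) : IsDP fun _ => a := by
  simpa [mon_one] using IsDP.mon one_ne_zero a

theorem IsDP.coord {q : ℕ} (hq : q.Prime) (a : ℂ) : IsDP fun ζ => a * ζ q := by
  simpa [mon_prime _ hq] using IsDP.mon hq.ne_zero a

theorem IsDP.add {F G : (ℕ → ℂ) → ℂ} (hF : IsDP F) (hG : IsDP G) : IsDP fun ζ => F ζ + G ζ := by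
  obtain ⟨P, hP⟩ := hF
  obtain ⟨Q, hQ⟩ := hG
  exact ⟨P + Q, fun ζ => by rw [lift_add, hP, hQ]⟩

theorem IsDP.sum {ι : Type} (s : Finset ι) {F : ι → (ℕ → ℂ) → ℂ} (h : ∀ i ∈ s, IsDP (F i)) :
    IsDP fun ζ => ∑ i ∈ s, F i ζ := by
  classical
  induction s using Finset.induction_on with
  | empty => simpa using IsDP.const 0
  | insert a s ha ih =>
    simp only [sum_insert ha]
    exact (h a (mem_insert_self _ _)).add (ih fun i hi => h i (mem_insert_of_mem hi))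

theorem IsDP.mul {F G : (ℕ → ℂ) → ℂ} (hF : IsDP F) (hG : IsDP G) : IsDP fun ζ => F ζ * G ζ := by
  obtain ⟨P, hP⟩ := hF
  obtain ⟨Q, hQ⟩ := hG
  have e : (fun ζ => F ζ * G ζ) = fun ζ => ∑ a ∈ P.support, ∑ b ∈ Q.support,
      P a * Q b * Nv.mon ζ ((a + 1) * (b + 1)) := by
    funext ζ
    rw [← hP, ← hQ, lift, lift, sum_mul_sum]
    refine sum_congr rfl fun a _ => sum_congr rfl fun b _ => ?_
    rw [mon_mul _ a.succ_ne_zero b.succ_ne_zero]; ring
  rw [e]
  exact IsDP.sum _ fun a _ => IsDP.sum _ fun b _ => IsDP.mon (by positivity) _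

theorem IsDP.prod {ι : Type} (s : Finset ι) {F : ι → (ℕ → ℂ) → ℂ} (h : ∀ i ∈ s, IsDP (F i)) :
    IsDP fun ζ => ∏ i ∈ s, F i ζ := by
  classical
  induction s using Finset.induction_on with
  | empty => simpa using IsDP.const 1
  | insert a s ha ih =>
    simp only [prod_insert ha]
    exact (h a (mem_insert_self _ _)).mul (ih fun i hi => h i (mem_insert_of_mem hi))

theorem mem_Lv {i j : ℕ} :
    j ∈ Lv i ↔ j.Prime ∧ Real.exp (2 ^ (i + 2)) < j ∧ (j : ℝ) ≤ Real.exp (2 ^ (i + 3)) := by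
  rw [Lv, Finset.mem_sdiff, mem_Pr, mem_Pr, not_and]
  constructor
  · rintro ⟨⟨h1, h2⟩, h3⟩
    exact ⟨h2, not_le.1 fun h => h3 h h2, h1⟩
  · rintro ⟨h1, h2, h3⟩
    exact ⟨⟨h3, h1⟩, fun h => absurd h (not_le.2 h2)⟩

theorem Lv_unique {i i' j : ℕ} (h : j ∈ Lv i) (h' : j ∈ Lv i') : i = i' := by
  have key : ∀ a b : ℕ, j ∈ Lv a → j ∈ Lv b → a ≤ b := fun a b ha hb => by
    have h1 := Real.exp_lt_exp.1 ((mem_Lv.1 ha).2.1.trans_le (mem_Lv.1 hb).2.2)
    have := (pow_lt_pow_iff_right₀ (by norm_num : (1 : ℝ) < 2)).1 h1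
    omega
  exact le_antisymm (key _ _ h h') (key _ _ h' h)

theorem Lv_ge {i j : ℕ} (h : j ∈ Lv i) : 49 ≤ j := by
  have h1 := (mem_Lv.1 h).2.1
  have h2 : (4 : ℝ) ≤ 2 ^ (i + 2) := by
    have : (1 : ℝ) ≤ 2 ^ i := one_le_pow₀ (by norm_num)
    rw [pow_add]; linarith
  have h3 : (49 : ℝ) ≤ Real.exp 4 := by
    have h4 := Real.exp_one_gt_d9
    have h5 : Real.exp 4 = Real.exp 1 ^ 4 := by rw [← Real.exp_nat_mul]; norm_num
    rw [h5]
    calc (49 : ℝ) ≤ 2.7 ^ 4 := by norm_num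
      _ ≤ _ := pow_le_pow_left₀ (by norm_num) (by linarith) 4
  have := h3.trans ((Real.exp_le_exp.2 h2).trans h1.le)
  exact_mod_cast this

theorem rr_nonneg (j : ℕ) : 0 ≤ rr j := by unfold rr; positivity

theorem rr_sq (j : ℕ) : rr j ^ 2 = 1 / (j : ℝ) := by
  rw [rr, inv_pow, Real.sq_sqrt (by positivity), one_div]

theorem rr_le {i j : ℕ} (h : j ∈ Lv i) : rr j ≤ 1 / 7 := by
  have h1 : (49 : ℝ) ≤ j := by exact_mod_cast Lv_ge h
  have h2 : (7 : ℝ) ≤ Real.sqrt j := Real.le_sqrt_of_sq_le (by linarith)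
  rw [rr, one_div]
  exact inv_anti₀ (by norm_num) h2

theorem tw_apply {n i j : ℕ} (τ : ℕ → ℝ) (hi : i < n) (hj : j ∈ Lv i) :
    tw n τ j = Circle.exp (τ i * Real.log j) := by
  rw [tw, sum_eq_single i (fun b _ hb => if_neg fun h => hb (Lv_unique h hj))
    (fun h => absurd (mem_range.2 hi) h), if_pos hj]

/-- the reciprocals of the primes of the first `k` levels -/
theorem sum_Lv (k : ℕ) : ∑ i ∈ range k, ∑ j ∈ Lv i, 1 / (j : ℝ) = SS (2 ^ (k + 2)) - SS 4 := by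
  induction k with
  | zero => norm_num
  | succ k ih =>
    have hs : Pr (2 ^ (k + 2)) ⊆ Pr (2 ^ (k + 3)) := fun q hq => mem_Pr.2
      ⟨(mem_Pr.1 hq).1.trans (Real.exp_le_exp.2 (pow_le_pow_right₀ (by norm_num) (by omega))),
        (mem_Pr.1 hq).2⟩
    rw [sum_range_succ, ih, Lv, sum_sdiff_eq_sub hs]
    simp only [SS]
    ring

/-- Mertens for the levels -/
theorem mert_Lv (k : ℕ) : |∑ i ∈ range k, ∑ j ∈ Lv i, 1 / (j : ℝ) - k * Real.log 2| ≤ 7 := by
  have h4 : (1 : ℝ) ≤ 2 ^ k := one_le_pow₀ (by norm_num)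
  have e : (2 : ℝ) ^ (k + 2) = 4 * 2 ^ k := by ring
  have e2 : Real.exp (k * Real.log 2) = 2 ^ k := by
    rw [Real.exp_nat_mul, Real.exp_log (by norm_num)]
  have h7 : (600 : ℝ) ≤ Real.exp 7 := by
    have h4 := Real.exp_one_gt_d9
    have h5 : Real.exp 7 = Real.exp 1 ^ 7 := by rw [← Real.exp_nat_mul]; norm_num
    rw [h5]
    calc (600 : ℝ) ≤ 2.7 ^ 7 := by norm_num
      _ ≤ _ := pow_le_pow_left₀ (by norm_num) (by linarith) 7
  have a1 := SS_lower (2 ^ (k + 2))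
  have a2 := SS_upper (t := 2 ^ (k + 2)) (by linarith)
  have b1 := SS_lower 4
  have b2 := SS_upper (t := 4) (by norm_num)
  rw [sum_Lv, abs_le]
  constructor
  · have : Real.exp (SS 4 + k * Real.log 2) ≤ Real.exp (SS (2 ^ (k + 2)) + 7) := by
      rw [Real.exp_add, Real.exp_add, e2]
      nlinarith [Real.exp_pos (SS (2 ^ (k + 2)))]
    linarith [Real.exp_le_exp.1 this]
  · have : Real.exp (SS (2 ^ (k + 2))) ≤ Real.exp (SS 4 + k * Real.log 2 + 7) := by
      rw [Real.exp_add, Real.exp_add, e2]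
      nlinarith [mul_le_mul b1 h7 (by norm_num) (Real.exp_pos _).le]
    linarith [Real.exp_le_exp.1 this]

/-- the cubes are summable -/
theorem sum_rr_cube (s : Finset ℕ) : ∑ j ∈ s, rr j ^ 3 ≤ 3 := by
  have key : ∀ N : ℕ, ∑ j ∈ range (N + 2), rr j ^ 3 ≤ 3 - 2 * rr (N + 1) := by
    intro N
    induction N with
    | zero => norm_num [sum_range_succ, rr]
    | succ N ih =>
      rw [sum_range_succ]
      have ha : 0 < Real.sqrt (N + 1 : ℕ) := by positivity
      have hb : Real.sqrt (N + 1 : ℕ) ≤ Real.sqrt (N + 2 : ℕ) :=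
        Real.sqrt_le_sqrt (by push_cast; linarith)
      have h2 : Real.sqrt (N + 2 : ℕ) ^ 2 = Real.sqrt (N + 1 : ℕ) ^ 2 + 1 := by
        rw [Real.sq_sqrt (by positivity), Real.sq_sqrt (by positivity)]; push_cast; ring
      suffices rr (N + 2) ^ 3 ≤ 2 * rr (N + 1) - 2 * rr (N + 2) by linarith
      unfold rr
      generalize Real.sqrt (N + 1 : ℕ) = a at *
      generalize Real.sqrt (N + 2 : ℕ) = b at *
      have hb0 : 0 < b := by linarith
      have h3 : 2 * a⁻¹ - 2 * b⁻¹ - b⁻¹ ^ 3 = (2 * b ^ 2 * (b - a) - a) / (a * b ^ 3) := by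
        field_simp
      have h4 : 0 ≤ 2 * b ^ 2 * (b - a) - a := by
        have h5 : (b - a) * (b + a) = 1 := by linarith
        have h6 : (2 * b ^ 2 * (b - a) - a) * (b + a) = 2 * b ^ 2 - a * (b + a) := by
          linear_combination 2 * b ^ 2 * h5
        by_contra h7
        nlinarith [mul_pos (neg_pos.2 (not_le.1 h7)) (add_pos hb0 ha)]
      have : 0 ≤ (2 * b ^ 2 * (b - a) - a) / (a * b ^ 3) := by positivity
      linarith
  have hs : s ⊆ range (s.sup id + 2) := fun j hj =>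
    mem_range.2 (by have : j ≤ s.sup id := le_sup (f := id) hj; omega)
  have h1 := sum_le_sum_of_subset_of_nonneg (f := fun j => rr j ^ 3) hs
    fun j _ _ => pow_nonneg (rr_nonneg j) 3
  linarith [key (s.sup id), rr_nonneg (s.sup id + 1)]

@[fun_prop] theorem cont_XX (i : ℕ) : Continuous (XX i) := by unfold XX; fun_prop
@[fun_prop] theorem cont_SX (k : ℕ) : Continuous (SX k) := by unfold SX; fun_prop
@[fun_prop] theorem cont_TX (n : ℕ) (η : ℝ) : Continuous (TX n η) := by unfold TX; fun_prop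
@[fun_prop] theorem cont_YY (n : ℕ) : Continuous (YY n) := by unfold YY; fun_prop
@[fun_prop] theorem cont_GG (n : ℕ) (η : ℝ) : Continuous (GG n η) := by unfold GG; fun_prop

theorem one_le_YY (n : ℕ) (ζ : ℕ → ℂ) : 1 ≤ YY n ζ := by
  have h := single_le_sum (f := fun k => Real.exp (2 * SX k ζ)) (s := range (n + 1))
    (fun _ _ => (Real.exp_pos _).le) (mem_range.2 n.succ_pos)
  simpa [SX, YY] using h

end Pool.Agent.P.MP_d14b1f_an.Nv
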