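import Pool.Agent.P.MP_d14b1f_an.Nv.BaseB

/-! The points of a vertical line and the weights attached to them. -/

set_option autoImplicit false

namespace Pool.Agent.P.MP_d14b1f_an.Nv

open Complex Filter Finset MeasureTheory Function

/-- the conditioned Poisson weight at the point with abscissa `σ` and ordinate `t` -/
noncomputable def WW (D : ℝ) (N : ℕ) (σ t : ℝ) (w : Om) : ℝ :=
  hw D N (fun j => (starRingEnd ℂ) (zs N (σ + t * I) j)) (bet (zs N (σ + t * I)) w) *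
    rho N (zs N (σ + t * I)) w

/-- penalty summed over all nodes of the tree -/
noncomputable def AA (n : ℕ) (w : Om) : ℝ :=
  ∑ k ∈ range (n + 1), ∑ ν ∈ range (n * 2 ^ k), Real.exp (2 * SX k (cz (tw n (nod n k ν) * w)))

theorem norm_zs (N : ℕ) (s : ℂ) (j : ℕ) :
    ‖zs N s j‖ = if j.Prime ∧ j < N then (j : ℝ) ^ (-s.re) else 0 := by
  unfold zs
  split_ifs with h
  · rw [Complex.norm_natCast_cpow_of_pos h.1.pos, Complex.neg_re]
  · simp

theorem adm_zs (N : ℕ) {s : ℂ} (hs : 1 / 2 ≤ s.re) : Adm N (zs N s) := by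
  refine ⟨fun j => ?_, fun j hj => if_neg fun h => by omega⟩
  rw [norm_zs]
  split_ifs with h
  · have h2 : (2 : ℝ) ≤ j := by exact_mod_cast h.1.two_le
    rw [← Real.rpow_natCast, ← Real.rpow_mul (by positivity)]
    calc (j : ℝ) ^ (-s.re * (2 : ℕ)) ≤ (j : ℝ) ^ (-1 : ℝ) :=
          Real.rpow_le_rpow_of_exponent_le (by linarith) (by push_cast; linarith)
      _ ≤ 1 / 2 := by rw [Real.rpow_neg_one, one_div]; exact inv_anti₀ (by norm_num) h2
  · norm_num

@[fun_prop] theorem cont_zs (N : ℕ) : Continuous (zs N) := by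
  refine continuous_pi fun j => ?_
  unfold zs
  split_ifs with h
  · exact Continuous.const_cpow continuous_neg (Or.inl (by exact_mod_cast h.1.ne_zero))
  · exact continuous_const

theorem cont_WW (D : ℝ) (N : ℕ) {σ : ℝ} (hσ : 1 / 2 ≤ σ) : Continuous (uncurry (WW D N σ)) := by
  have h : ∀ (x : ℝ × Om) (j : ℕ), ‖zs N (σ + x.1 * I) j‖ < 1 := fun x j =>
    (adm_zs N (by simpa using hσ)).lt j
  have hz : Continuous fun x : ℝ × Om => zs N (σ + x.1 * I) := by fun_prop
  exact (cont_hw D N (by fun_prop) (cont_bet hz continuous_snd h)).mul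
    (cont_rho N hz continuous_snd h)

theorem WW_nonneg (D : ℝ) (N : ℕ) {σ : ℝ} (hσ : 1 / 2 ≤ σ) (t : ℝ) (w : Om) : 0 ≤ WW D N σ t w :=
  mul_nonneg (hw_nonneg _ _ _ _) (rho_nonneg N (adm_zs N (by simpa using hσ)).lt w)

@[fun_prop] theorem cont_AA (n : ℕ) : Continuous (AA n) := by unfold AA; fun_prop

theorem cont_Np {p : ℝ} (hp : 0 < p) (P : ℕ →₀ ℂ) : Continuous fun w : Om => ‖lift P (cz w)‖ ^ p :=
  Continuous.rpow_const (by fun_prop) fun _ => Or.inr hp.le

theorem Np_nonneg (p : ℝ) (P : ℕ →₀ ℂ) : 0 ≤ Np p P := E_nonneg fun _ => by positivity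

theorem nev_eq (f : ℂ → ℂ) (a b σ : ℝ) : nev f a b σ = ∫ t in a..b, lp ‖f (σ + t * I)‖ := rfl

theorem cz_mul (v w : Om) : cz (v * w) = fun j => (v j : ℂ) * (w j : ℂ) := rfl

theorem norm_cz (w : Om) (j : ℕ) : ‖cz w j‖ = 1 := Circle.norm_coe _

end Pool.Agent.P.MP_d14b1f_an.Nv
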