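import Pool.Agent.P.MP_d14b1f_an.Nv.Stat
import Pool.Agent.P.MP_74dd9d_nt.Mertens

/-! Definitions used in the proof. -/

set_option autoImplicit false

namespace Pool.Agent.P.MP_d14b1f_an.Nv

open Complex Filter Finset MeasureTheory
open Pool.Agent.P.MP_74dd9d_nt (Pr SS)

/-- the infinite torus; coordinate `j` belongs to the integer `j`, only primes matter -/
abbrev Om : Type := ℕ → Circle

noncomputable instance omMeas : MeasurableSpace Om := borel Om
instance omBorel : BorelSpace Om := ⟨rfl⟩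

/-- Haar probability measure -/
noncomputable def mu : Measure Om := Measure.haarMeasure ⊤

/-- expectation on the torus -/
noncomputable def E (F : Om → ℝ) : ℝ := ∫ w, F w ∂mu

/-- average over the circle -/
noncomputable def av (g : Circle → ℝ) : ℝ :=
  (2 * Real.pi)⁻¹ * ∫ θ in (0 : ℝ)..2 * Real.pi, g (Circle.exp θ)

/-- complex coordinates -/
def cz (w : Om) : ℕ → ℂ := fun j => (w j : ℂ)

/-- positive part of the logarithm -/
noncomputable def lp (x : ℝ) : ℝ := Real.log (max 1 x)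

/-- completely multiplicative extension -/
noncomputable def mon (ζ : ℕ → ℂ) (n : ℕ) : ℂ := n.factorization.prod fun q e => ζ q ^ e

/-- Bohr lift -/
noncomputable def lift (P : ℕ →₀ ℂ) (ζ : ℕ → ℂ) : ℂ := ∑ n ∈ P.support, P n * mon ζ (n + 1)

/-- `p`-th power of the norm on the torus -/
noncomputable def Np (p : ℝ) (P : ℕ →₀ ℂ) : ℝ := E fun w => ‖lift P (cz w)‖ ^ p

/-- the point of the polydisc that belongs to `s`, primes below `N` -/
noncomputable def zs (N : ℕ) (s : ℂ) : ℕ → ℂ := fun j => if j.Prime ∧ j < N then (j : ℂ) ^ (-s) else 0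

/-- functions on the polydisc that are lifts of Dirichlet polynomials -/
def IsDP (F : (ℕ → ℂ) → ℂ) : Prop := ∃ P : ℕ →₀ ℂ, ∀ ζ, lift P ζ = F ζ

/-- Poisson kernel -/
noncomputable def Pk (z : ℂ) (u : Circle) : ℝ := (1 - ‖z‖ ^ 2) / ‖(u : ℂ) - z‖ ^ 2

/-- the disc automorphism that sends `z` to zero -/
noncomputable def mob (z ζ : ℂ) : ℂ := (ζ - z) / (1 - (starRingEnd ℂ) z * ζ)

open Classical in
/-- the same map on the circle -/
noncomputable def mobC (z : ℂ) (u : Circle) : Circle :=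
  if h : 1 - (starRingEnd ℂ) z * u ≠ 0 then u * Circle.ofConjDivSelf _ h else u

/-- the same map in every coordinate -/
noncomputable def bet (z : ℕ → ℂ) (w : Om) : Om := fun j => mobC (z j) (w j)

/-- product of Poisson kernels -/
noncomputable def rho (N : ℕ) (z : ℕ → ℂ) (w : Om) : ℝ := ∏ j ∈ range N, Pk (z j) (w j)

/-- admissible points -/
def Adm (N : ℕ) (z : ℕ → ℂ) : Prop := (∀ j, ‖z j‖ ^ 2 ≤ 1 / 2) ∧ ∀ j, N ≤ j → z j = 0

/-- continuous cutoff -/
noncomputable def kap (D x : ℝ) : ℝ := max 0 (min 1 (D + 1 - x))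

/-- weight that confines all partial sums -/
noncomputable def hw (D : ℝ) (N : ℕ) (c : ℕ → ℂ) (w : Om) : ℝ :=
  ∏ M ∈ range (N + 1), kap D ‖∑ j ∈ range M, c j * (w j : ℂ)‖

/-- one dimensional partition function -/
noncomputable def Zr (r : ℝ) : ℝ := av fun u => Real.exp (2 * (r * (u : ℂ).re))

/-- primes of level `i` -/
noncomputable def Lv (i : ℕ) : Finset ℕ := Pr (2 ^ (i + 3)) \ Pr (2 ^ (i + 2))

/-- inverse square root -/
noncomputable def rr (j : ℕ) : ℝ := (Real.sqrt j)⁻¹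

/-- contribution of level `i` -/
noncomputable def XX (i : ℕ) (ζ : ℕ → ℂ) : ℝ := ∑ j ∈ Lv i, rr j * (ζ j).re

/-- centred partial sums -/
noncomputable def SX (k : ℕ) (ζ : ℕ → ℂ) : ℝ := ∑ i ∈ range k, XX i ζ - k * Real.log 2

/-- decreasing exponents -/
noncomputable def th (n : ℕ) (η : ℝ) (i : ℕ) : ℝ := 1 + η * (n - 1 - i) / n

/-- weighted sum of the levels -/
noncomputable def TX (n : ℕ) (η : ℝ) (ζ : ℕ → ℂ) : ℝ := ∑ i ∈ range n, th n η i * XX i ζ

/-- its deterministic size -/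
noncomputable def TB (n : ℕ) (η : ℝ) : ℝ := Real.log 2 * (n + η * (n - 1) / 2)

/-- penalty along one path -/
noncomputable def YY (n : ℕ) (ζ : ℕ → ℂ) : ℝ := ∑ k ∈ range (n + 1), Real.exp (2 * SX k ζ)

/-- polynomial Euler product -/
noncomputable def GG (n : ℕ) (η : ℝ) (ζ : ℕ → ℂ) : ℂ :=
  ∏ i ∈ range n, ∏ j ∈ Lv i,
    (1 + ((th n η i * rr j : ℝ) : ℂ) * ζ j + (((th n η i * rr j : ℝ) : ℂ) * ζ j) ^ 2 / 2)

/-- twist with shift `τ i` on level `i` -/
noncomputable def tw (n : ℕ) (τ : ℕ → ℝ) : Om := fun j =>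
  Circle.exp ((∑ i ∈ range n, if j ∈ Lv i then τ i else 0) * Real.log j)

/-- shifts of the ancestors of node `ν` of depth `k` -/
noncomputable def nod (m k ν : ℕ) : ℕ → ℝ := fun i => ((ν / 2 ^ (k - i) : ℕ) : ℝ) / (m * 2 ^ i)

end Pool.Agent.P.MP_d14b1f_an.Nv
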