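import Pool.Agent.P.MP_d14b1f_an.Nv.IfaceU

/-! Statements for the lower bound. -/

set_option autoImplicit false

namespace Pool.Agent.P.MP_d14b1f_an.Nv

open Complex Filter Finset MeasureTheory Function Topology Asymptotics

-- deps:
def S_Z1 : Prop := ∀ r : ℝ, 0 ≤ r → r ≤ 1 / 2 → 0 < Zr r ∧ Zr r ≤ Real.exp (r ^ 2 + 8 * r ^ 3)

-- deps:
def S_M1 : Prop := ∀ r : ℝ, 0 ≤ r → r ≤ 1 / 2 → ∃ m v : ℝ, r ^ 2 / 16 ≤ v ∧ ∀ y a : ℝ,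
  av (fun u => Real.exp (2 * (r * (u : ℂ).re)) * (y + a * (r * (u : ℂ).re - m)) ^ 2) =
    Zr r * (y ^ 2 + a ^ 2 * v) ∧
  av (fun u => Real.exp (2 * (r * (u : ℂ).re)) * (y + a * (r * (u : ℂ).re - m)) ^ 4) ≤
    Zr r * (y ^ 4 + 8 * y ^ 2 * (a ^ 2 * v) + 3 * a ^ 2 * (a ^ 2 * v))

-- deps: M1
def S_MOM : Prop := ∀ (J : Finset ℕ) (r a : ℕ → ℝ) (B : ℝ), (∀ j ∈ J, 0 ≤ r j ∧ r j ≤ 1 / 2) →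
  (∀ j ∈ J, |a j| ≤ B) → ∃ m v : ℝ, ∑ j ∈ J, a j ^ 2 * r j ^ 2 / 16 ≤ v ∧ ∀ y : ℝ,
  E (fun w => (∏ j ∈ J, Real.exp (2 * (r j * (w j : ℂ).re))) *
      (y + (∑ j ∈ J, a j * (r j * (w j : ℂ).re) - m)) ^ 2) = (∏ j ∈ J, Zr (r j)) * (y ^ 2 + v) ∧
  E (fun w => (∏ j ∈ J, Real.exp (2 * (r j * (w j : ℂ).re))) *
      (y + (∑ j ∈ J, a j * (r j * (w j : ℂ).re) - m)) ^ 4) ≤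
    (∏ j ∈ J, Zr (r j)) * (y ^ 4 + 8 * y ^ 2 * v + 4 * v ^ 2 + 3 * B ^ 2 * v)

-- deps: MOM
def S_BLK : Prop := ∀ (J : Finset ℕ) (r a : ℕ → ℝ) (B κ v0 y : ℝ), (∀ j ∈ J, 0 ≤ r j ∧ r j ≤ 1 / 2) →
  (∀ j ∈ J, |a j| ≤ B) → 0 ≤ κ → 0 < v0 → 3 * B ^ 2 ≤ v0 → v0 ≤ ∑ j ∈ J, a j ^ 2 * r j ^ 2 / 16 →
  E (fun w => (∏ j ∈ J, Real.exp (2 * (r j * (w j : ℂ).re))) *
      Real.exp (-κ * |y + ∑ j ∈ J, a j * (r j * (w j : ℂ).re)|)) ≤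
    (∏ j ∈ J, Zr (r j)) * (1 - (1 - Real.exp (-κ * Real.sqrt v0 / 2)) / 10)

-- deps:
def S_VAR : Prop := ∀ b l : ℕ, 768 ≤ l → (l : ℝ) ^ 3 / 256 ≤
  ∑ i ∈ Ico (b * l) ((b + 1) * l), ∑ j ∈ Lv i, ((((b + 1) * l : ℕ) : ℝ) - 1 - i) ^ 2 * rr j ^ 2 / 16

-- deps: BLK VAR
def S_BLV : Prop := ∀ (b l : ℕ) (κ y : ℝ), 768 ≤ l → 0 ≤ κ →
  E (fun w => Real.exp (2 * ∑ i ∈ Ico (b * l) ((b + 1) * l), XX i (cz w)) *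
      Real.exp (-κ * |y + ∑ i ∈ Ico (b * l) ((b + 1) * l),
        ((((b + 1) * l : ℕ) : ℝ) - 1 - i) * XX i (cz w)|)) ≤
    (∏ i ∈ Ico (b * l) ((b + 1) * l), ∏ j ∈ Lv i, Zr (rr j)) *
      (1 - (1 - Real.exp (-κ * Real.sqrt ((l : ℝ) ^ 3 / 256) / 2)) / 10)

-- deps: BLV
def S_CHAIN : Prop := ∀ (b l : ℕ) (κ a : ℝ), 768 ≤ l → 0 ≤ κ →
  E (fun w => Real.exp (2 * ∑ i ∈ range (b * l), XX i (cz w)) *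
      ∏ c ∈ range b, Real.exp (-κ * |∑ k ∈ Ico (c * l) ((c + 1) * l), (SX k (cz w) - a)|)) ≤
    (∏ i ∈ range (b * l), ∏ j ∈ Lv i, Zr (rr j)) *
      (1 - (1 - Real.exp (-κ * Real.sqrt ((l : ℝ) ^ 3 / 256) / 2)) / 10) ^ b

-- deps:
def S_PTW : Prop := ∀ (b l : ℕ) (η a : ℝ) (ζ : ℕ → ℂ), 0 < b * l → 0 ≤ η →
  Real.exp (2 * TX (b * l) η ζ) * YY (b * l) ζ ^ (-2 * η) ≤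
    Real.exp (η * Real.log 2 * ((b * l : ℕ) - 1)) * Real.exp (2 * ∑ i ∈ range (b * l), XX i ζ) *
      (Real.exp (-2 * η * a) + Real.exp (2 * η * a) * ∏ c ∈ range b,
        Real.exp (-(2 * η / (b * l : ℕ)) * |∑ k ∈ Ico (c * l) ((c + 1) * l), (SX k ζ - a)|))

-- deps: Z1
def S_XI : Prop := ∀ k : ℕ,
  E (fun w => Real.exp (2 * ∑ i ∈ range k, XX i (cz w))) = ∏ i ∈ range k, ∏ j ∈ Lv i, Zr (rr j) ∧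
  ∏ i ∈ range k, ∏ j ∈ Lv i, Zr (rr j) ≤ Real.exp (k * Real.log 2 + 31) ∧
  E (fun w => Real.exp (2 * SX k (cz w))) ≤ Real.exp 31 / 2 ^ k

-- deps: PTW CHAIN XI
def S_PATH : Prop := ∀ η : ℝ, 0 < η → ∃ c : ℝ, 0 < c ∧ ∃ β0 : ℕ, ∀ β, β0 ≤ β →
  E (fun w => Real.exp (2 * TX (β ^ 3) η (cz w)) * YY (β ^ 3) (cz w) ^ (-2 * η)) ≤
    Real.exp (2 * TB (β ^ 3) η - (β ^ 3 : ℕ) * Real.log 2 - c * β)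

-- deps:
def S_GG : Prop := ∀ (n : ℕ) (η : ℝ) (ζ : ℕ → ℂ), 0 ≤ η → η ≤ 1 / 2 → (∀ j, ‖ζ j‖ ≤ 1) →
  Real.exp (TX n η ζ - 11) ≤ ‖GG n η ζ‖ ∧ ‖GG n η ζ‖ ≤ Real.exp (TX n η ζ + 11)

-- deps:
def S_EVA : Prop := ∀ (n : ℕ) (η : ℝ), 1 ≤ n → 0 ≤ η → η ≤ 1 / 2 →
  TB n η - 11 ≤ ∑ i ∈ range n, th n η i * ∑ j ∈ Lv i, 1 / (j : ℝ)

-- deps: EVA
def S_EVAL : Prop := ∀ (n : ℕ) (η δ u : ℝ), 1 ≤ n → 0 ≤ η → η ≤ 1 / 2 → 0 < δ → 2 ^ n * δ ≤ 1 →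
  0 ≤ u → u < 1 → ∃ ν < n * 2 ^ n, TB n η - 400 ≤
    TX n η fun j => (tw n (nod n n ν) j : ℂ) * (j : ℂ) ^ (-(((1 / 2 + δ : ℝ) : ℂ) + u * I))

-- deps:
def S_SG : Prop := ∀ (M : ℕ) (x : ℕ → ℂ),
  E (fun c => ‖∑ ν ∈ range M, (c ν : ℂ) * x ν‖ ^ 2) = ∑ ν ∈ range M, ‖x ν‖ ^ 2 ∧
  ∀ ν < M, lp ‖x ν‖ / 2 ≤ E fun c => lp ‖∑ ν ∈ range M, (c ν : ℂ) * x ν‖

-- deps: SG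
def S_SGA : Prop := ∀ (p lam : ℝ) (M : ℕ) (g : ℕ → Om → ℂ) (A : Om → ℝ), 0 < p → p < 2 →
  (∀ ν, Continuous (g ν)) → Continuous A → (∀ w, 0 < A w) → 0 < lam →
  E (fun w => (∑ ν ∈ range M, ‖g ν w‖ ^ 2) * A w ^ (-(2 - p) / p)) ≤ lam →
  E (fun c => E fun w => ‖∑ ν ∈ range M, (c ν : ℂ) * g ν w‖ ^ p) ≤ lam ^ (p / 2) * (1 + E A)

-- deps: SG
def S_SGN : Prop := ∀ (p Lam B : ℝ) (M : ℕ) (g : ℕ → Om → ℂ) (e : ℕ → ℝ → ℂ), 0 < p →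
  (∀ ν, Continuous (g ν)) → (∀ ν, Continuous (e ν)) → 0 < Lam →
  E (fun c => E fun w => ‖∑ ν ∈ range M, (c ν : ℂ) * g ν w‖ ^ p) ≤ Lam ^ p →
  (∀ u : ℝ, 0 ≤ u → u < 1 → ∃ ν < M, Real.exp B ≤ ‖e ν u‖) →
  ∃ c : ℕ → ℂ, E (fun w => ‖∑ ν ∈ range M, c ν * g ν w‖ ^ p) ≤ 1 ∧
    (B - Real.log Lam) / 2 - 1 / p ≤ ∫ u in (0 : ℝ)..1, lp ‖∑ ν ∈ range M, c ν * e ν u‖

-- deps: XI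
def S_TREE : Prop := ∀ n : ℕ, 1 ≤ n → E (AA n) ≤ (n + 1) * n * Real.exp 31 ∧ (∀ w, 1 ≤ AA n w) ∧
  ∀ ν < n * 2 ^ n, ∀ w : Om, YY n (cz (tw n (nod n n ν) * w)) ≤ AA n w

-- deps: PATH GG TREE
def S_LAM : Prop := ∀ p : ℝ, 0 < p → p < 2 → ∃ c : ℝ, 0 < c ∧ ∃ β0 : ℕ, ∀ β, β0 ≤ β →
  E (fun w => (∑ ν ∈ range (β ^ 3 * 2 ^ β ^ 3),
      ‖GG (β ^ 3) ((2 - p) / 4) (cz (tw (β ^ 3) (nod (β ^ 3) (β ^ 3) ν) * w))‖ ^ 2) *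
      AA (β ^ 3) w ^ (-(2 - p) / p)) ≤ Real.exp (2 * TB (β ^ 3) ((2 - p) / 4) - c * β)

-- deps: LAM GG TREE EVAL SGA SGN
def S_LOWA : Prop := ∀ p : ℝ, 0 < p → p < 2 → ∃ c : ℝ, 0 < c ∧ ∃ β0 : ℕ, ∀ β, β0 ≤ β →
  ∀ δ : ℝ, 0 < δ → 2 ^ β ^ 3 * δ ≤ 1 →
  ∃ P : ℕ →₀ ℂ, Np p P ≤ 1 ∧ c * β ≤ nev (dp P) 0 1 (1 / 2 + δ)

-- deps: LOWA
def S_LOW : Prop := ∀ p : ℝ, 0 < p → p < 2 → ∃ c : ℝ, 0 < c ∧ ∃ δ0 : ℝ, 0 < δ0 ∧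
  ∀ δ : ℝ, 0 < δ → δ < δ0 →
  ∃ P : ℕ →₀ ℂ, Np p P ≤ 1 ∧ c * Real.log (1 / δ) ^ (1 / 3 : ℝ) ≤ nev (dp P) 0 1 (1 / 2 + δ)

-- deps: KW PT
def S_SER : Prop := ∀ p : ℝ, 0 < p → ∀ (P : ℕ → (ℕ →₀ ℂ)) (c : ℕ → ℝ), (∀ k, Np p (P k) ≤ 1) →
  (∀ k, 0 ≤ c k ∧ c k ≤ (1 / 2) ^ (k + 1) * (1 / 2 : ℝ) ^ (k / p)) →
  InH p (fun s => ∑' k, (c k : ℂ) * dp (P k) s) ∧
  ∀ σ : ℝ, 1 / 2 < σ → Continuous fun t : ℝ => ∑' k, (c k : ℂ) * dp (P k) (σ + t * I)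

-- deps: LOW PT
def S_HUMP : Prop := ∀ p : ℝ, 0 < p → p < 2 → ∀ g : ℝ → ℝ,
  ¬ ((fun δ : ℝ => Real.log (1 / δ) ^ (1 / 3 : ℝ)) =O[𝓝[>] 0] g) →
  ∃ (P : ℕ → (ℕ →₀ ℂ)) (c d B : ℕ → ℝ), (∀ k, Np p (P k) ≤ 1) ∧
    (∀ k, 0 < c k ∧ c k ≤ (1 / 2) ^ (k + 1) * (1 / 2 : ℝ) ^ (k / p)) ∧
    (∀ k, 0 < d k ∧ d k ≤ 1 / (k + 1)) ∧
    (∀ k, ∀ s : ℂ, 0 ≤ s.re → ‖∑ j ∈ range k, (c j : ℂ) * dp (P j) s‖ ≤ B k) ∧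
    (∀ j k, j < k → ∀ t : ℝ, c k * ‖dp (P k) (((1 / 2 + d j : ℝ) : ℂ) + t * I)‖ ≤ (1 / 2) ^ k) ∧
    ∀ k, k * |g (d k)| + Real.log ((B k + 2) / c k) < nev (dp (P k)) 0 1 (1 / 2 + d k)

-- deps: HUMP SER
def S_FINL : Prop := ∀ p : ℝ, 0 < p → p < 2 → ∀ g : ℝ → ℝ,
  ¬ ((fun δ : ℝ => Real.log (1 / δ) ^ (1 / 3 : ℝ)) =O[𝓝[>] 0] g) →
  ∃ f : ℂ → ℂ, InH p f ∧ ¬ ((fun δ : ℝ => nev f 0 1 (1 / 2 + δ)) =O[𝓝[>] 0] g)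

end Pool.Agent.P.MP_d14b1f_an.Nv
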