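import Mathlib

/-! Hardy spaces of Dirichlet series: the objects of the statement. -/

set_option autoImplicit false

namespace Pool.Agent.P.MP_d14b1f_an.Nv

open Complex Filter

/-- the Dirichlet polynomial whose coefficient at `n + 1` is `P n` -/
noncomputable def dp (P : ℕ →₀ ℂ) (s : ℂ) : ℂ := ∑ n ∈ P.support, P n * ((n : ℂ) + 1) ^ (-s)

/-- the mean of the `p`-th power of the modulus on the imaginary axis -/
noncomputable def mean (p : ℝ) (P : ℕ →₀ ℂ) : ℝ :=
  limsup (fun T : ℝ => (1 / (2 * T)) * ∫ t in (-T)..T, ‖dp P (t * I)‖ ^ p) atTop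

/-- `f` is, on the half plane to the right of one half, the pointwise limit of a sequence of
Dirichlet polynomials that is Cauchy for the `p`-th mean -/
def InH (p : ℝ) (f : ℂ → ℂ) : Prop :=
  ∃ P : ℕ → (ℕ →₀ ℂ), (∀ ε : ℝ, 0 < ε → ∃ N : ℕ, ∀ k ≥ N, ∀ m ≥ N, mean p (P k - P m) < ε) ∧
    ∀ s : ℂ, 1 / 2 < s.re → Tendsto (fun k => dp (P k) s) atTop (nhds (f s))

/-- the integral of the positive part of the logarithm of the modulus over a vertical segment -/
noncomputable def nev (f : ℂ → ℂ) (a b σ : ℝ) : ℝ :=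
  ∫ t in a..b, Real.log (max 1 ‖f (σ + t * I)‖)

end Pool.Agent.P.MP_d14b1f_an.Nv
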