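import Pool.Agent.P.MP_d14b1f_an.Nv.IfaceL

/-! Step FINL. -/

set_option autoImplicit false

namespace Pool.Agent.P.MP_d14b1f_an.Nv

open Complex Filter Finset MeasureTheory Function Topology Asymptotics

theorem finl_lp {x y c B : ℝ} (hc : 0 < c) (hc1 : c ≤ 1) (hB : 0 ≤ B)
    (h : c * x ≤ y + (B + 1)) : lp x ≤ lp y + Real.log ((B + 2) / c) := by
  have h1 : 1 ≤ (B + 2) / c := by rw [le_div_iff₀ hc]; linarith
  have h2 : (1 : ℝ) ≤ max 1 y := le_max_left _ _
  have h3 : y ≤ max 1 y := le_max_right _ _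
  unfold lp
  rw [← Real.log_mul (by positivity) (by positivity)]
  refine Real.log_le_log (by positivity) (max_le (one_le_mul_of_one_le_of_one_le h2 h1) ?_)
  rw [← mul_div_assoc, le_div_iff₀ hc]
  nlinarith

theorem p_FINL (hHUMP : S_HUMP) (hSER : S_SER) :
    S_FINL := by
  intro p hp hp2 g hg
  obtain ⟨P, c, d, B, hP, hc, hd, hB, hT, hN⟩ := hHUMP p hp hp2 g hg
  obtain ⟨hf, hcont⟩ := hSER p hp P c hP fun k => ⟨(hc k).1.le, (hc k).2⟩
  refine ⟨_, hf, fun hO => ?_⟩
  have hc1 : ∀ k, c k ≤ 1 := fun k => (hc k).2.trans (mul_le_one₀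
    (pow_le_one₀ (by norm_num) (by norm_num)) (by positivity)
    (Real.rpow_le_one (by norm_num) (by norm_num) (by positivity)))
  have hB0 : ∀ k, 0 ≤ B k := fun k => (norm_nonneg _).trans (hB k 0 (by simp))
  have key : ∀ k : ℕ, k * |g (d k)| <
      nev (fun s => ∑' j, (c j : ℂ) * dp (P j) s) 0 1 (1 / 2 + d k) := by
    intro k
    have hpt : ∀ t : ℝ, lp ‖dp (P k) (((1 / 2 + d k : ℝ) : ℂ) + t * I)‖ ≤
        lp ‖∑' j, (c j : ℂ) * dp (P j) (((1 / 2 + d k : ℝ) : ℂ) + t * I)‖ +
          Real.log ((B k + 2) / c k) := by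
      intro t
      set s : ℂ := ((1 / 2 + d k : ℝ) : ℂ) + t * I with hs
      refine finl_lp (hc k).1 (hc1 k) (hB0 k) ?_
      have hb : ∀ j, ‖(c (j + (k + 1)) : ℂ) * dp (P (j + (k + 1))) s‖ ≤ 1 / 2 / 2 ^ j := by
        intro j
        rw [norm_mul, Complex.norm_real, Real.norm_of_nonneg (hc _).1.le]
        refine (hT k _ (by omega) t).trans ?_
        calc (1 / 2 : ℝ) ^ (j + (k + 1)) ≤ (1 / 2) ^ (j + 1) :=
              pow_le_pow_of_le_one (by norm_num) (by norm_num) (by omega)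
          _ = _ := by rw [pow_succ, one_div_pow]; ring
      have hs1 : Summable fun j => (c (j + (k + 1)) : ℂ) * dp (P (j + (k + 1))) s :=
        Summable.of_norm_bounded (hasSum_geometric_two' 1).summable hb
      have hs2 : Summable fun j => (c j : ℂ) * dp (P j) s :=
        (summable_nat_add_iff (k + 1)).1 hs1
      have h1 := hs2.sum_add_tsum_nat_add (k + 1)
      have h2 : ‖∑' j, (c (j + (k + 1)) : ℂ) * dp (P (j + (k + 1))) s‖ ≤ 1 :=
        tsum_of_norm_bounded (hasSum_geometric_two' 1) hb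
      have h3 := hB k s (by have := (hd k).1; simp [hs]; linarith)
      rw [sum_range_succ] at h1
      have h4 : (c k : ℂ) * dp (P k) s = ∑' j, (c j : ℂ) * dp (P j) s -
          (∑ j ∈ range k, (c j : ℂ) * dp (P j) s +
            ∑' j, (c (j + (k + 1)) : ℂ) * dp (P (j + (k + 1))) s) := by
        rw [← h1]; ring
      have h5 : c k * ‖dp (P k) s‖ = ‖(c k : ℂ) * dp (P k) s‖ := by
        rw [norm_mul, Complex.norm_real, Real.norm_of_nonneg (hc _).1.le]
      rw [h5, h4]
      exact (norm_sub_le _ _).trans (add_le_add le_rfl ((norm_add_le _ _).trans (add_le_add h3 h2)))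
    have hc2 := hcont (1 / 2 + d k) (by linarith [(hd k).1])
    have hi1 : Continuous fun t : ℝ =>
        lp ‖∑' j, (c j : ℂ) * dp (P j) (((1 / 2 + d k : ℝ) : ℂ) + t * I)‖ := by fun_prop
    have hi2 : Continuous fun t : ℝ => lp ‖dp (P k) (((1 / 2 + d k : ℝ) : ℂ) + t * I)‖ := by
      fun_prop
    have h6 := intervalIntegral.integral_mono_on (μ := volume) zero_le_one
      (hi2.intervalIntegrable 0 1) ((hi1.add continuous_const).intervalIntegrable 0 1)
      fun t _ => hpt t
    simp only [Pi.add_apply] at h6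
    rw [intervalIntegral.integral_add (hi1.intervalIntegrable 0 1)
      (continuous_const.intervalIntegrable 0 1)] at h6
    simp only [intervalIntegral.integral_const, sub_zero, smul_eq_mul, one_mul] at h6
    have h7 := hN k
    rw [nev_eq] at h7 ⊢
    linarith
  have hd0 : Tendsto d atTop (𝓝[>] 0) := by
    refine tendsto_nhdsWithin_iff.2 ⟨?_, Eventually.of_forall fun k => (hd k).1⟩
    exact squeeze_zero (fun k => (hd k).1.le) (fun k => (hd k).2)
      tendsto_one_div_add_atTop_nhds_zero_nat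
  obtain ⟨C, hC⟩ := hO.bound
  obtain ⟨k, hk1, hk2⟩ := ((hd0.eventually hC).and
    (tendsto_natCast_atTop_atTop.eventually_ge_atTop C)).exists
  have h1 := key k
  have h2 := le_abs_self (nev (fun s => ∑' j, (c j : ℂ) * dp (P j) s) 0 1 (1 / 2 + d k))
  simp only [Real.norm_eq_abs] at hk1
  have h3 := mul_le_mul_of_nonneg_right hk2 (abs_nonneg (g (d k)))
  linarith

end Pool.Agent.P.MP_d14b1f_an.Nv
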