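import Pool.Agent.P.MP_d14b1f_an.Nv.IfaceU

/-! Step FST. -/

set_option autoImplicit false

namespace Pool.Agent.P.MP_d14b1f_an.Nv

open Complex Filter Finset MeasureTheory Function Topology Asymptotics

theorem fst_conj (N : ℕ) (σ t : ℝ) (j : ℕ) :
    (starRingEnd ℂ) (zs N (σ + t * I) j) =
      (starRingEnd ℂ) (zs N (σ + (0 : ℝ) * I) j) * (Circle.exp (t * Real.log j) : Circle) := by
  unfold zs
  split_ifs with h
  · have h0 : (j : ℂ) ≠ 0 := by exact_mod_cast h.1.ne_zero
    have e1 : (j : ℂ) ^ (-((σ : ℂ) + t * I)) =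
        (j : ℂ) ^ (-((σ : ℂ) + (0 : ℝ) * I)) * Complex.exp (-((t * Real.log j : ℝ) * I)) := by
      rw [Complex.cpow_def_of_ne_zero h0, Complex.cpow_def_of_ne_zero h0, ← Complex.exp_add,
        ← Complex.natCast_log]
      congr 1
      push_cast
      ring
    rw [e1, map_mul, Circle.coe_exp, ← Complex.exp_conj]
    congr 2
    simp only [map_neg, map_mul, Complex.conj_ofReal, Complex.conj_I]
    ring
  · simp

theorem fst_shift (D : ℝ) (N : ℕ) (σ t : ℝ) :
    E (hw D N fun j => (starRingEnd ℂ) (zs N (σ + t * I) j)) =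
      E (hw D N fun j => (starRingEnd ℂ) (zs N (σ + (0 : ℝ) * I) j)) := by
  rw [← E_shift (fun j => Circle.exp (t * Real.log j))
    (hw D N fun j => (starRingEnd ℂ) (zs N (σ + (0 : ℝ) * I) j))]
  refine E_congr fun w => ?_
  unfold hw
  refine prod_congr rfl fun M _ => ?_
  congr 2
  refine sum_congr rfl fun j _ => ?_
  beta_reduce
  rw [fst_conj N σ t j, mul_assoc]
  rfl

theorem p_FST (hMOB : S_MOB) (hJEN : S_JEN) (hLYA : S_LYA) (hNT1 : S_NT1) :
    S_FST := by
  obtain ⟨C, hC, hN⟩ := hNT1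
  refine ⟨C, hC, fun δ hδ hδ' N D hD => ?_⟩
  have hσ : (1 / 2 : ℝ) ≤ 1 / 2 + δ := by linarith
  have hA : ∀ t : ℝ, Adm N (zs N (((1 / 2 + δ : ℝ) : ℂ) + t * I)) := fun t =>
    adm_zs N (by simpa using hδ.le)
  have hc : ∀ t : ℝ, Continuous
      (hw D N fun j => (starRingEnd ℂ) (zs N (((1 / 2 + δ : ℝ) : ℂ) + t * I) j)) := fun t =>
    cont_hw D N continuous_const continuous_id
  refine ⟨E (hw D N fun j => (starRingEnd ℂ) (zs N (((1 / 2 + δ : ℝ) : ℂ) + (0 : ℝ) * I) j)),
    ?_, ?_, ?_⟩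
  · refine le_trans ?_ (hLYA D N _ hD fun j => ?_)
    · refine Real.exp_le_exp.2 (div_le_div_of_nonneg_right ?_ (by positivity))
      have := hN δ hδ hδ' N 0
      simp only [RCLike.norm_conj]
      linarith
    · rw [RCLike.norm_conj]
      exact ((hA 0).lt j).le
  · intro t0
    rw [E_int_swap (cont_WW D N hσ)]
    have h1 : ∀ t : ℝ, E (WW D N (1 / 2 + δ) t) =
        E (hw D N fun j => (starRingEnd ℂ) (zs N (((1 / 2 + δ : ℝ) : ℂ) + (0 : ℝ) * I) j)) := by
      intro t
      rw [← fst_shift D N (1 / 2 + δ) t]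
      exact hMOB N _ (hA t) _ (hc t)
    simp only [h1, intervalIntegral.integral_const, smul_eq_mul]
    ring
  · intro P t0 hP
    have hg : Continuous fun w : Om => lp ‖lift P (cz w)‖ := by fun_prop
    have h1 : Continuous (uncurry fun (t : ℝ) (w : Om) =>
        WW D N (1 / 2 + δ) t w * lp ‖lift P (cz w)‖) :=
      (cont_WW D N hσ).mul (hg.comp continuous_snd)
    have h2 : (fun w : Om => (∫ t in t0..t0 + 1, WW D N (1 / 2 + δ) t w) * lp ‖lift P (cz w)‖) =
        fun w : Om => ∫ t in t0..t0 + 1, WW D N (1 / 2 + δ) t w * lp ‖lift P (cz w)‖ :=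
      funext fun w => (intervalIntegral.integral_mul_const _ _).symm
    rw [h2, E_int_swap h1, nev_eq, ← intervalIntegral.integral_const_mul]
    refine intervalIntegral.integral_mono_on (by linarith) ?_ ?_ fun t _ => ?_
    · exact Continuous.intervalIntegrable (by fun_prop) _ _
    · exact (cont_E h1).intervalIntegrable _ _
    · rw [← fst_shift D N (1 / 2 + δ) t, ← hP]
      exact hJEN N _ (hA t) P _ (hc t) (hw_nonneg _ _ _) (hw_rot _ _ _)

end Pool.Agent.P.MP_d14b1f_an.Nv
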