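import Pool.Agent.P.MP_d14b1f_an.Nv.IfaceL

/-! Step GG. -/

set_option autoImplicit false

namespace Pool.Agent.P.MP_d14b1f_an.Nv

open Complex Filter Finset MeasureTheory Function Topology Asymptotics

lemma gg_one {x : ℂ} (hx : ‖x‖ ≤ 1 / 4) :
    Real.exp (x.re - ‖x‖ ^ 3) ≤ ‖1 + x + x ^ 2 / 2‖ ∧
      ‖1 + x + x ^ 2 / 2‖ ≤ Real.exp (x.re + ‖x‖ ^ 3) := by
  have h := Complex.exp_bound (x := x) (by linarith) (n := 3) (by norm_num)
  have e : ∑ m ∈ range 3, x ^ m / (m.factorial : ℂ) = 1 + x + x ^ 2 / 2 := by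
    simp [sum_range_succ, Nat.factorial]
  rw [e] at h
  norm_num [Nat.factorial] at h
  have h1 := abs_norm_sub_norm_le (cexp x) (1 + x + x ^ 2 / 2)
  rw [Complex.norm_exp] at h1
  have h2 := abs_le.1 (h1.trans h)
  have hc0 : 0 ≤ ‖x‖ ^ 3 := by positivity
  have hc1 : ‖x‖ ^ 3 ≤ 1 := pow_le_one₀ (norm_nonneg _) (by linarith)
  have hE : 3 / 4 ≤ Real.exp x.re := by
    have := Real.add_one_le_exp x.re
    have := (abs_le.1 (Complex.abs_re_le_norm x)).1
    linarith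
  generalize ‖x‖ ^ 3 = c at *
  have h3 := Real.add_one_le_exp c
  constructor
  · rw [Real.exp_sub, div_le_iff₀ (Real.exp_pos c)]
    have h4 : Real.exp x.re - c * (2 / 9) ≤ ‖1 + x + x ^ 2 / 2‖ := by linarith [h2.2]
    have h5 : Real.exp x.re ≤ (Real.exp x.re - c * (2 / 9)) * (c + 1) := by nlinarith
    exact h5.trans (mul_le_mul h4 h3 (by linarith) (norm_nonneg _))
  · rw [Real.exp_add]
    nlinarith [h2.1, mul_le_mul_of_nonneg_left h3 (Real.exp_pos x.re).le]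

lemma gg_th {n i : ℕ} {η : ℝ} (h0 : 0 ≤ η) (h1 : η ≤ 1 / 2) (hi : i < n) :
    0 ≤ th n η i ∧ th n η i ≤ 3 / 2 := by
  have hn : (0 : ℝ) < n := by exact_mod_cast (by omega : 0 < n)
  have h2 : (i : ℝ) + 1 ≤ n := by exact_mod_cast hi
  have h3 : (0 : ℝ) ≤ i := Nat.cast_nonneg i
  have h4 : 0 ≤ (n : ℝ) - 1 - i := by linarith
  unfold th
  refine ⟨by positivity, ?_⟩
  have : η * ((n : ℝ) - 1 - i) / n ≤ 1 / 2 := by
    rw [div_le_iff₀ hn]
    nlinarith
  linarith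

theorem p_GG :
    S_GG := by
  intro n η ζ h0 h1 hζ
  set x : ℕ → ℕ → ℂ := fun i j => ((th n η i * rr j : ℝ) : ℂ) * ζ j with hx
  have hn : ∀ i ∈ range n, ∀ j, ‖x i j‖ ≤ 3 / 2 * rr j := fun i hi j => by
    obtain ⟨a, b⟩ := gg_th h0 h1 (mem_range.1 hi)
    have hr := rr_nonneg j
    rw [hx]
    simp only
    rw [norm_mul, Complex.norm_real, Real.norm_of_nonneg (by positivity)]
    calc th n η i * rr j * ‖ζ j‖ ≤ 3 / 2 * rr j * 1 := by gcongr; exact hζ j
      _ = _ := mul_one _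
  have hq : ∀ i ∈ range n, ∀ j ∈ Lv i, ‖x i j‖ ≤ 1 / 4 := fun i hi j hj => by
    linarith [hn i hi j, rr_le hj]
  have hT : TX n η ζ = ∑ i ∈ range n, ∑ j ∈ Lv i, (x i j).re := by
    refine sum_congr rfl fun i _ => ?_
    rw [XX, mul_sum]
    refine sum_congr rfl fun j _ => ?_
    rw [hx]
    simp only [Complex.re_ofReal_mul]
    ring
  have hC : ∑ i ∈ range n, ∑ j ∈ Lv i, ‖x i j‖ ^ 3 ≤ 11 := by
    have h2 : ∑ i ∈ range n, ∑ j ∈ Lv i, rr j ^ 3 ≤ 3 := by
      rw [← sum_biUnion]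
      · exact sum_rr_cube _
      · intro a _ b _ hab
        exact disjoint_left.2 fun j ha hb => hab (Lv_unique ha hb)
    calc ∑ i ∈ range n, ∑ j ∈ Lv i, ‖x i j‖ ^ 3
        ≤ ∑ i ∈ range n, ∑ j ∈ Lv i, 27 / 8 * rr j ^ 3 := by
          refine sum_le_sum fun i hi => sum_le_sum fun j _ => ?_
          calc ‖x i j‖ ^ 3 ≤ (3 / 2 * rr j) ^ 3 := pow_le_pow_left₀ (norm_nonneg _) (hn i hi j) 3
            _ = _ := by ring
      _ = 27 / 8 * ∑ i ∈ range n, ∑ j ∈ Lv i, rr j ^ 3 := by simp only [mul_sum]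
      _ ≤ 11 := by linarith
  have hG : ‖GG n η ζ‖ = ∏ i ∈ range n, ∏ j ∈ Lv i, ‖1 + x i j + x i j ^ 2 / 2‖ := by
    simp only [GG, norm_prod, hx]
  rw [hG, hT]
  constructor
  · calc _ ≤ Real.exp (∑ i ∈ range n, ∑ j ∈ Lv i, ((x i j).re - ‖x i j‖ ^ 3)) := by
          simp only [sum_sub_distrib]
          exact Real.exp_le_exp.2 (by linarith)
      _ ≤ _ := by
          simp only [Real.exp_sum]
          exact prod_le_prod (fun i _ => prod_nonneg fun j _ => (Real.exp_pos _).le)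
            fun i hi => prod_le_prod (fun j _ => (Real.exp_pos _).le)
              fun j hj => (gg_one (hq i hi j hj)).1
  · calc _ ≤ Real.exp (∑ i ∈ range n, ∑ j ∈ Lv i, ((x i j).re + ‖x i j‖ ^ 3)) := by
          simp only [Real.exp_sum]
          exact prod_le_prod (fun i _ => prod_nonneg fun j _ => norm_nonneg _)
            fun i hi => prod_le_prod (fun j _ => norm_nonneg _)
              fun j hj => (gg_one (hq i hi j hj)).2
      _ ≤ _ := by
          simp only [sum_add_distrib]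
          exact Real.exp_le_exp.2 (by linarith)

end Pool.Agent.P.MP_d14b1f_an.Nv
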