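import Pool.Agent.P.MP_d14b1f_an.Nv.IfaceU

/-! Step KW. -/

set_option autoImplicit false

namespace Pool.Agent.P.MP_d14b1f_an.Nv

open Complex Filter Finset MeasureTheory Function Topology Asymptotics

/-- the vertical flow on the torus -/
noncomputable def kw_flow (t : ℝ) : Om := fun j => Circle.exp (-t * Real.log j)

theorem kw_cont_flow : Continuous kw_flow := by
  unfold kw_flow
  fun_prop

theorem kw_cz (t : ℝ) {q : ℕ} (hq : q ≠ 0) : cz (kw_flow t) q = (q : ℂ) ^ (-(t * I)) := by
  have h : (q : ℂ) ≠ 0 := by exact_mod_cast hq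
  rw [Complex.cpow_def_of_ne_zero h, ← Complex.natCast_log]
  simp only [cz, kw_flow, Circle.coe_exp]
  congr 1
  push_cast
  ring

theorem kw_mon (t : ℝ) {n : ℕ} (hn : n ≠ 0) : mon (cz (kw_flow t)) n = (n : ℂ) ^ (-(t * I)) := by
  rw [← mon_cpow (t * I) hn]
  exact mon_congr fun q hq _ => kw_cz t hq.ne_zero

theorem kw_lift (P : ℕ →₀ ℂ) (t : ℝ) : lift P (cz (kw_flow t)) = dp P (t * I) := by
  unfold lift dp
  refine Finset.sum_congr rfl fun n _ => ?_
  rw [kw_mon t (Nat.succ_ne_zero n)]
  push_cast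
  rfl

theorem kw_int {g : Om → ℝ} (hg : Continuous g) (a b : ℝ) :
    IntervalIntegrable (fun t => g (kw_flow t)) volume a b :=
  (hg.comp kw_cont_flow).intervalIntegrable a b

/-- the mean along the flow tends to the expectation -/
def kw_Good (g : Om → ℝ) : Prop :=
  Tendsto (fun T : ℝ => (1 / (2 * T)) * ∫ t in (-T)..T, g (kw_flow t)) atTop (𝓝 (E g))

/-- trigonometric polynomials -/
inductive kw_Tr : (Om → ℂ) → Prop
  | base (c : ℂ) (a b : ℕ) (ha : a ≠ 0) (hb : b ≠ 0) :
      kw_Tr fun w => c * (mon (cz w) a * (starRingEnd ℂ) (mon (cz w) b))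
  | add {F G : Om → ℂ} (hF : kw_Tr F) (hG : kw_Tr G) : kw_Tr fun w => F w + G w

theorem kw_Tr.congr {F G : Om → ℂ} (h : kw_Tr F) (e : ∀ w, G w = F w) : kw_Tr G := by
  rw [funext e]
  exact h

theorem kw_Tr.const (c : ℂ) : kw_Tr fun _ => c :=
  (kw_Tr.base c 1 1 one_ne_zero one_ne_zero).congr fun w => by simp [mon_one]

theorem kw_Tr.mul {F G : Om → ℂ} (hF : kw_Tr F) (hG : kw_Tr G) : kw_Tr fun w => F w * G w := by
  induction hF with
  | add _ _ h1 h2 => exact (h1.add h2).congr fun w => by ring
  | base c a b ha hb =>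
    induction hG with
    | add _ _ h1 h2 => exact (h1.add h2).congr fun w => by ring
    | base c' a' b' ha' hb' =>
      refine (kw_Tr.base (c * c') (a * a') (b * b') (mul_ne_zero ha ha')
        (mul_ne_zero hb hb')).congr fun w => ?_
      rw [mon_mul _ ha ha', mon_mul _ hb hb', map_mul]
      ring

theorem kw_Tr.conj {F : Om → ℂ} (hF : kw_Tr F) : kw_Tr fun w => (starRingEnd ℂ) (F w) := by
  induction hF with
  | add _ _ h1 h2 => exact (h1.add h2).congr fun w => by rw [map_add]
  | base c a b ha hb =>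
    refine (kw_Tr.base ((starRingEnd ℂ) c) b a hb ha).congr fun w => ?_
    simp only [map_mul, Complex.conj_conj]
    ring

theorem kw_Tr.sum {ι : Type} (s : Finset ι) {F : ι → Om → ℂ} (h : ∀ i ∈ s, kw_Tr (F i)) :
    kw_Tr fun w => ∑ i ∈ s, F i w := by
  classical
  induction s using Finset.induction_on with
  | empty => exact (kw_Tr.const 0).congr fun w => by simp
  | insert a s ha ih =>
    exact ((h a (Finset.mem_insert_self _ _)).add
      (ih fun i hi => h i (Finset.mem_insert_of_mem hi))).congr fun w => Finset.sum_insert ha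

theorem kw_Tr.pow {F : Om → ℂ} (hF : kw_Tr F) (n : ℕ) : kw_Tr fun w => F w ^ n := by
  induction n with
  | zero => exact (kw_Tr.const 1).congr fun w => pow_zero _
  | succ n ih => exact (ih.mul hF).congr fun w => pow_succ _ _

theorem kw_cont_mon (n : ℕ) : Continuous fun w : Om => mon (cz w) n := by
  unfold mon cz Finsupp.prod
  fun_prop

theorem kw_Tr.cont {F : Om → ℂ} (hF : kw_Tr F) : Continuous F := by
  induction hF with
  | add _ _ h1 h2 => exact h1.add h2
  | base c a b _ _ =>
    exact continuous_const.mul ((kw_cont_mon a).mul (Complex.continuous_conj.comp (kw_cont_mon b)))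

theorem kw_Tr.good (hKW1 : S_KW1) {F : Om → ℂ} (hF : kw_Tr F) : kw_Good fun w => (F w).re := by
  induction hF with
  | base c a b ha hb =>
    unfold kw_Good
    simp only [kw_mon _ ha, kw_mon _ hb]
    exact hKW1 a b c ha hb
  | @add F G hF hG h1 h2 =>
    have cF : Continuous fun w => (F w).re := Complex.continuous_re.comp hF.cont
    have cG : Continuous fun w => (G w).re := Complex.continuous_re.comp hG.cont
    unfold kw_Good at *
    simp only [Complex.add_re]
    rw [E_add cF cG]
    refine (h1.add h2).congr fun T => ?_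
    rw [intervalIntegral.integral_add (kw_int cF _ _) (kw_int cG _ _), mul_add]

theorem kw_approx {g : Om → ℝ} (hg : Continuous g)
    (h : ∀ ε : ℝ, 0 < ε → ∃ f : Om → ℝ, Continuous f ∧ kw_Good f ∧ ∀ w, |f w - g w| ≤ ε) :
    kw_Good g := by
  unfold kw_Good
  rw [Metric.tendsto_nhds]
  intro ε hε
  obtain ⟨f, cf, gf, hf⟩ := h (ε / 4) (by linarith)
  have h1 := Metric.tendsto_nhds.mp gf (ε / 4) (by linarith)
  filter_upwards [h1, eventually_gt_atTop (0 : ℝ)] with T hT T0
  have e1 : E f - E g ≤ ε / 4 := by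
    rw [← E_sub cf hg, ← E_const (ε / 4)]
    exact E_mono (cf.sub hg) continuous_const fun w => (abs_le.mp (hf w)).2
  have e2 : - (ε / 4) ≤ E f - E g := by
    rw [← E_sub cf hg, ← E_const (- (ε / 4))]
    exact E_mono continuous_const (cf.sub hg) fun w => (abs_le.mp (hf w)).1
  have e3 : |(1 / (2 * T)) * (∫ t in (-T)..T, f (kw_flow t)) -
      (1 / (2 * T)) * ∫ t in (-T)..T, g (kw_flow t)| ≤ ε / 4 := by
    rw [← mul_sub, ← intervalIntegral.integral_sub (kw_int cf _ _) (kw_int hg _ _), abs_mul]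
    have := intervalIntegral.norm_integral_le_of_norm_le_const (a := -T) (b := T) (C := ε / 4)
      (f := fun t => f (kw_flow t) - g (kw_flow t)) fun t _ => hf _
    rw [Real.norm_eq_abs, show T - -T = 2 * T by ring, abs_of_pos (show 0 < 2 * T by linarith)]
      at this
    rw [abs_of_pos (show 0 < 1 / (2 * T) by positivity)]
    calc _ ≤ 1 / (2 * T) * (ε / 4 * (2 * T)) := mul_le_mul_of_nonneg_left this (by positivity)
      _ = ε / 4 := by field_simp
  rw [Real.dist_eq, abs_lt] at hT ⊢
  rw [abs_le] at e3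
  constructor <;> linarith [hT.1, hT.2, e3.1, e3.2]

theorem p_KW (hKW1 : S_KW1) :
    S_KW := by
  intro p hp P
  have hL : kw_Tr fun w => lift P (cz w) :=
    kw_Tr.sum _ fun n _ => (kw_Tr.base (P n) (n + 1) 1 (Nat.succ_ne_zero n) one_ne_zero).congr
      fun w => by simp [mon_one]
  have hS : kw_Tr fun w => ((‖lift P (cz w)‖ ^ 2 : ℝ) : ℂ) :=
    (hL.mul hL.conj).congr fun w => by rw [Complex.mul_conj, Complex.normSq_eq_norm_sq]
  have cS : Continuous fun w : Om => ‖lift P (cz w)‖ ^ 2 := hL.cont.norm.pow 2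
  obtain ⟨M, hM⟩ := (isCompact_range cS).bddAbove
  have key : kw_Good fun w => ‖lift P (cz w)‖ ^ p := by
    refine kw_approx (cont_Np hp P) fun ε hε => ?_
    obtain ⟨q, hq⟩ := exists_polynomial_near_of_continuousOn 0 M (fun x : ℝ => x ^ (p / 2))
      (Real.continuous_rpow_const (by linarith)).continuousOn ε hε
    have hT : ∀ q : Polynomial ℝ, kw_Tr fun w => ((q.eval (‖lift P (cz w)‖ ^ 2) : ℝ) : ℂ) := by
      intro q
      induction q using Polynomial.induction_on' with
      | add a b ha hb => exact (ha.add hb).congr fun w => by simp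
      | monomial n c =>
        exact ((kw_Tr.const (c : ℂ)).mul (hS.pow n)).congr fun w => by
          rw [Polynomial.eval_monomial]
          push_cast
          rfl
    refine ⟨fun w => q.eval (‖lift P (cz w)‖ ^ 2), q.continuous.comp cS, ?_, fun w => ?_⟩
    · simpa only [Complex.ofReal_re] using (hT q).good hKW1
    · have := hq (‖lift P (cz w)‖ ^ 2) ⟨by positivity, hM ⟨w, rfl⟩⟩
      rw [← Real.rpow_natCast, ← Real.rpow_mul (norm_nonneg _),
        show ((2 : ℕ) : ℝ) * (p / 2) = p by push_cast; ring, Real.rpow_natCast] at this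
      exact this.le
  unfold kw_Good at key
  simp only [kw_lift] at key
  exact key

end Pool.Agent.P.MP_d14b1f_an.Nv
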