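import Pool.Agent.P.MP_d14b1f_an.Nv.IfaceL

/-! Step Z1. -/

set_option autoImplicit false

namespace Pool.Agent.P.MP_d14b1f_an.Nv

open Complex Filter Finset MeasureTheory Function Topology Asymptotics

theorem z1_exp {x c : ℝ} (h : |x| ≤ c) (hc : c ≤ 1) : Real.exp x ≤ 1 + x + x ^ 2 / 2 + c ^ 3 := by
  have h1 := Real.exp_bound (h.trans hc) (n := 3) (by norm_num)
  have h2 : |x| ^ 3 ≤ c ^ 3 := pow_le_pow_left₀ (abs_nonneg x) h 3
  have h3 : 0 ≤ |x| ^ 3 := by positivity
  have h4 := (abs_le.mp h1).2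
  simp only [Finset.sum_range_succ, Finset.range_zero, Finset.sum_empty, Nat.factorial] at h4
  norm_num at h4
  linarith

theorem z1_re (u : Circle) : |(u : ℂ).re| ≤ 1 := by
  have := Complex.abs_re_le_norm (u : ℂ)
  simpa using this

theorem p_Z1 :
    S_Z1 := by
  intro r h0 h1
  have hb : ∀ u : Circle, |2 * (r * (u : ℂ).re)| ≤ 2 * r := fun u => by
    rw [abs_mul, abs_mul, abs_of_nonneg h0, abs_two]
    have := mul_le_mul_of_nonneg_left (z1_re u) h0
    linarith
  constructor
  · have h : av (fun _ => Real.exp (-1)) ≤ Zr r :=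
      av_mono (by fun_prop) (by fun_prop) fun u =>
        Real.exp_le_exp.mpr (by have := (abs_le.mp (hb u)).1; linarith)
    rw [av_const] at h
    exact (Real.exp_pos _).trans_le h
  · have h : Zr r ≤ av (fun u => ((1 + 8 * r ^ 3) + (2 * r) * ((1 : ℂ) * u).re) +
        (2 * r ^ 2) * ((1 : ℂ) * u).re ^ 2) :=
      av_mono (by fun_prop) (by fun_prop) fun u => by
        have := z1_exp (hb u) (by linarith)
        rw [one_mul]
        linarith
    rw [av_add (by fun_prop) (by fun_prop), av_add (by fun_prop) (by fun_prop), av_const, av_mul,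
      av_mul, av_re, av_re_sq, norm_one] at h
    have h2 := Real.add_one_le_exp (r ^ 2 + 8 * r ^ 3)
    linarith

end Pool.Agent.P.MP_d14b1f_an.Nv
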